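import Pool.Agent.J4H65.UP.Crit
import Pool.Agent.H612.LR.T_CORE

/-!
# One-dimensional inhomogeneous approximation on a torus
-/

set_option autoImplicit false

namespace Pool.Agent.J4H65.RO

open Filter Topology Pool.Agent.H612.LR Pool.Agent.J4H65.UP

/-- rational approximations with large denominators -/
theorem exists_rat_den {α : ℝ} (hα : Irrational α) (T : ℕ) :
    ∃ r : ℚ, T ≤ r.den ∧ |α - r| < 1 / (r.den : ℝ) ^ 2 := by
  by_contra hcon
  push Not at hcon
  have hinf := Real.infinite_rat_abs_sub_lt_one_div_den_sq_of_irrational hα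
  apply hinf
  obtain ⟨M, hM⟩ := exists_nat_ge ((|α| + 1) * T)
  have hinj : Function.Injective (fun r : ℚ => ((r.num, r.den) : ℤ × ℕ)) := by
    intro r s h
    have h1 := congrArg Prod.fst h
    have h2 := congrArg Prod.snd h
    exact Rat.ext h1 h2
  refine Set.Finite.subset (((Set.finite_Icc (-(M : ℤ)) M).prod
    (Set.finite_Icc 0 T)).preimage (hinj.injOn (s := Set.univ) |>.mono (Set.subset_univ _)))
    fun r hr => ?_
  have hr' : |α - r| < 1 / (r.den : ℝ) ^ 2 := hr
  have hden : r.den < T := by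
    by_contra h
    exact absurd hr' (not_lt.2 (hcon r (not_lt.1 h)))
  have hd0 : (0 : ℝ) < r.den := by exact_mod_cast r.den_pos
  have hd1 : (1 : ℝ) ≤ r.den := by exact_mod_cast r.den_pos
  have h1 : |α - r| < 1 := by
    refine lt_of_lt_of_le hr' ?_
    rw [div_le_one (by positivity)]
    exact one_le_pow₀ hd1
  have h2 : |(r : ℝ)| ≤ |α| + 1 := by
    have h3 : |(r : ℝ)| ≤ |α| + |α - r| := by
      have := abs_sub_abs_le_abs_sub (r : ℝ) α
      rw [abs_sub_comm] at this
      linarith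
    linarith
  have h4 : (r : ℝ) * r.den = r.num := by
    have := Rat.mul_den_eq_num r
    exact_mod_cast this
  have h5 : |(r.num : ℝ)| ≤ M := by
    rw [← h4, abs_mul, abs_of_pos hd0]
    have h6 : (r.den : ℝ) ≤ T := by exact_mod_cast hden.le
    calc |(r : ℝ)| * r.den ≤ (|α| + 1) * T := by
          apply mul_le_mul h2 h6 hd0.le
          have := abs_nonneg α
          linarith
      _ ≤ M := hM
  have h7 : |r.num| ≤ (M : ℤ) := by exact_mod_cast h5
  exact ⟨⟨(abs_le.1 h7).1, (abs_le.1 h7).2⟩, ⟨Nat.zero_le _, hden.le⟩⟩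

theorem exp_two_pi_int (n : ℤ) : Complex.exp (Complex.I * ((2 * Real.pi * (n : ℝ) : ℝ) : ℂ)) = 1 := by
  rw [Complex.exp_eq_one_iff]
  exact ⟨n, by push_cast; ring⟩

/-- approximation of a number by powers, irrational angle -/
theorem approx_irr (α β : ℝ) (hα : Irrational α) (T : ℕ) : ∃ t : ℕ, T ≤ t ∧ 1 ≤ t ∧
    ‖Complex.exp (Complex.I * ((2 * Real.pi * α : ℝ) : ℂ)) ^ t -
      Complex.exp (Complex.I * ((2 * Real.pi * β : ℝ) : ℂ))‖ * t ≤ 10 * Real.pi := by
  obtain ⟨r, hr1, hr2⟩ := exists_rat_den hα (T + 1)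
  set p := r.num with hp
  set q := r.den with hq
  have hq0 : (0 : ℝ) < q := by exact_mod_cast r.den_pos
  have hq1 : 0 < q := r.den_pos
  set a : ℤ := round ((q : ℝ) * β) with ha
  -- solve `t p ≡ a` modulo `q`
  obtain ⟨x, hx⟩ : ∃ x : ℤ, (q : ℤ) ∣ x * p - a := by
    have hcop : IsCoprime p (q : ℤ) := Int.isCoprime_iff_nat_coprime.2 (by
      simpa using r.reduced)
    obtain ⟨u, v, huv⟩ := hcop
    refine ⟨a * u, ⟨-(a * v), ?_⟩⟩
    linear_combination a * huv
  set t0 : ℤ := x % (q : ℤ) with ht0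
  have hqz : (0 : ℤ) < q := by exact_mod_cast hq1
  have h1 : 0 ≤ t0 := Int.emod_nonneg _ hqz.ne'
  have h2 : t0 < q := Int.emod_lt_of_pos _ hqz
  have h3 : (q : ℤ) ∣ t0 * p - a := by
    have e : t0 * p - a = (x * p - a) - (q : ℤ) * ((x / q) * p) := by
      have := Int.emod_add_mul_ediv x (q : ℤ)
      rw [← ht0] at this
      linear_combination p * this
    rw [e]
    exact dvd_sub hx (Dvd.intro _ rfl)
  obtain ⟨t1, ht1⟩ := Int.eq_ofNat_of_zero_le h1
  have ht1q : t1 < q := by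
    have : (t1 : ℤ) < q := ht1 ▸ h2
    exact_mod_cast this
  refine ⟨t1 + q, by omega, by omega, ?_⟩
  obtain ⟨n0, hn0⟩ := h3
  set t : ℕ := t1 + q with ht
  have htp : (t : ℤ) * p = a + q * (n0 + p) := by
    rw [ht]
    push_cast
    rw [ht1] at hn0
    have hn0' : (t1 : ℤ) * p - a = q * n0 := hn0
    linear_combination hn0'
  set n : ℤ := n0 + p with hn
  have htr : (t : ℝ) * (r : ℝ) = (a : ℝ) / q + n := by
    have h4 : (r : ℝ) = (p : ℝ) / q := by
      have := Rat.cast_def (K := ℝ) r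
      exact this
    have h5 : ((t : ℤ) : ℝ) * (p : ℝ) = (a : ℝ) + q * n := by exact_mod_cast htp
    rw [h4]
    push_cast at h5
    field_simp
    linear_combination h5
  have ht2 : (t : ℝ) ≤ 2 * q := by
    have : t ≤ 2 * q := by omega
    exact_mod_cast this
  have herr : |(t : ℝ) * α - β - n| ≤ 5 / 2 / q := by
    have h6 : (t : ℝ) * α - β - n = t * (α - r) + ((a : ℝ) / q - β) := by
      linear_combination htr
    rw [h6]
    have h7 : |(t : ℝ) * (α - r)| ≤ 2 / q := by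
      rw [abs_mul, abs_of_nonneg (Nat.cast_nonneg t)]
      calc (t : ℝ) * |α - r| ≤ (2 * q) * (1 / (q : ℝ) ^ 2) :=
            mul_le_mul ht2 hr2.le (abs_nonneg _) (by positivity)
        _ = 2 / q := by field_simp
    have h8 : |(a : ℝ) / q - β| ≤ 1 / 2 / q := by
      have h9 := abs_sub_round ((q : ℝ) * β)
      rw [← ha] at h9
      have h10 : (a : ℝ) / q - β = -(((q : ℝ) * β - a) / q) := by field_simp; ring
      rw [h10, abs_neg, abs_div, abs_of_pos hq0]
      exact div_le_div_of_nonneg_right h9 hq0.le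
    calc |(t : ℝ) * (α - r) + ((a : ℝ) / q - β)| ≤ 2 / q + 1 / 2 / q :=
          (abs_add_le _ _).trans (add_le_add h7 h8)
      _ = 5 / 2 / q := by ring
  have hexp : Complex.exp (Complex.I * ((2 * Real.pi * α : ℝ) : ℂ)) ^ t -
      Complex.exp (Complex.I * ((2 * Real.pi * β : ℝ) : ℂ)) =
      Complex.exp (Complex.I * ((2 * Real.pi * β : ℝ) : ℂ)) *
        (Complex.exp (Complex.I * ((2 * Real.pi * (t * α - β - n) : ℝ) : ℂ)) - 1) := by
    have h11 : Complex.exp (Complex.I * ((2 * Real.pi * (t * α - β - n) : ℝ) : ℂ)) =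
        Complex.exp (Complex.I * ((2 * Real.pi * (t * α - β - n) : ℝ) : ℂ)) *
          Complex.exp (Complex.I * ((2 * Real.pi * (n : ℝ) : ℝ) : ℂ)) := by
      rw [exp_two_pi_int, mul_one]
    rw [mul_sub, mul_one, h11, ← Complex.exp_nat_mul, ← Complex.exp_add, ← Complex.exp_add]
    congr 2
    push_cast
    ring
  rw [hexp, norm_mul, Complex.norm_exp_I_mul_ofReal, one_mul]
  have h12 := Real.norm_exp_I_mul_ofReal_sub_one_le (x := 2 * Real.pi * (t * α - β - n))
  have hpi := Real.pi_pos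
  have h13 : ‖2 * Real.pi * ((t : ℝ) * α - β - n)‖ ≤ 2 * Real.pi * (5 / 2 / q) := by
    rw [norm_mul, Real.norm_of_nonneg (by positivity), Real.norm_eq_abs]
    exact mul_le_mul_of_nonneg_left herr (by positivity)
  calc ‖Complex.exp (Complex.I * ((2 * Real.pi * (t * α - β - n) : ℝ) : ℂ)) - 1‖ * (t : ℝ)
      ≤ (2 * Real.pi * (5 / 2 / q)) * (2 * q) :=
        mul_le_mul (h12.trans h13) ht2 (Nat.cast_nonneg t) (by positivity)
    _ = 10 * Real.pi := by field_simp; ring

theorem unit_eq_exp (ω : ℂ) (hω : ‖ω‖ = 1) : ∃ α : ℝ,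
    ω = Complex.exp (Complex.I * ((2 * Real.pi * α : ℝ) : ℂ)) := by
  refine ⟨Complex.arg ω / (2 * Real.pi), ?_⟩
  have h1 := Complex.norm_mul_exp_arg_mul_I ω
  rw [hω] at h1
  have h2 : 2 * Real.pi * (Complex.arg ω / (2 * Real.pi)) = Complex.arg ω := by
    have := Real.pi_pos
    field_simp
  rw [h2, mul_comm Complex.I]
  simpa using h1.symm

/-- approximation of a limit of powers -/
theorem approx_one (ω w : ℂ) (hω : ‖ω‖ = 1) (hw : ‖w‖ = 1)
    (h : ∀ ε : ℝ, 0 < ε → ∀ T : ℕ, ∃ t, T ≤ t ∧ ‖ω ^ t - w‖ < ε) :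
    ∃ C : ℝ, 0 ≤ C ∧ ∀ T : ℕ, ∃ t, T ≤ t ∧ 1 ≤ t ∧ ‖ω ^ t - w‖ * t ≤ C := by
  by_cases hroot : ∃ N : ℕ, 1 ≤ N ∧ ω ^ N = 1
  · obtain ⟨N, hN1, hN⟩ := hroot
    obtain ⟨ε, hε, hε'⟩ : ∃ ε : ℝ, 0 < ε ∧ ∀ r < N, ω ^ r ≠ w → ε ≤ ‖ω ^ r - w‖ := by
      have : ∀ k ≤ N, ∃ ε : ℝ, 0 < ε ∧ ∀ r < k, ω ^ r ≠ w → ε ≤ ‖ω ^ r - w‖ := by
        intro k
        induction k with
        | zero => intro _; exact ⟨1, one_pos, fun r hr => absurd hr (Nat.not_lt_zero r)⟩
        | succ k ih =>
          intro hk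
          obtain ⟨ε, h1, h2⟩ := ih (by omega)
          by_cases hkw : ω ^ k = w
          · refine ⟨ε, h1, fun r hr hrw => ?_⟩
            rcases Nat.lt_succ_iff_lt_or_eq.1 hr with h3 | rfl
            · exact h2 r h3 hrw
            · exact absurd hkw hrw
          · have h3 : 0 < ‖ω ^ k - w‖ := norm_pos_iff.2 (sub_ne_zero.2 hkw)
            refine ⟨min ε ‖ω ^ k - w‖, lt_min h1 h3, fun r hr hrw => ?_⟩
            rcases Nat.lt_succ_iff_lt_or_eq.1 hr with h4 | rfl
            · exact (min_le_left _ _).trans (h2 r h4 hrw)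
            · exact min_le_right _ _
      exact this N le_rfl
    refine ⟨0, le_rfl, fun T => ?_⟩
    obtain ⟨t, ht, ht2⟩ := h ε hε (T + 1)
    have e : ω ^ t = ω ^ (t % N) := by
      conv_lhs => rw [← Nat.mod_add_div t N, pow_add, pow_mul, hN, one_pow, mul_one]
    have hlt : t % N < N := Nat.mod_lt _ hN1
    have hw' : ω ^ t = w := by
      by_contra hne
      have := hε' (t % N) hlt (by rw [← e]; exact hne)
      rw [← e] at this
      exact absurd ht2 (not_lt.2 this)
    refine ⟨t, by omega, by omega, ?_⟩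
    rw [hw', sub_self, norm_zero, zero_mul]
  · obtain ⟨α, rfl⟩ := unit_eq_exp ω hω
    obtain ⟨β, rfl⟩ := unit_eq_exp w hw
    have hα : Irrational α := by
      rintro ⟨r, hr⟩
      apply hroot
      refine ⟨r.den, r.den_pos, ?_⟩
      rw [← Complex.exp_nat_mul]
      have h1 : (r.den : ℝ) * α = r.num := by
        rw [← hr]
        have := Rat.mul_den_eq_num r
        rw [mul_comm] at this
        exact_mod_cast this
      have h2 : (r.den : ℂ) * (Complex.I * ((2 * Real.pi * α : ℝ) : ℂ)) =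
          Complex.I * ((2 * Real.pi * ((r.num : ℤ) : ℝ) : ℝ) : ℂ) := by
        rw [← h1]
        push_cast
        ring
      rw [h2]
      exact exp_two_pi_int _
    have hpi := Real.pi_pos
    exact ⟨10 * Real.pi, by positivity, fun T => approx_irr α β hα T⟩

end Pool.Agent.J4H65.RO
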