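import Pool.Agent.J4H65.RO.Snd3

/-!
# Completeness: points of the orbit closure have certificates
-/

set_option autoImplicit false

namespace Pool.Agent.J4H65.RO

open Polynomial Filter Topology Pool.Agent.H612.LR Pool.Agent.J4H65.UP

theorem chain_pow {k q N : ℕ} {D : Finset ℕ} {g : ℕ → ℂ} {P : ℕ → ℕ} {a b : ℕ → ℕ → ℕ} {ζ : ℂ}
    {ξ : ℕ → ℂ} {h : ℕ → ℕ → ℂ} (H : Chain k q N D g P a b ζ ξ h) (n : ℕ) (i : ℕ) (hi : i ∈ D) :
    (ζ ^ (n % q)) ^ P i * ∏ j ∈ Finset.range k, pw (ξ j ^ n) (a j i) (b j i) = g i ^ n := by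
  have hζ : ζ ^ n = ζ ^ (n % q) := by
    conv_lhs => rw [← Nat.div_add_mod n q]
    rw [pow_add, pow_mul, H.root, one_pow, one_mul]
  rw [cmp_prod H i hi, mul_pow, ← Finset.prod_pow, ← hζ]
  congr 1
  · rw [← pow_mul, ← pow_mul, mul_comm]
  · exact Finset.prod_congr rfl fun j _ => cmp_pw _ _ _ _

theorem pw_cont (a b : ℕ) : Continuous fun x : ℂ => pw x a b := by
  unfold pw
  exact (continuous_id.pow a).mul (Complex.continuous_conj.pow b)

theorem cmp2 : ∀ A0 C : ℕ, ∃ A1 : ℕ, ∀ (l : Rec) (d : CD) (z : ℕ → ℂ), 1 ≤ l.length →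
    Rep l d.lam d.c → d.Lev l → d.J < l.length → 0 < d.J → 0 < d.ρ →
    d.q ≤ 2 ^ (C * Pool.Agent.H612.LR.sz l ^ C) →
    (∀ ε : ℝ, 0 < ε → ∀ T : ℕ, ∃ t, T ≤ t ∧ ∀ i ∈ d.S l.length 1,
      ‖(d.lam i / (d.ρ : ℂ)) ^ (d.m + d.q * t) - z i‖ < ε) →
    (∑ i ∈ d.S l.length 1, d.c i d.J * z i).re ≤ 0 →
    (∑ i ∈ d.S l.length 1, d.c i (d.J - 1) * z i).re < 0 →
    Cert2 l (A1 * Pool.Agent.H612.LR.sz l ^ A1) (A0 * Pool.Agent.H612.LR.sz l ^ A0) := by
  classical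
  intro A0 C
  refine ⟨2 * C + A0 + 8, ?_⟩
  intro l d z hl hrep hlev hJ hJ0 hρ hq hz hle hneg
  have hk := cmp_sz l
  have hE := cmp_exp A0 C (Pool.Agent.H612.LR.sz l) l.length hl hk
  set s := Pool.Agent.H612.LR.sz l with hs
  set k := l.length with hkk
  set N := A0 * s ^ A0 with hN
  set S := d.S k 1 with hS
  set γ : ℕ → ℂ := fun i => d.lam i / (d.ρ : ℂ) with hγdef
  have hγ : ∀ i ∈ S, ‖γ i‖ = 1 := by
    intro i hi
    rw [hS] at hi
    unfold CD.S at hi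
    rw [Finset.mem_filter, Finset.mem_range] at hi
    simp only [hγdef]
    rcases hlev.flag i hi.1 with h | ⟨-, h, -⟩ | ⟨h, -⟩
    · omega
    · rw [norm_div, h, Complex.norm_real, Real.norm_of_nonneg hρ.le, div_self hρ.ne']
    · omega
  obtain ⟨Q, P, a, b, ζ, ξ, h, q1, q2, q3, q4, hch⟩ := t_DEC t_DIR k N d.q S γ
    ((Finset.card_filter_le _ _).trans (by rw [Finset.card_range])) hlev.q1 hγ
  have hq1 := hlev.q1
  have hbase : d.q * 2 ^ (N + 6) ≤ 2 ^ (C * s ^ C + N + 6) := by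
    calc d.q * 2 ^ (N + 6) ≤ 2 ^ (C * s ^ C) * 2 ^ (N + 6) := Nat.mul_le_mul_right _ hq
      _ = _ := by rw [← pow_add]; congr 1
  have hQq : Q * d.q ≤ 2 ^ ((C * s ^ C + N + 6) * k + C * s ^ C) := by
    calc Q * d.q ≤ (2 ^ (C * s ^ C + N + 6)) ^ k * 2 ^ (C * s ^ C) :=
          Nat.mul_le_mul (q2.trans (Nat.pow_le_pow_left hbase k)) hq
      _ = _ := by rw [← pow_mul, ← pow_add]
  have hEE : 2 ^ ((C * s ^ C + N + 6) * k + C * s ^ C) <
      2 ^ ((2 * C + A0 + 8) * s ^ (2 * C + A0 + 8)) := Nat.pow_lt_pow_right (by norm_num) hE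
  have hqlt : Q * d.q < 2 ^ ((2 * C + A0 + 8) * s ^ (2 * C + A0 + 8)) := hQq.trans_lt hEE
  have hQ1 : 1 ≤ Q * d.q := Nat.mul_pos q1 hq1
  have hablt : ∀ n, n ≤ 2 ^ ((N + 2) * k) → n < 2 ^ ((2 * C + A0 + 8) * s ^ (2 * C + A0 + 8)) := by
    intro n hn
    refine lt_of_le_of_lt (hn.trans (Nat.pow_le_pow_right (by norm_num) ?_)) hEE
    have : (N + 2) * k ≤ (C * s ^ C + N + 6) * k := Nat.mul_le_mul_right _ (by omega)
    omega
  obtain ⟨hl0, -, -⟩ := hrep 0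
  have hcls : ∀ i < l.length, d.κ i < l.length ∧
      d.lam i ^ (Q * d.q) = d.lam (d.κ i) ^ (Q * d.q) := by
    intro i hi
    refine ⟨(hlev.cls i hi).1, ?_⟩
    rw [mul_comm, pow_mul, (hlev.cls i hi).2, ← pow_mul]
  -- the subclass
  set F : ℕ → ℝ := fun t => ∑ i ∈ S, ‖γ i ^ (d.m + d.q * t) - z i‖ with hF
  have hsm : ∀ ε : ℝ, 0 < ε → ∀ T : ℕ, ∃ t, T ≤ t ∧ F t < ε := by
    intro ε hε T
    have hc : (0 : ℝ) < S.card + 1 := by positivity
    obtain ⟨t, ht, h⟩ := hz (ε / (S.card + 1)) (by positivity) T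
    refine ⟨t, ht, ?_⟩
    calc F t ≤ ∑ _i ∈ S, ε / (S.card + 1) := Finset.sum_le_sum fun i hi => (h i hi).le
      _ = S.card * (ε / (S.card + 1)) := by rw [Finset.sum_const, nsmul_eq_mul]
      _ < ε := by
        rw [mul_div_assoc', div_lt_iff₀ hc]
        nlinarith
  obtain ⟨r, hr, hsm'⟩ := pigeon_small F hsm Q q1
  have hseq : ∀ n : ℕ, ∃ u : ℕ, n ≤ u ∧ F (r + Q * u) < 1 / ((n : ℝ) + 1) := fun n => by
    obtain ⟨u, h1, h2⟩ := hsm' (1 / ((n : ℝ) + 1)) (by positivity) n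
    exact ⟨u, h1, h2⟩
  choose u hu1 hu2 using hseq
  set E : ℕ → ℕ := fun n => d.m + d.q * (r + Q * u n) with hEd
  have hEmod : ∀ n, E n % (Q * d.q) = (d.m + d.q * r) % (Q * d.q) := by
    intro n
    have : E n = (d.m + d.q * r) + (Q * d.q) * u n := by
      simp only [hEd]
      ring
    rw [this, Nat.add_mul_mod_self_left]
  set X : ℕ → (Fin k → ℂ) := fun n j => ξ j ^ E n with hX
  have hmem : ∀ n, X n ∈ Set.pi Set.univ (fun _ : Fin k => Metric.sphere (0 : ℂ) 1) := by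
    intro n j _
    rw [mem_sphere_zero_iff_norm]
    show ‖ξ j ^ E n‖ = 1
    rw [norm_pow, hch.unit j j.2, one_pow]
  obtain ⟨w, hw, θ, hθ, hlim⟩ := (isCompact_univ_pi fun _ : Fin k =>
    isCompact_sphere (0 : ℂ) 1).tendsto_subseq hmem
  set x : ℕ → ℂ := fun j => if h : j < k then w ⟨j, h⟩ else 1 with hx
  have hxj : ∀ (j : ℕ) (hj : j < k), x j = w ⟨j, hj⟩ := by
    intro j hj
    simp only [hx]
    rw [dif_pos hj]
  have hlimj : ∀ (j : ℕ), j < k → Tendsto (fun n => ξ j ^ E (θ n)) atTop (𝓝 (x j)) := by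
    intro j hj
    rw [hxj j hj]
    exact (tendsto_pi_nhds.1 hlim) ⟨j, hj⟩
  have hxn : ∀ j < k, ‖x j‖ = 1 := by
    intro j hj
    rw [hxj j hj]
    exact mem_sphere_zero_iff_norm.1 (hw ⟨j, hj⟩ (Set.mem_univ _))
  have hx1 : ∀ j < k, ξ j = 1 → x j = 1 := by
    intro j hj h1
    have h2 := hlimj j hj
    rw [h1] at h2
    simp only [one_pow] at h2
    exact tendsto_nhds_unique h2 tendsto_const_nhds
  set m' := (d.m + d.q * r) % (Q * d.q) with hm'
  have hzi : ∀ i ∈ S, (ζ ^ m') ^ P i * ∏ j ∈ Finset.range k, pw (x j) (a j i) (b j i) = z i := by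
    intro i hi
    have h1 : Tendsto (fun n => γ i ^ E (θ n)) atTop
        (𝓝 ((ζ ^ m') ^ P i * ∏ j ∈ Finset.range k, pw (x j) (a j i) (b j i))) := by
      have h2 : Tendsto (fun n => ∏ j ∈ Finset.range k, pw (ξ j ^ E (θ n)) (a j i) (b j i)) atTop
          (𝓝 (∏ j ∈ Finset.range k, pw (x j) (a j i) (b j i))) := by
        refine tendsto_finsetProd _ fun j hj => ?_
        exact ((pw_cont (a j i) (b j i)).tendsto (x j)).comp (hlimj j (Finset.mem_range.1 hj))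
      refine (h2.const_mul ((ζ ^ m') ^ P i)).congr fun n => ?_
      have h3 := chain_pow hch (E (θ n)) i hi
      rw [hEmod] at h3
      exact h3
    have h3 : Tendsto (fun n => γ i ^ E (θ n)) atTop (𝓝 (z i)) := by
      rw [tendsto_iff_norm_sub_tendsto_zero]
      refine squeeze_zero (fun n => norm_nonneg _) (fun n => ?_)
        ((tendsto_one_div_add_atTop_nhds_zero_nat (𝕜 := ℝ)).comp hθ.tendsto_atTop)
      refine le_trans ?_ (hu2 (θ n)).le
      exact Finset.single_le_sum (f := fun i => ‖γ i ^ (d.m + d.q * (r + Q * u (θ n))) - z i‖)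
        (fun i _ => norm_nonneg _) hi
    exact tendsto_nhds_unique h1 h3
  have hlev' := lev_shift hlev r
  refine ⟨CD.mk d.lam d.c d.ρ d.J m' (Q * d.q) P a b ζ ξ x h d.fl d.κ, ?_⟩
  have hsumz : ∀ j, ∑ i ∈ S, d.c i j * ((ζ ^ m') ^ P i *
      ∏ j ∈ Finset.range k, pw (x j) (a j i) (b j i)) = ∑ i ∈ S, d.c i j * z i := fun j =>
    Finset.sum_congr rfl fun i hi => by rw [hzi i hi]
  refine
    { rep := hrep _
      jlt := hJ
      jpos := hJ0
      mlt := (Nat.mod_lt _ hQ1).trans hqlt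
      qlt := hqlt
      plt := fun i _ => lt_of_le_of_lt ((q3 i).trans (Nat.le_mul_of_pos_right _ hq1)) hqlt
      alt := fun j _ i _ => hablt _ (q4 j i).1
      blt := fun j _ i _ => hablt _ (q4 j i).2
      lev :=
        { rho := hlev.rho
          q1 := hQ1
          flag := hlev.flag
          cls := hcls
          can0 := ?_
          can1 := ?_ }
      rpos := hρ
      chain := hch
      xc := fun j hj => ⟨hxn j hj, hx1 j hj⟩
      le := ?_
      neg := ?_ }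
  · intro s' hs' j hj
    refine cmp_can (d.S l.length 0) s' (d.m + d.q * r) (Q * d.q) (Q * d.q) d.κ d.lam
      (fun i => d.c i j) (hl0 s' hs') ?_ (hlev'.can0 s' hs' j hj) rfl
    intro i hi
    unfold CD.S at hi
    rw [Finset.mem_filter, Finset.mem_range] at hi
    exact (hcls i hi.1).2
  · intro s' hs' j hj hJj
    refine cmp_can (d.S l.length 1) s' (d.m + d.q * r) (Q * d.q) (Q * d.q) d.κ d.lam
      (fun i => d.c i j) (hl0 s' hs') ?_ (hlev'.can1 s' hs' j hj hJj) rfl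
    intro i hi
    unfold CD.S at hi
    rw [Finset.mem_filter, Finset.mem_range] at hi
    exact (hcls i hi.1).2
  · show (∑ i ∈ S, d.c i d.J * ((ζ ^ m') ^ P i *
      ∏ j ∈ Finset.range k, pw (x j) (a j i) (b j i))).re ≤ 0
    rw [hsumz]
    exact hle
  · show (∑ i ∈ S, d.c i (d.J - 1) * ((ζ ^ m') ^ P i *
      ∏ j ∈ Finset.range k, pw (x j) (a j i) (b j i))).re < 0
    rw [hsumz]
    exact hneg

end Pool.Agent.J4H65.RO
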