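import Pool.Agent.J4H65.RO.Dc

/-!
# Doubly critical recurrences are critical
-/

set_option autoImplicit false

namespace Pool.Agent.J4H65.RO

open Polynomial Filter Topology Pool.Agent.H612.LR Pool.Agent.J4H65.UP

/-- nonzero trigonometric sums do not tend to zero -/
theorem trig_return {f : ℕ → ℝ} (hf : Trig f) (t0 : ℕ) (h0 : f t0 ≠ 0) :
    ∃ η : ℝ, 0 < η ∧ ∀ N : ℕ, ∃ t, N ≤ t ∧ η ≤ |f t| := by
  obtain ⟨M, c, x, hx, hfx⟩ := hf
  have hp : 0 < |f t0| := abs_pos.2 h0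
  have hs : 0 ≤ ∑ i ∈ Finset.range M, ‖c i‖ := Finset.sum_nonneg fun i _ => norm_nonneg _
  have hden : 0 < 1 + ∑ i ∈ Finset.range M, ‖c i‖ := by linarith
  refine ⟨|f t0| / 2, by linarith, fun N => ?_⟩
  obtain ⟨L, hL⟩ := bohr (Finset.range M) x (fun i hi => hx i (Finset.mem_range.1 hi))
    (|f t0| / 2 / (1 + ∑ i ∈ Finset.range M, ‖c i‖)) (by positivity) t0
  obtain ⟨t, ht, -, h⟩ := hL N
  refine ⟨t, ht, ?_⟩
  have h1 : |f t - f t0| ≤ |f t0| / 2 := by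
    have e : f t - f t0 = (∑ i ∈ Finset.range M, (c i * x i ^ t - c i * x i ^ t0)).re := by
      rw [hfx t, hfx t0, ← Complex.sub_re, ← Finset.sum_sub_distrib]
    rw [e]
    refine (Complex.abs_re_le_norm _).trans ((norm_sum_le _ _).trans ?_)
    calc ∑ i ∈ Finset.range M, ‖c i * x i ^ t - c i * x i ^ t0‖
        ≤ ∑ i ∈ Finset.range M, ‖c i‖ * (|f t0| / 2 / (1 + ∑ i ∈ Finset.range M, ‖c i‖)) := by
          refine Finset.sum_le_sum fun i hi => ?_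
          rw [← mul_sub, norm_mul]
          exact mul_le_mul_of_nonneg_left (h i hi).le (norm_nonneg _)
      _ = (∑ i ∈ Finset.range M, ‖c i‖) * (|f t0| / 2 / (1 + ∑ i ∈ Finset.range M, ‖c i‖)) := by
          rw [Finset.sum_mul]
      _ ≤ |f t0| / 2 := by
          rw [mul_div_assoc', div_le_iff₀ hden]
          nlinarith
  have h2 := abs_sub_abs_le_abs_sub (f t0) (f t)
  rw [abs_sub_comm] at h2
  linarith

theorem trig_bdd {f : ℕ → ℝ} (hf : Trig f) : ∃ C : ℝ, 0 ≤ C ∧ ∀ t, |f t| ≤ C := by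
  obtain ⟨M, c, x, hx, hfx⟩ := hf
  refine ⟨∑ i ∈ Finset.range M, ‖c i‖, Finset.sum_nonneg fun i _ => norm_nonneg _, fun t => ?_⟩
  rw [hfx]
  refine (Complex.abs_re_le_norm _).trans ((norm_sum_le _ _).trans ?_)
  refine Finset.sum_le_sum fun i hi => ?_
  rw [norm_mul, norm_pow, hx i (Finset.mem_range.1 hi), one_pow, mul_one]

/-- the conditions for a critical recurrence along a progression -/
theorem crit_cond (l : Rec) (ρ : ℝ) (m a b : ℕ) (D : ℕ → ℝ) (hb : 1 ≤ b) (C : ℝ)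
    (hC : ∀ t, |D t| ≤ C)
    (hclose : ∀ ε : ℝ, 0 < ε → ∃ N, ∀ t, N ≤ t → |quo l a b m ρ t -
      ((a + b * t).choose m : ℝ) / (((a + b * t : ℕ) : ℝ) + 1) ^ m * D t| < ε)
    (hlow : ∀ ε : ℝ, 0 < ε → ∃ N, ∀ t, N ≤ t → -ε < D t)
    (hsm : ∀ ε : ℝ, 0 < ε → ∀ N : ℕ, ∃ t, N ≤ t ∧ D t < ε)
    (hnt : ∃ η : ℝ, 0 < η ∧ ∀ N : ℕ, ∃ t, N ≤ t ∧ η ≤ |D t|) :
    (∃ C : ℝ, ∀ t, |quo l a b m ρ t| ≤ C) ∧ ¬ Tendsto (quo l a b m ρ) atTop (𝓝 0) ∧
      liminf (quo l a b m ρ) atTop = 0 := by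
  obtain ⟨c0, hc0, hkap⟩ := kap_bounds m
  have hidx : ∀ t, t ≤ a + b * t := fun t => by
    have : t ≤ b * t := Nat.le_mul_of_pos_left _ hb
    omega
  set κ : ℕ → ℝ := fun t => ((a + b * t).choose m : ℝ) / (((a + b * t : ℕ) : ℝ) + 1) ^ m with hκ
  have hκ1 : ∀ t, 2 * m + 1 ≤ t → c0 ≤ κ t ∧ κ t ≤ 1 := fun t ht =>
    hkap _ (ht.trans (hidx t))
  have hcl : ∀ ε : ℝ, 0 < ε → ∃ N, ∀ t, N ≤ t → |quo l a b m ρ t - κ t * D t| < ε := hclose
  have hbound : ∃ C' : ℝ, ∀ t, |quo l a b m ρ t| ≤ C' := by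
    obtain ⟨N, hN⟩ := hcl 1 one_pos
    refine bdd_of_eventually _ (1 + C) (N + 2 * m + 1) fun t ht => ?_
    have h1 := hN t (by omega)
    obtain ⟨h2, h3⟩ := hκ1 t (by omega)
    have h4 : |κ t * D t| ≤ C := by
      rw [abs_mul, abs_of_nonneg (hc0.le.trans h2)]
      have h5 := hC t
      nlinarith [abs_nonneg (D t)]
    have h6 := abs_sub_abs_le_abs_sub (quo l a b m ρ t) (κ t * D t)
    linarith
  obtain ⟨C', hC'⟩ := hbound
  refine ⟨⟨C', hC'⟩, ?_, le_antisymm ?_ ?_⟩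
  · intro hlim
    obtain ⟨η, hη, hηt⟩ := hnt
    rw [Metric.tendsto_atTop] at hlim
    obtain ⟨N1, hN1⟩ := hlim (c0 * η / 2) (by positivity)
    obtain ⟨N2, hN2⟩ := hcl (c0 * η / 2) (by positivity)
    obtain ⟨t, ht, h1⟩ := hηt (N1 + N2 + 2 * m + 1)
    have h2 := hN1 t (by omega)
    rw [Real.dist_0_eq_abs] at h2
    have h3 := hN2 t (by omega)
    obtain ⟨h4, h5⟩ := hκ1 t (by omega)
    have h6 : c0 * η ≤ |κ t * D t| := by
      rw [abs_mul, abs_of_nonneg (hc0.le.trans h4)]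
      exact mul_le_mul h4 h1 hη.le (hc0.le.trans h4)
    have h7 := abs_sub_abs_le_abs_sub (κ t * D t) (quo l a b m ρ t)
    rw [abs_sub_comm] at h7
    linarith
  · refine le_of_forall_pos_le_add fun ε hε => ?_
    rw [zero_add]
    refine liminf_le_of_frequently_le ?_ ?_
    · rw [frequently_atTop]
      intro N
      obtain ⟨N1, hN1⟩ := hcl (ε / 2) (by positivity)
      obtain ⟨t, ht, hts⟩ := hsm (ε / 2) (by positivity) (N + N1 + 2 * m + 1)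
      refine ⟨t, by omega, ?_⟩
      have h1 := (abs_lt.1 (hN1 t (by omega))).2
      obtain ⟨h4, h5⟩ := hκ1 t (by omega)
      have hκ0 : 0 ≤ κ t := hc0.le.trans h4
      nlinarith
    · exact isBoundedUnder_of ⟨-C', fun t => (abs_le.1 (hC' _)).1⟩
  · refine le_of_forall_pos_sub_le fun ε hε => ?_
    refine le_liminf_of_le ?_ ?_
    · exact (isBoundedUnder_of ⟨C', fun t => (abs_le.1 (hC' _)).2⟩ :
        IsBoundedUnder (· ≤ ·) atTop (quo l a b m ρ)).isCoboundedUnder_ge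
    · obtain ⟨N1, hN1⟩ := hcl (ε / 2) (by positivity)
      obtain ⟨N2, hN2⟩ := hlow (ε / 2) (by positivity)
      filter_upwards [eventually_ge_atTop (N1 + N2 + 2 * m + 1)] with t ht
      have h1 := (abs_lt.1 (hN1 t (by omega))).1
      have h2 := hN2 t (by omega)
      obtain ⟨h4, h5⟩ := hκ1 t (by omega)
      have hκ0 : 0 ≤ κ t := hc0.le.trans h4
      nlinarith

/-- A doubly critical recurrence is critical. -/
theorem critical_of_doubly (l : Rec) (h : DoublyCritical l) : Critical l := by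
  obtain ⟨ρ, m, h⟩ := h
  obtain ⟨_, _, _, _, _, _, h1⟩ := h 1 le_rfl
  refine ⟨ρ, m, h1.rpos, h1.mpos, fun q hq => ?_⟩
  obtain ⟨a, b, φ, ψ, hb, hqb, hD⟩ := h q hq
  obtain ⟨Cφ, hCφ0, hCφ⟩ := trig_bdd hD.trig1
  obtain ⟨Cψ, hCψ0, hCψ⟩ := trig_bdd hD.trig2
  refine ⟨a, b, hb, hqb, crit_cond l ρ m a b φ hb Cφ hCφ ?_ ?_ ?_ ?_⟩
  · intro ε hε
    obtain ⟨C, N, hC⟩ := hD.asym
    obtain ⟨M, hM⟩ := exists_nat_gt ((|C| + Cψ) / ε)
    refine ⟨N + M + 1, fun t ht => ?_⟩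
    have h2 := hC t (by omega)
    have hidx : t ≤ a + b * t := by
      have : t ≤ b * t := Nat.le_mul_of_pos_left _ hb
      omega
    unfold quo
    set n := a + b * t with hn
    have hρ := hD.rpos
    have hn1 : (1 : ℝ) ≤ (n : ℝ) + 1 := by
      have : (0 : ℝ) ≤ n := Nat.cast_nonneg n
      linarith
    have hn0 : (0 : ℝ) < (n : ℝ) + 1 := by linarith
    have hρn : 0 < ρ ^ n := pow_pos hρ n
    have hpos : 0 < ρ ^ n * ((n : ℝ) + 1) ^ m := by positivity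
    have h3 : |(seq l n : ℝ) / (ρ ^ n * ((n : ℝ) + 1) ^ m) -
        (n.choose m : ℝ) / ((n : ℝ) + 1) ^ m * φ t -
        (n.choose (m - 1) : ℝ) / ((n : ℝ) + 1) ^ m * ψ t| ≤ |C| / ((n : ℝ) + 1) ^ 2 := by
      have e : (seq l n : ℝ) / (ρ ^ n * ((n : ℝ) + 1) ^ m) -
        (n.choose m : ℝ) / ((n : ℝ) + 1) ^ m * φ t -
        (n.choose (m - 1) : ℝ) / ((n : ℝ) + 1) ^ m * ψ t = ((seq l n : ℝ) - ρ ^ n *
          ((n.choose m : ℝ) * φ t + (n.choose (m - 1) : ℝ) * ψ t)) /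
            (ρ ^ n * ((n : ℝ) + 1) ^ m) := by
        field_simp
        ring
      rw [e, abs_div, abs_of_pos hpos, div_le_iff₀ hpos]
      refine h2.trans ?_
      calc C * (ρ ^ n * (((n : ℝ) + 1) ^ m / ((n : ℝ) + 1) ^ 2))
          ≤ |C| * (ρ ^ n * (((n : ℝ) + 1) ^ m / ((n : ℝ) + 1) ^ 2)) :=
            mul_le_mul_of_nonneg_right (le_abs_self C) (by positivity)
        _ = _ := by ring
    have h4 : |(n.choose (m - 1) : ℝ) / ((n : ℝ) + 1) ^ m * ψ t| ≤ Cψ / ((n : ℝ) + 1) := by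
      rw [abs_mul, abs_of_nonneg (by positivity)]
      have h5 : (n.choose (m - 1) : ℝ) / ((n : ℝ) + 1) ^ m ≤ 1 / ((n : ℝ) + 1) := by
        rw [div_le_div_iff₀ (by positivity) hn0, one_mul]
        have h6 := choose_le_pow' n (m - 1)
        calc (n.choose (m - 1) : ℝ) * ((n : ℝ) + 1) ≤ ((n : ℝ) + 1) ^ (m - 1) * ((n : ℝ) + 1) :=
              mul_le_mul_of_nonneg_right h6 hn0.le
          _ = ((n : ℝ) + 1) ^ m := by
              rw [← pow_succ, Nat.sub_add_cancel hD.mpos]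
      calc (n.choose (m - 1) : ℝ) / ((n : ℝ) + 1) ^ m * |ψ t| ≤ 1 / ((n : ℝ) + 1) * Cψ :=
            mul_le_mul h5 (hCψ t) (abs_nonneg _) (by positivity)
        _ = _ := by ring
    have h7 : |C| / ((n : ℝ) + 1) ^ 2 ≤ |C| / ((n : ℝ) + 1) := by
      refine div_le_div_of_nonneg_left (abs_nonneg C) hn0 ?_
      nlinarith
    have h8 : (|C| + Cψ) / ((n : ℝ) + 1) < ε := by
      rw [div_lt_iff₀ hn0]
      rw [div_lt_iff₀ hε] at hM
      have h9 : (M : ℝ) ≤ (n : ℝ) := by exact_mod_cast (by omega : M ≤ n)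
      nlinarith
    have h10 := abs_sub_abs_le_abs_sub ((seq l n : ℝ) / (ρ ^ n * ((n : ℝ) + 1) ^ m) -
        (n.choose m : ℝ) / ((n : ℝ) + 1) ^ m * φ t)
        ((n.choose (m - 1) : ℝ) / ((n : ℝ) + 1) ^ m * ψ t)
    have h11 : |C| / ((n : ℝ) + 1) + Cψ / ((n : ℝ) + 1) = (|C| + Cψ) / ((n : ℝ) + 1) := by ring
    linarith
  · exact fun ε hε => ⟨0, fun t _ => lt_of_lt_of_le (by linarith) (hD.nonneg t)⟩
  · intro ε hε N
    obtain ⟨t, ht, h2, -⟩ := hD.small ε hε N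
    exact ⟨t, ht, h2⟩
  · obtain ⟨t0, ht0⟩ := hD.nonzero
    exact trig_return hD.trig1 t0 ht0

end Pool.Agent.J4H65.RO
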