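import Pool.Agent.J4H65.RO.Pos2

/-!
# Doubly critical recurrences
-/

set_option autoImplicit false

namespace Pool.Agent.J4H65.RO

open Polynomial Filter Topology Pool.Agent.H612.LR Pool.Agent.J4H65.UP

/-- A real trigonometric sum: `f t = Re ∑ c_i x_i^t` with `|x_i| = 1`. -/
def Trig (f : ℕ → ℝ) : Prop := ∃ (N : ℕ) (c x : ℕ → ℂ), (∀ i < N, ‖x i‖ = 1) ∧
  ∀ t, f t = (∑ i ∈ Finset.range N, c i * x i ^ t).re

/-- Along the progression `n = a + b t` we have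
`u_n = ρ^n (C(n,m) φ(t) + C(n,m-1) ψ(t) + O(n^(m-2)))` with trigonometric sums `φ ≥ 0` and `ψ`,
`φ ≠ 0`; the sum `ψ` is nearly nonnegative where `φ` is small; `φ` and `|ψ|` are simultaneously
arbitrarily small infinitely often; and if `m = 1` then no sum `ψ + C φ` is nonnegative from some
place on. -/
structure DCAt (l : Rec) (ρ : ℝ) (m a b : ℕ) (φ ψ : ℕ → ℝ) : Prop where
  rpos : 0 < ρ
  mpos : 1 ≤ m
  trig1 : Trig φ
  trig2 : Trig ψ
  asym : ∃ (C : ℝ) (N : ℕ), ∀ t, N ≤ t → |(seq l (a + b * t) : ℝ) - ρ ^ (a + b * t) *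
    (((a + b * t).choose m : ℝ) * φ t + ((a + b * t).choose (m - 1) : ℝ) * ψ t)| ≤
      C * (ρ ^ (a + b * t) * ((((a + b * t : ℕ) : ℝ) + 1) ^ m / (((a + b * t : ℕ) : ℝ) + 1) ^ 2))
  nonneg : ∀ t, 0 ≤ φ t
  nonzero : ∃ t, φ t ≠ 0
  above : ∀ ε : ℝ, 0 < ε → ∃ δ : ℝ, 0 < δ ∧ ∃ N, ∀ t, N ≤ t → φ t < δ → -ε < ψ t
  small : ∀ ε : ℝ, 0 < ε → ∀ N : ℕ, ∃ t, N ≤ t ∧ φ t < ε ∧ |ψ t| < ε
  neg : m = 1 → ∀ (C : ℝ) (N : ℕ), ∃ t, N ≤ t ∧ ψ t + C * φ t < 0

/-- The recurrence is doubly critical: there are `ρ` and `m` such that for every `q ≥ 1` there are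
`φ`, `ψ` and an arithmetic progression with a difference divisible by `q` with the properties of
`DCAt`. -/
def DoublyCritical (l : Rec) : Prop := ∃ (ρ : ℝ) (m : ℕ), ∀ q : ℕ, 1 ≤ q →
  ∃ (a b : ℕ) (φ ψ : ℕ → ℝ), 1 ≤ b ∧ q ∣ b ∧ DCAt l ρ m a b φ ψ

theorem trig_of (D : Finset ℕ) (c g : ℕ → ℂ) (m q : ℕ) (hg : ∀ i ∈ D, ‖g i‖ = 1) :
    Trig fun t => (∑ i ∈ D, c i * g i ^ (m + q * t)).re := by
  classical
  refine ⟨D.sup (id : ℕ → ℕ) + 1, fun i => if i ∈ D then c i * g i ^ m else 0,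
    fun i => if i ∈ D then g i ^ q else 1, fun i _ => ?_, fun t => ?_⟩
  · by_cases h : i ∈ D
    · simp only [h, if_true]
      rw [norm_pow, hg i h, one_pow]
    · simp only [h, if_false]
      exact norm_one
  · have hsub : D ⊆ Finset.range (D.sup (id : ℕ → ℕ) + 1) := by
      intro i hi
      have h1 : i ≤ D.sup (id : ℕ → ℕ) := Finset.le_sup (f := (id : ℕ → ℕ)) hi
      exact Finset.mem_range.2 (Nat.lt_succ_of_le h1)
    have key : ∑ i ∈ D, (if i ∈ D then c i * g i ^ m else 0) * (if i ∈ D then g i ^ q else 1) ^ t =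
        ∑ i ∈ Finset.range (D.sup (id : ℕ → ℕ) + 1),
          (if i ∈ D then c i * g i ^ m else 0) * (if i ∈ D then g i ^ q else 1) ^ t := by
      refine Finset.sum_subset hsub fun i _ hi => ?_
      simp only [hi, if_false]
      rw [zero_mul]
    show (∑ i ∈ D, c i * g i ^ (m + q * t)).re =
      (∑ i ∈ Finset.range (D.sup (id : ℕ → ℕ) + 1),
          (if i ∈ D then c i * g i ^ m else 0) * (if i ∈ D then g i ^ q else 1) ^ t).re
    rw [← key]
    congr 1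
    refine Finset.sum_congr rfl fun i hi => ?_
    simp only [hi, if_true]
    rw [pow_add, pow_mul]
    ring

section

variable {l : Rec} {d : CD}

/-- the asymptotics of the second order -/
theorem est2 (hrep : Rep l d.lam d.c) (h : Cls l d) (hJ0 : 0 < d.J) :
    ∃ (C : ℝ) (N : ℕ), ∀ t, N ≤ t → |(seq l (d.m + d.q * t) : ℝ) - d.ρ ^ (d.m + d.q * t) *
      (((d.m + d.q * t).choose d.J : ℝ) * (dpart l.length d t).re +
        ((d.m + d.q * t).choose (d.J - 1) : ℝ) * (dpart2 l.length d t).re)| ≤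
      C * (d.ρ ^ (d.m + d.q * t) *
        ((((d.m + d.q * t : ℕ) : ℝ) + 1) ^ d.J / (((d.m + d.q * t : ℕ) : ℝ) + 1) ^ 2)) := by
  have hρ := h.rpos
  obtain ⟨A, μ, hA, hμ0, hμρ, hW⟩ := wbound h.lev hρ
  obtain ⟨N2, hN2⟩ := Pool.Agent.TH286.GT.CLD.poly_exp (l.length + 2) d.m d.q (A * μ ^ d.m)
    (μ ^ d.q) (d.ρ ^ d.q) (by positivity) (pow_lt_pow_left₀ hμρ hμ0 (by have := h.lev.q1; omega))
  refine ⟨∑ i ∈ d.S l.length 1, ∑ j ∈ Finset.range (d.J - 1), ‖d.c i j‖ + 1 / d.ρ ^ d.m,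
    N2 + l.length, fun t ht => ?_⟩
  have h4 := seq_re hrep h.lev h.jlt t (by omega)
  have h3 := hN2 t (by omega)
  have hidx := le_idx h.lev t
  set n := d.m + d.q * t with hn
  rw [top_split hρ l.length d.J n] at h4
  have e0 := top_split (d := d) hρ l.length (d.J - 1) n
  rw [Nat.sub_add_cancel hJ0] at e0
  rw [e0] at h4
  have e1 : ∑ i ∈ d.S l.length 1, d.c i d.J * (d.lam i / (d.ρ : ℂ)) ^ n =
      dpart l.length d t := rfl
  have e2 : ∑ i ∈ d.S l.length 1, d.c i (d.J - 1) * (d.lam i / (d.ρ : ℂ)) ^ n =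
      dpart2 l.length d t := rfl
  rw [e1, e2, Complex.add_re, Complex.add_re, Complex.add_re, Complex.re_ofReal_mul,
    Complex.re_ofReal_mul] at h4
  have hn1 : (1 : ℝ) ≤ (n : ℝ) + 1 := by
    have : (0 : ℝ) ≤ n := Nat.cast_nonneg n
    linarith
  have hn0 : (0 : ℝ) < (n : ℝ) + 1 := by linarith
  have hρn : 0 < d.ρ ^ n := pow_pos hρ n
  have hq2 : (1 : ℝ) ≤ ((n : ℝ) + 1) ^ d.J := one_le_pow₀ hn1
  -- the lower terms
  have h5 : |(∑ i ∈ d.S l.length 1, ∑ j ∈ Finset.range (d.J - 1),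
      d.c i j * (n.choose j : ℂ) * d.lam i ^ n).re| ≤
      (∑ i ∈ d.S l.length 1, ∑ j ∈ Finset.range (d.J - 1), ‖d.c i j‖) *
        (d.ρ ^ n * (((n : ℝ) + 1) ^ d.J / ((n : ℝ) + 1) ^ 2)) := by
    refine (Complex.abs_re_le_norm _).trans ((norm_sum_le _ _).trans ?_)
    rw [Finset.sum_mul]
    refine Finset.sum_le_sum fun i hi => (norm_sum_le _ _).trans ?_
    rw [Finset.sum_mul]
    refine Finset.sum_le_sum fun j hj => ?_
    have hj' : j + 2 ≤ d.J := by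
      have := Finset.mem_range.1 hj
      omega
    rw [norm_mul, norm_mul, norm_pow, (mem_S1 h.lev i hi).2.1, Complex.norm_natCast]
    have h6 := choose_le_pow' n j
    have h7 : ((n : ℝ) + 1) ^ j * ((n : ℝ) + 1) ^ 2 ≤ ((n : ℝ) + 1) ^ d.J := by
      rw [← pow_add]
      exact pow_le_pow_right₀ hn1 hj'
    have h8 : (n.choose j : ℝ) ≤ ((n : ℝ) + 1) ^ d.J / ((n : ℝ) + 1) ^ 2 := by
      rw [le_div_iff₀ (by positivity)]
      exact (mul_le_mul_of_nonneg_right h6 (by positivity)).trans h7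
    calc ‖d.c i j‖ * (n.choose j : ℝ) * d.ρ ^ n
        ≤ ‖d.c i j‖ * (((n : ℝ) + 1) ^ d.J / ((n : ℝ) + 1) ^ 2) * d.ρ ^ n := by gcongr
      _ = _ := by ring
  -- the small roots
  have h9 : |(∑ i ∈ d.S l.length 2, ∑ j ∈ Finset.range l.length,
      d.c i j * (n.choose j : ℂ) * d.lam i ^ n).re| ≤
      1 / d.ρ ^ d.m * (d.ρ ^ n * (((n : ℝ) + 1) ^ d.J / ((n : ℝ) + 1) ^ 2)) := by
    refine ((Complex.abs_re_le_norm _).trans (hW n)).trans ?_
    have h10 : A * (((n : ℝ) + 1) ^ l.length * μ ^ n) * ((n : ℝ) + 1) ^ 2 ≤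
        d.ρ ^ n / d.ρ ^ d.m := by
      have h11 : d.ρ ^ n / d.ρ ^ d.m = (d.ρ ^ d.q) ^ t := by
        rw [hn, pow_add, pow_mul]
        field_simp
      rw [h11]
      refine le_trans (le_of_eq ?_) h3.le
      rw [hn, pow_add μ, pow_mul μ]
      push_cast
      ring
    rw [← le_div_iff₀ (by positivity)] at h10
    refine h10.trans ?_
    have h12 : d.ρ ^ n / d.ρ ^ d.m / ((n : ℝ) + 1) ^ 2 =
        1 / d.ρ ^ d.m * (d.ρ ^ n * (1 / ((n : ℝ) + 1) ^ 2)) := by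
      field_simp
    rw [h12]
    gcongr
  have h13 : (seq l n : ℝ) - d.ρ ^ n * ((n.choose d.J : ℝ) * (dpart l.length d t).re +
      (n.choose (d.J - 1) : ℝ) * (dpart2 l.length d t).re) =
      (∑ i ∈ d.S l.length 1, ∑ j ∈ Finset.range (d.J - 1),
        d.c i j * (n.choose j : ℂ) * d.lam i ^ n).re +
      (∑ i ∈ d.S l.length 2, ∑ j ∈ Finset.range l.length,
        d.c i j * (n.choose j : ℂ) * d.lam i ^ n).re := by
    rw [h4]
    ring
  rw [h13, add_mul]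
  exact (abs_add_le _ _).trans (add_le_add h5 h9)

/-- no certificate: the second part is nonnegative at the zeros of the first part -/
def NoCert (l : Rec) (d : CD) : Prop := ∀ z : ℕ → ℂ,
  (∀ ε : ℝ, 0 < ε → ∀ T : ℕ, ∃ t, T ≤ t ∧ ∀ i ∈ d.S l.length 1,
    ‖(d.lam i / (d.ρ : ℂ)) ^ (d.m + d.q * t) - z i‖ < ε) →
  (∑ i ∈ d.S l.length 1, d.c i d.J * z i).re ≤ 0 →
    0 ≤ (∑ i ∈ d.S l.length 1, d.c i (d.J - 1) * z i).re

/-- compactness -/
theorem above_of_noCert (hlev : d.Lev l) (hρ : 0 < d.ρ) (hno : NoCert l d) (ε : ℝ) (hε : 0 < ε) :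
    ∃ δ : ℝ, 0 < δ ∧ ∃ N, ∀ t, N ≤ t → (dpart l.length d t).re < δ →
      -ε < (dpart2 l.length d t).re := by
  classical
  by_contra hcon
  push Not at hcon
  have hseq : ∀ n : ℕ, ∃ t, n ≤ t ∧ (dpart l.length d t).re < 1 / ((n : ℝ) + 1) ∧
      (dpart2 l.length d t).re ≤ -ε := fun n => hcon (1 / ((n : ℝ) + 1)) (by positivity) n
  choose u hu1 hu2 hu3 using hseq
  set k := l.length with hk
  set γ : ℕ → ℂ := fun i => d.lam i / (d.ρ : ℂ) with hγ
  set X : ℕ → (Fin k → ℂ) := fun n j => if (j : ℕ) ∈ d.S k 1 then γ j ^ (d.m + d.q * u n) else 1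
    with hX
  have hmem : ∀ n, X n ∈ Set.pi Set.univ (fun _ : Fin k => Metric.sphere (0 : ℂ) 1) := by
    intro n j _
    rw [mem_sphere_zero_iff_norm]
    show ‖if (j : ℕ) ∈ d.S k 1 then γ j ^ (d.m + d.q * u n) else 1‖ = 1
    by_cases hj : (j : ℕ) ∈ d.S k 1
    · rw [if_pos hj, norm_pow, unit_S1 hlev hρ j hj, one_pow]
    · rw [if_neg hj, norm_one]
  obtain ⟨w, hw, θ, hθ, hlim⟩ := (isCompact_univ_pi fun _ : Fin k =>
    isCompact_sphere (0 : ℂ) 1).tendsto_subseq hmem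
  set z : ℕ → ℂ := fun j => if h : j < k then w ⟨j, h⟩ else 1 with hz
  have hlimj : ∀ i ∈ d.S k 1, Tendsto (fun n => γ i ^ (d.m + d.q * u (θ n))) atTop (𝓝 (z i)) := by
    intro i hi
    have hik : i < k := (mem_S1 hlev i hi).1
    have h1 := (tendsto_pi_nhds.1 hlim) ⟨i, hik⟩
    have h2 : z i = w ⟨i, hik⟩ := by
      simp only [hz]
      rw [dif_pos hik]
    rw [h2]
    refine h1.congr fun n => ?_
    show (if i ∈ d.S k 1 then γ i ^ (d.m + d.q * u (θ n)) else 1) = _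
    rw [if_pos hi]
  have hsum : ∀ j, Tendsto (fun n => (∑ i ∈ d.S k 1, d.c i j * γ i ^ (d.m + d.q * u (θ n))).re)
      atTop (𝓝 (∑ i ∈ d.S k 1, d.c i j * z i).re) := by
    intro j
    refine (Complex.continuous_re.tendsto _).comp ?_
    exact tendsto_finsetSum _ fun i hi => (hlimj i hi).const_mul _
  have h1 : (∑ i ∈ d.S k 1, d.c i d.J * z i).re ≤ 0 := by
    refine le_of_tendsto_of_tendsto' (hsum d.J)
      ((tendsto_one_div_add_atTop_nhds_zero_nat (𝕜 := ℝ)).comp hθ.tendsto_atTop) fun n => ?_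
    exact (hu2 (θ n)).le
  have h2 : (∑ i ∈ d.S k 1, d.c i (d.J - 1) * z i).re ≤ -ε :=
    le_of_tendsto' (hsum (d.J - 1)) fun n => hu3 (θ n)
  have h3 := hno z (fun ε' hε' T => by
    have : ∀ i ∈ d.S k 1, ∃ N, ∀ n, N ≤ n → ‖γ i ^ (d.m + d.q * u (θ n)) - z i‖ < ε' := by
      intro i hi
      obtain ⟨N, hN⟩ := (Metric.tendsto_atTop.1 (hlimj i hi)) ε' hε'
      exact ⟨N, fun n hn => by
        have := hN n hn
        rwa [dist_eq_norm] at this⟩
    choose! N hN using this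
    refine ⟨u (θ (T + ∑ i ∈ d.S k 1, N i)), ?_, fun i hi => ?_⟩
    · have h4 : T + ∑ i ∈ d.S k 1, N i ≤ θ (T + ∑ i ∈ d.S k 1, N i) := hθ.id_le _
      have h5 := hu1 (θ (T + ∑ i ∈ d.S k 1, N i))
      omega
    · refine hN i hi _ ?_
      have : N i ≤ ∑ i ∈ d.S k 1, N i := Finset.single_le_sum (fun _ _ => Nat.zero_le _) hi
      omega) h1
  linarith

/-- a class without certificates -/
theorem sub_main (hG : GrowthTheorem) (hrep : Rep l d.lam d.c) (h : Cls l d) (hJ0 : 0 < d.J)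
    (halg : ∀ i < l.length, IsAlgebraic ℚ (d.c i d.J))
    (hlalg : ∀ i ∈ d.S l.length 1, IsAlgebraic ℚ (d.lam i))
    (htor : ∀ i ∈ d.S l.length 1, ∀ i' ∈ d.S l.length 1, ∀ t : ℕ, 1 ≤ t →
      d.lam i ^ (d.q * t) = d.lam i' ^ (d.q * t) → d.lam i ^ d.q = d.lam i' ^ d.q)
    (hnn : ∀ t, 0 ≤ (dpart l.length d t).re) (hno : NoCert l d) :
    (∃ N, ∀ t, N ≤ t → 0 < seq l (d.m + d.q * t)) ∨
      DCAt l d.ρ d.J d.m d.q (fun t => (dpart l.length d t).re)
        (fun t => (dpart2 l.length d t).re) := by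
  have habove := above_of_noCert h.lev h.rpos hno
  by_cases hA : ∃ ε : ℝ, 0 < ε ∧ ∃ N, ∀ t, N ≤ t → (dpart l.length d t).re < ε →
      ε ≤ (dpart2 l.length d t).re
  · obtain ⟨ε, hε, hyp⟩ := hA
    exact Or.inl (pos_second hrep h hJ0 hnn ε hε hyp)
  by_cases hB : d.J = 1 ∧ ∃ (C : ℝ) (N : ℕ), ∀ t, N ≤ t →
      0 ≤ (dpart2 l.length d t).re + C * (dpart l.length d t).re
  · obtain ⟨hJ1, C, hyp⟩ := hB
    exact Or.inl (pos_first hG hrep h hJ1 halg hlalg htor hnn C hyp)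
  right
  push Not at hA hB
  refine ⟨h.rpos, hJ0, trig_of _ _ _ _ _ (unit_S1 h.lev h.rpos),
    trig_of _ _ _ _ _ (unit_S1 h.lev h.rpos), est2 hrep h hJ0, hnn, ?_, habove, ?_, ?_⟩
  · by_contra hcon
    push Not at hcon
    apply dpart_not_tendsto l d h
    refine (tendsto_const_nhds (x := (0 : ℂ))).congr fun t => ?_
    apply Complex.ext
    · rw [Complex.zero_re]
      exact (hcon t).symm
    · rw [dpart_im l d hrep h.lev h.jlt h.rpos t, Complex.zero_im]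
  · intro ε hε N
    obtain ⟨δ, hδ, N', hN'⟩ := habove ε hε
    obtain ⟨t, ht, h1, h2⟩ := hA (min ε δ) (lt_min hε hδ) (N + N')
    refine ⟨t, by omega, lt_of_lt_of_le h1 (min_le_left _ _), ?_⟩
    rw [abs_lt]
    exact ⟨hN' t (by omega) (lt_of_lt_of_le h1 (min_le_right _ _)),
      lt_of_lt_of_le h2 (min_le_left _ _)⟩
  · intro hJ1 C N
    exact hB hJ1 C N

/-- subclasses -/
theorem cls_sub (h : Cls l d)
    (htor : ∀ i ∈ d.S l.length 1, ∀ i' ∈ d.S l.length 1, ∀ t : ℕ, 1 ≤ t →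
      d.lam i ^ (d.q * t) = d.lam i' ^ (d.q * t) → d.lam i ^ d.q = d.lam i' ^ d.q)
    (r q : ℕ) (hq : 1 ≤ q) : Cls l { d with m := d.m + d.q * r, q := d.q * q } := by
  have h1 := lev_shift h.lev r
  have hlev' : CD.Lev { d with m := d.m + d.q * r, q := d.q * q } l := by
    refine ⟨h.lev.rho, Nat.mul_pos h.lev.q1 hq, h.lev.flag, fun i hi => ?_, h1.can0, h1.can1⟩
    refine ⟨(h.lev.cls i hi).1, ?_⟩
    show d.lam i ^ (d.q * q) = d.lam (d.κ i) ^ (d.q * q)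
    rw [pow_mul, pow_mul, (h.lev.cls i hi).2]
  refine ⟨hlev', h.jlt, h.rpos, ?_, ?_⟩
  · intro i hi i' hi' heq
    exact h.sep i hi i' hi' (htor i hi i' hi' q hq heq)
  · obtain ⟨s, hs⟩ := h.act
    refine ⟨s, ?_⟩
    show ∑ i ∈ (d.S l.length 1).filter (fun i => d.κ i = s),
      d.c i d.J * d.lam i ^ (d.m + d.q * r) ≠ 0
    have e : ∑ i ∈ (d.S l.length 1).filter (fun i => d.κ i = s),
        d.c i d.J * d.lam i ^ (d.m + d.q * r) =
        (∑ i ∈ (d.S l.length 1).filter (fun i => d.κ i = s), d.c i d.J * d.lam i ^ d.m) *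
          (d.lam s ^ d.q) ^ r := by
      rw [Finset.sum_mul]
      refine Finset.sum_congr rfl fun i hi => ?_
      obtain ⟨hi1, hi2⟩ := Finset.mem_filter.1 hi
      have h2 := (h.lev.cls i (mem_S1 h.lev i hi1).1).2
      rw [hi2] at h2
      rw [pow_add, pow_mul, h2]
      ring
    rw [e]
    refine mul_ne_zero hs (pow_ne_zero _ (pow_ne_zero _ ?_))
    obtain ⟨i, hi, -⟩ := Finset.exists_ne_zero_of_sum_ne_zero hs
    obtain ⟨hi1, hi2⟩ := Finset.mem_filter.1 hi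
    intro h0
    have h2 := (h.lev.cls i (mem_S1 h.lev i hi1).1).2
    rw [hi2, h0, zero_pow (by have := h.lev.q1; omega)] at h2
    have h3 : d.lam i = 0 := by
      by_contra hne
      exact pow_ne_zero _ hne h2
    have h4 := (mem_S1 h.lev i hi1).2.1
    rw [h3, norm_zero] at h4
    exact h.rpos.ne h4

/-- data of a doubly critical recurrence: residue classes without positivity -/
def DCData (l : Rec) : Prop := ∃ (ρ : ℝ) (m : ℕ), ∀ q : ℕ, 1 ≤ q → ∃ d : CD, 1 ≤ d.q ∧ q ∣ d.q ∧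
  d.ρ = ρ ∧ d.J = m ∧ Rep l d.lam d.c ∧ Cls l d ∧
  DCAt l ρ m d.m d.q (fun t => (dpart l.length d t).re) (fun t => (dpart2 l.length d t).re)

theorem doubly_of_data {l : Rec} (h : DCData l) : DoublyCritical l := by
  obtain ⟨ρ, m, h⟩ := h
  refine ⟨ρ, m, fun q hq => ?_⟩
  obtain ⟨d, h1, h2, -, -, -, -, h3⟩ := h q hq
  exact ⟨_, _, _, _, h1, h2, h3⟩

/-- A class without certificates: positivity, or the recurrence is doubly critical. -/
theorem class_main (hG : GrowthTheorem) (hrep : Rep l d.lam d.c) (h : Cls l d) (hJ0 : 0 < d.J)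
    (halg : ∀ i < l.length, IsAlgebraic ℚ (d.c i d.J))
    (hlalg : ∀ i ∈ d.S l.length 1, IsAlgebraic ℚ (d.lam i))
    (htor : ∀ i ∈ d.S l.length 1, ∀ i' ∈ d.S l.length 1, ∀ t : ℕ, 1 ≤ t →
      d.lam i ^ (d.q * t) = d.lam i' ^ (d.q * t) → d.lam i ^ d.q = d.lam i' ^ d.q)
    (hnn : ∀ t, 0 ≤ (dpart l.length d t).re) (hno : NoCert l d) :
    (∃ N, ∀ t, N ≤ t → 0 < seq l (d.m + d.q * t)) ∨ DCData l := by
  by_cases hdc : ∀ q : ℕ, 1 ≤ q → ∃ d' : CD, 1 ≤ d'.q ∧ q ∣ d'.q ∧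
      d'.ρ = d.ρ ∧ d'.J = d.J ∧ Rep l d'.lam d'.c ∧ Cls l d' ∧
      DCAt l d.ρ d.J d'.m d'.q (fun t => (dpart l.length d' t).re)
        (fun t => (dpart2 l.length d' t).re)
  · exact Or.inr ⟨d.ρ, d.J, hdc⟩
  left
  push Not at hdc
  obtain ⟨q, hq, hdc⟩ := hdc
  have hidx : ∀ r t : ℕ, d.m + d.q * r + d.q * q * t = d.m + d.q * (r + q * t) := fun r t => by
    ring
  have hcls : ∀ r, ∃ N, ∀ t, N ≤ t → 0 < seq l (d.m + d.q * (r + q * t)) := by
    intro r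
    have h' := cls_sub h htor r q hq
    have hs := sub_main (d := { d with m := d.m + d.q * r, q := d.q * q }) hG hrep h' hJ0 halg
      hlalg ?_ ?_ ?_
    · rcases hs with ⟨N, hN⟩ | hD
      · refine ⟨N, fun t ht => ?_⟩
        rw [← hidx]
        exact hN t ht
      · exact absurd hD (hdc { d with m := d.m + d.q * r, q := d.q * q }
          (Nat.mul_pos h.lev.q1 hq) (Dvd.intro_left _ rfl) rfl rfl hrep h')
    · intro i hi i' hi' t ht heq
      have h1 : d.lam i ^ (d.q * (q * t)) = d.lam i' ^ (d.q * (q * t)) := by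
        rw [← mul_assoc]
        exact heq
      have h2 := htor i hi i' hi' (q * t) (Nat.mul_pos hq ht) h1
      show d.lam i ^ (d.q * q) = d.lam i' ^ (d.q * q)
      rw [pow_mul, pow_mul, h2]
    · intro t
      have h1 := hnn (r + q * t)
      unfold dpart at h1 ⊢
      show 0 ≤ (∑ i ∈ d.S l.length 1, d.c i d.J *
        (d.lam i / (d.ρ : ℂ)) ^ (d.m + d.q * r + d.q * q * t)).re
      rw [hidx]
      exact h1
    · intro z hz hle
      refine hno z (fun ε hε T => ?_) hle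
      obtain ⟨t, ht, h1⟩ := hz ε hε T
      refine ⟨r + q * t, ?_, fun i hi => ?_⟩
      · have : t ≤ q * t := Nat.le_mul_of_pos_left _ hq
        omega
      · have h2 := h1 i hi
        rw [← hidx]
        exact h2
  choose B hB using hcls
  refine ⟨q * ∑ r ∈ Finset.range q, B r, fun t ht => ?_⟩
  have h1 : t % q < q := Nat.mod_lt _ hq
  have h2 : ∑ r ∈ Finset.range q, B r ≤ t / q := (Nat.le_div_iff_mul_le hq).2 (by
    rw [mul_comm]; exact ht)
  have h3 : B (t % q) ≤ ∑ r ∈ Finset.range q, B r :=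
    Finset.single_le_sum (fun _ _ => Nat.zero_le _) (Finset.mem_range.2 h1)
  have h4 := hB (t % q) (t / q) (h3.trans h2)
  rwa [Nat.mod_add_div] at h4

end

end Pool.Agent.J4H65.RO
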