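import Pool.Agent.H612.LR.T_HLD
import Pool.Agent.H612.LR.T_SUR
import Pool.Agent.H612.LR.T_PLY

/-!
# The existential formula of the second order
-/

set_option autoImplicit false

namespace Pool.Agent.J4H65.RO

open Pool.Agent.NPC Pool.Agent.NPC.ER Pool.Agent.NPC.H612 Pool.Agent.H612.PG Pool.Agent.H612.LR
open Pool.Agent.H612.LR.HLDaux

/-- The certificate is correct: the dominant part vanishes or is negative at the point, and the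
part of the second order is negative. -/
structure Good2 (d : CD) (l : Rec) (Nb N0 : ℕ) : Prop where
  rep : RepF l d.lam d.c (2 * l.length + l.length ^ 2)
  jlt : d.J < l.length
  jpos : 0 < d.J
  mlt : d.m < 2 ^ Nb
  qlt : d.q < 2 ^ Nb
  plt : ∀ i < l.length, d.P i < 2 ^ Nb
  alt : ∀ j < l.length, ∀ i < l.length, d.a j i < 2 ^ Nb
  blt : ∀ j < l.length, ∀ i < l.length, d.b j i < 2 ^ Nb
  lev : d.Lev l
  rpos : 0 < d.ρ
  chain : Chain l.length d.q N0 (d.S l.length 1) (fun i => d.lam i / (d.ρ : ℂ)) d.P d.a d.b d.ζ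
    d.ξ d.h
  xc : ∀ j < l.length, ‖d.x j‖ = 1 ∧ (d.ξ j = 1 → d.x j = 1)
  le : (∑ i ∈ d.S l.length 1, d.c i d.J * d.z l.length i).re ≤ 0
  neg : (∑ i ∈ d.S l.length 1, d.c i (d.J - 1) * d.z l.length i).re < 0

/-- There is a certificate of the second order. -/
def Cert2 (l : Rec) (Nb N0 : ℕ) : Prop := ∃ d : CD, Good2 d l Nb N0

/-- the value of degree `J` is at most zero -/
def n6 (k J : ℕ) : Fm :=
  Fm.le (csum k fun i => cmul (creal (FT i 1)) (cmul (cC i J) (ZC i k))).1 Tm.zero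

def negF2 (k Nb N0 J : ℕ) : Fm := Fm.and (Fm.and (n1 k Nb) (n2 k Nb))
  (Fm.and (allR k fun i => Fm.or (Fm.eq (FT i 1) Tm.zero) (n3 k Nb N0 i))
    (Fm.and (n4 k Nb) (Fm.and (n6 k J) (n5 k (J - 1)))))

/-- The formula. -/
def lrFm2 (l : Rec) (Nb N0 : ℕ) : Fm :=
  conj [g1 l, g2 l, g3 l.length, g4 l.length (2 * l.length + l.length ^ 2),
    g5 l.length (2 * l.length + l.length ^ 2), g6 l.length, g7 l.length, g8 l.length Nb,
    g9 l.length Nb, g10 Nb, g11 l.length, g12 l.length Nb, g13 l.length Nb,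
    exR l.length fun J => Fm.and (g14 l.length Nb J)
      (Fm.and (Fm.lt Tm.zero rhoT)
        (if 0 < J then negF2 l.length Nb N0 J else Fm.lt Tm.zero Tm.zero))]

/-- The second part of the conditions. -/
structure VGood2 (v : V) (k Nb N0 J : ℕ) : Prop where
  b1 : PowV Nb v.ζ v.q v.s18 ∧ PowV Nb v.ζ v.m v.s19
  b2 : ∀ i < k, PowV Nb v.ζ (v.P i) (v.s20 i) ∧ PowV Nb (v.s19 Nb) (v.P i) (v.s21 i)
  b3 : ∀ i < k, ∀ j < k, (PowV Nb (v.ξ j) (v.a j i) (v.s22 j i) ∧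
    PowV Nb (starRingEnd ℂ (v.ξ j)) (v.b j i) (v.s23 j i)) ∧
    (PowV Nb (v.x j) (v.a j i) (v.s24 j i) ∧
    PowV Nb (starRingEnd ℂ (v.x j)) (v.b j i) (v.s25 j i))
  b4 : v.s18 Nb = 1
  b5 : ∀ j < k, ‖v.ξ j‖ = 1 ∧ ‖v.x j‖ = 1 ∧ (v.ξ j ≠ 1 ∨ v.x j = 1)
  b6 : ∀ i < k, v.F i 1 = 0 ∨ (v.lam i = (v.ρ : ℂ) * (v.s20 i Nb * v.h 0 i) ∧ v.h k i = 1 ∧
    (numV Nb v.q * 2 ^ N0 * ‖v.h 0 i - 1‖) ^ 2 ≤ 1 ∧
    ∀ j < k, v.h j i = v.s22 j i Nb * v.s23 j i Nb * v.h (j + 1) i ∧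
      ((numV Nb (v.a j i) + numV Nb (v.b j i) + 1) * 2 ^ N0 * ‖v.ξ j - 1‖) ^ 2 ≤ 1 ∧
      (2 ^ N0 * ‖v.h (j + 1) i - 1‖) ^ 2 ≤ ‖v.ξ j - 1‖ ^ 2)
  b7 : ∀ i < k, v.Z i 0 = v.s21 i Nb ∧
    ∀ j < k, v.Z i (j + 1) = v.Z i j * (v.s24 j i Nb * v.s25 j i Nb)
  b8 : (∑ i ∈ Finset.range k, ((v.F i 1 : ℝ) : ℂ) * (v.c i J * v.Z i k)).re ≤ 0
  b9 : (∑ i ∈ Finset.range k, ((v.F i 1 : ℝ) : ℂ) * (v.c i (J - 1) * v.Z i k)).re < 0

/-- The conditions. -/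
def VGood (v : V) (l : Rec) (Nb N0 : ℕ) : Prop := v.Good1 l Nb ∧ ∃ J < l.length,
  (∀ s < l.length, ∀ j < l.length, J < j → v.Can l.length Nb 1 s j) ∧
    0 < v.ρ ∧ 0 < J ∧ VGood2 v l.length Nb N0 J

section

variable (x : ℕ → ℝ)

theorem hn6 (k J : ℕ) : (n6 k J).Holds x ↔
    (∑ i ∈ Finset.range k, (((VOf x).F i 1 : ℝ) : ℂ) *
      ((VOf x).c i J * (VOf x).Z i k)).re ≤ 0 := by
  unfold n6
  have h : (csum k fun i => cmul (creal (FT i 1)) (cmul (cC i J) (ZC i k))).1.eval x =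
      (cev x (csum k fun i => cmul (creal (FT i 1)) (cmul (cC i J) (ZC i k)))).re := rfl
  simp only [Fm.Holds]
  rw [h]
  simp only [cev_csum, cev_cmul, cev_creal, Tm.eval]
  rfl

theorem hneg2 (k Nb N0 J : ℕ) : (negF2 k Nb N0 J).Holds x ↔ VGood2 (VOf x) k Nb N0 J := by
  unfold negF2
  simp only [Fm.Holds, holds_allR, hn1, hn2, hn3, hn4, hn5, hn6, Tm.eval]
  constructor
  · rintro ⟨⟨⟨b1, b23⟩, b4, b5⟩, b6, b7, b8, b9⟩
    exact ⟨b1, fun i hi => (b23 i hi).1, fun i hi j hj => (b23 i hi).2 j hj, b4, b5, b6, b7, b8,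
      b9⟩
  · rintro ⟨b1, b2, b3, b4, b5, b6, b7, b8, b9⟩
    exact ⟨⟨⟨b1, fun i hi => ⟨b2 i hi, fun j hj => b3 i hi j hj⟩⟩, b4, b5⟩, b6, b7, b8, b9⟩

theorem htop (k Nb N0 J : ℕ) : (Fm.and (Fm.lt Tm.zero rhoT)
    (if 0 < J then negF2 k Nb N0 J else Fm.lt Tm.zero Tm.zero)).Holds x ↔
      (0 < (VOf x).ρ ∧ 0 < J ∧ VGood2 (VOf x) k Nb N0 J) := by
  by_cases hJ : 0 < J
  · rw [if_pos hJ, Fm.Holds, hneg2]
    constructor
    · rintro ⟨h1, h2⟩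
      exact ⟨h1, hJ, h2⟩
    · rintro ⟨h1, -, h2⟩
      exact ⟨h1, h2⟩
  · rw [if_neg hJ]
    constructor
    · rintro ⟨-, h2⟩
      exact absurd h2 (lt_irrefl _)
    · rintro ⟨-, h2, -⟩
      exact absurd h2 hJ

end

/-- meaning of the formula -/
theorem hld2 (l : Rec) (Nb N0 : ℕ) (x : ℕ → ℝ) :
    (lrFm2 l Nb N0).Holds x ↔ VGood (VOf x) l Nb N0 := by
  unfold lrFm2 VGood
  rw [holds_conj]
  simp only [List.forall_mem_cons, List.not_mem_nil, false_imp_iff, forall_const, and_true,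
    h1, h2, h3, h4, h5, h6, h7, h8, h9, h10, h11, h12, h13, holds_exR]
  have e : ∀ J, (Fm.and (g14 l.length Nb J) (Fm.and (Fm.lt Tm.zero rhoT)
      (if 0 < J then negF2 l.length Nb N0 J else Fm.lt Tm.zero Tm.zero))).Holds x ↔
      ((∀ s < l.length, ∀ j < l.length, J < j → (VOf x).Can l.length Nb 1 s j) ∧
        (0 < (VOf x).ρ ∧ 0 < J ∧ VGood2 (VOf x) l.length Nb N0 J)) := by
    intro J
    rw [Fm.Holds, h14, htop]
  simp only [e]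
  constructor
  · rintro ⟨a1, a2, a3, a4, a5, a6, a7, a8, a9, a10, a11, a12, a13, J, hJ, c1, c2⟩
    exact ⟨⟨a1, a2, a3, a4, a5, a6, a7, a8, a9, a10, a11, a12, a13⟩, J, hJ, c1, c2⟩
  · rintro ⟨⟨a1, a2, a3, a4, a5, a6, a7, a8, a9, a10, a11, a12, a13⟩, J, hJ, c1, c2⟩
    exact ⟨a1, a2, a3, a4, a5, a6, a7, a8, a9, a10, a11, a12, a13, J, hJ, c1, c2⟩

end Pool.Agent.J4H65.RO
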