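import Pool.Agent.J4H65.RO.Vc1
import Pool.Agent.J4H65.RO.Vc2

/-!
# The second formula is computable in polynomial time; its truth is the existence of a certificate
-/

set_option autoImplicit false

namespace Pool.Agent.J4H65.RO

open Pool.Agent.NPC Pool.Agent.NPC.ER Pool.Agent.NPC.H612 Pool.Agent.H612.PG Pool.Agent.H612.LR
open Pool.Agent.NPC.H612.PGP Pool.Agent.NPC.H612.LRP

section

variable {α : Type} [TEnc α]

theorem poly_n6 {k J : α → ℕ} (hk : UPoly k) (hJ : Pool.Agent.NPC.Poly J) :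
    Pool.Agent.NPC.Poly (fun a => n6 (k a) (J a)) := by
  have hk' := hk.toPoly
  unfold n6
  refine poly_fle (Pool.Agent.NPC.Poly.fst (poly_csum hk (poly_cmul (poly_creal (poly_FT' pl (Pool.Agent.NPC.Poly.const _)))
    (poly_cmul (poly_cC pl (up hJ)) (poly_ZC pl (up hk')))))) (Pool.Agent.NPC.Poly.const _)

theorem poly_negF2 {k Nb N0 J : α → ℕ} (hk : UPoly k) (hNb : UPoly Nb) (hN0 : UPoly N0)
    (hJ : Pool.Agent.NPC.Poly J) :
    Pool.Agent.NPC.Poly (fun a => negF2 (k a) (Nb a) (N0 a) (J a)) := by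
  unfold negF2
  exact poly_fand (poly_fand (poly_n1 hk hNb) (poly_n2 hk hNb)) (poly_fand (poly_allR hk
    (poly_for (poly_feq (poly_FT' pl (Pool.Agent.NPC.Poly.const _)) (Pool.Agent.NPC.Poly.const _))
      (poly_n3 (uup hk) (uup hNb) (uup hN0) pl))) (poly_fand (poly_n4 hk hNb)
      (poly_fand (poly_n6 hk hJ) (poly_n5 hk (Pool.Agent.NPC.Poly.sub hJ (Pool.Agent.NPC.Poly.const 1))))))

theorem poly_lrFm2 {l : α → Rec} {Nb N0 : α → ℕ} (hl : Pool.Agent.NPC.Poly l) (hNb : UPoly Nb)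
    (hN0 : UPoly N0) : Pool.Agent.NPC.Poly (fun a => lrFm2 (l a) (Nb a) (N0 a)) := by
  have hk : UPoly (fun a => (l a).length) := UPoly.length hl
  have hR : UPoly (fun a => 2 * (l a).length + (l a).length ^ 2) :=
    UPoly.add (UPoly.mul (UPoly.const 2) hk) (upoly_sq hk)
  unfold lrFm2
  refine poly_conj (Pool.Agent.NPC.Poly.cons (poly_g1 hl) (Pool.Agent.NPC.Poly.cons (poly_g2 hl) (Pool.Agent.NPC.Poly.cons (poly_g3 hk)
    (Pool.Agent.NPC.Poly.cons (poly_g4 hk hR) (Pool.Agent.NPC.Poly.cons (poly_g5 hk hR) (Pool.Agent.NPC.Poly.cons (poly_g6 hk)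
    (Pool.Agent.NPC.Poly.cons (poly_g7 hk) (Pool.Agent.NPC.Poly.cons (poly_g8 hk hNb) (Pool.Agent.NPC.Poly.cons (poly_g9 hk hNb)
    (Pool.Agent.NPC.Poly.cons (poly_g10 hNb) (Pool.Agent.NPC.Poly.cons (poly_g11 hk) (Pool.Agent.NPC.Poly.cons (poly_g12 hk hNb)
    (Pool.Agent.NPC.Poly.cons (poly_g13 hk hNb) (Pool.Agent.NPC.Poly.cons ?_ (Pool.Agent.NPC.Poly.const [])))))))))))))))
  exact poly_exR hk (poly_fand (poly_g14 (uup hk) (uup hNb) pl) (poly_fand (Pool.Agent.NPC.Poly.const _)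
    (Pool.Agent.NPC.Poly.ite (Pool.Agent.NPC.Poly.decide_lt (Pool.Agent.NPC.Poly.const 0) pl) (poly_negF2 (uup hk) (uup hNb) (uup hN0) pl)
      (Pool.Agent.NPC.Poly.const _))))

end

/-- the formula is computable in polynomial time -/
theorem ply2 (A0 A1 : ℕ) : Pool.Agent.NPC.Poly (fun l : Rec => lrFm2 l
    (A1 * Pool.Agent.H612.LR.sz l ^ A1) (A0 * Pool.Agent.H612.LR.sz l ^ A0)) :=
  poly_lrFm2 Pool.Agent.NPC.Poly.id (upoly_pow (upoly_sz Pool.Agent.NPC.Poly.id) A1) (upoly_pow (upoly_sz Pool.Agent.NPC.Poly.id) A0)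

/-- the meaning of the truth of the formula -/
theorem etr2 (l : Rec) (Nb N0 : ℕ) : ETR (lrFm2 l Nb N0) ↔ Cert2 l Nb N0 := by
  constructor
  · rintro ⟨x, hx⟩
    exact vc1 l Nb N0 _ ((hld2 l Nb N0 x).1 hx)
  · intro h
    obtain ⟨v, hv⟩ := vc2 l Nb N0 h
    obtain ⟨x, rfl⟩ := t_SUR v
    exact ⟨x, (hld2 l Nb N0 x).2 hv⟩

end Pool.Agent.J4H65.RO
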