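import Pool.Agent.J4H65.RO.Ord7
import Pool.Agent.J4H65.RO.Cmp2
import Pool.Agent.J4H65.RO.Ply2
import Pool.Agent.J4H65.GP.Main

/-!
# Ultimate positivity in `∀ℝ` outside the doubly critical recurrences: assembly
-/

set_option autoImplicit false

namespace Pool.Agent.J4H65.RO

open Pool.Agent.NPC Pool.Agent.NPC.ER Pool.Agent.NPC.H612 Pool.Agent.H612.PG Pool.Agent.H612.LR
open Polynomial Filter Topology Pool.Agent.J4H65.UP

/-- The typed reduction. -/
theorem main2 : ∃ f : Rec → Fm, Pool.Agent.NPC.Poly f ∧ ∀ l : Rec, l ≠ [] →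
    (ETR (f l) → (RankOne l ∨ ¬ Critical l) → ¬ UltPositive l) ∧
    (¬ ETR (f l) → BanachNull (Npos l) ∧ (UltPositive l ∨ DCData l)) := by
  classical
  obtain ⟨A0, hA0⟩ := gaps_of_cert
  obtain ⟨C, hC⟩ := t_TOR t_TORK
  obtain ⟨A1, hA1⟩ := t_CMP (t_DEC t_DIR) A0 C
  obtain ⟨B0, hB0⟩ := snd2'
  obtain ⟨B1, hB1⟩ := cmp2 B0 C
  refine ⟨fun l => disj [lrFm l (A1 * Pool.Agent.H612.LR.sz l ^ A1)
      (A0 * Pool.Agent.H612.LR.sz l ^ A0), lrFm2 l (B1 * Pool.Agent.H612.LR.sz l ^ B1)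
      (B0 * Pool.Agent.H612.LR.sz l ^ B0)], ?_, fun l hl => ?_⟩
  · exact poly_disj (Pool.Agent.NPC.Poly.cons (t_PLY A0 A1) (Pool.Agent.NPC.Poly.cons (ply2 B0 B1)
      (Pool.Agent.NPC.Poly.const [])))
  have hk : 1 ≤ l.length := List.length_pos_iff.2 hl
  have hiff := etr_iff t_HLD t_SUR t_VC1 t_VC2 l (A1 * Pool.Agent.H612.LR.sz l ^ A1)
    (A0 * Pool.Agent.H612.LR.sz l ^ A0) hk
  rw [etr_disj]
  simp only [List.mem_cons, List.not_mem_nil, or_false, exists_eq_or_imp, exists_eq_left]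
  refine ⟨?_, fun hne => ?_⟩
  · rintro (he | he) hR
    · rintro ⟨N, hN⟩
      obtain ⟨L, hL⟩ := hA0 l _ hk (hiff.1 he)
      obtain ⟨m, hm, hm2, -⟩ := hL N
      exact absurd (hN m hm2) (not_lt.2 hm)
    · exact hB0 l _ hk hR ((etr2 l _ _).1 he)
  push Not at hne
  obtain ⟨hne, hne2⟩ := hne
  obtain ⟨lam, c, hrep, hmul, halg⟩ := t_RPE l hk
  obtain ⟨q0, hq1, hq2, hq3⟩ := hC l hk
  have hroot : ∀ i < l.length, (∃ j < l.length, c i j ≠ 0) → IsRoot l (lam i) := by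
    rintro i hi ⟨j, hj, hne⟩
    rw [t_ROOT l _ hk]
    by_contra hcon
    exact hne (hmul i hi j hj (by rw [Multiset.count_eq_zero.2 hcon]; exact Nat.zero_le _))
  have fin : ∀ d : CD, d.lam = lam → d.c = c → d.q = q0 → d.Pre l → False := by
    intro d e1 e2 e3 e4
    exact hne (hiff.2 (hA1 l d hk (by rw [e1, e2]; exact hrep) e4 (by rw [e3]; exact hq2)))
  -- every residue class
  have cls : ∀ r, BanachNull {t | r + q0 * t ∈ Npos l} ∧
      ((∃ N, ∀ t, N ≤ t → 0 < seq l (r + q0 * t)) ∨ DCData l) := by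
    intro r
    obtain ⟨d, hd1, hd2, hd3, hd4, hd⟩ := class_data l lam c q0 hk hrep hroot hq1 r
    have hrep' : Rep l d.lam d.c := by rw [hd1, hd2]; exact hrep
    rcases hd with ⟨hρ0, hlev, hJ⟩ | h
    · exact (fin d hd1 hd2 hd3 ⟨hlev, hJ, Or.inl hρ0⟩).elim
    have hSr : ∀ i ∈ d.S l.length 1, IsRoot l (d.lam i) ∧ d.lam i ≠ 0 := by
      intro i hi
      unfold CD.S at hi
      rw [Finset.mem_filter, Finset.mem_range] at hi
      rcases h.lev.flag i hi.1 with h1 | ⟨-, -, h1⟩ | ⟨h1, -⟩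
      · omega
      · exact ⟨h1, (hrep' 0).1 i hi.1⟩
      · omega
    have htor : ∀ i ∈ d.S l.length 1, ∀ i' ∈ d.S l.length 1, ∀ t : ℕ, 1 ≤ t →
        d.lam i ^ (d.q * t) = d.lam i' ^ (d.q * t) → d.lam i ^ d.q = d.lam i' ^ d.q := by
      intro i hi i' hi' t ht heq
      rw [hd3] at heq ⊢
      exact hq3 _ _ (hSr i hi).1 (hSr i' hi').1 (hSr i hi).2 (hSr i' hi').2 (q0 * t)
        (Nat.mul_pos hq1 ht) heq
    have hnn : ∀ t, 0 ≤ (dpart l.length d t).re := by
      intro t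
      by_contra hcon
      rw [not_le] at hcon
      refine fin { d with m := d.m + d.q * t } hd1 hd2 hd3 ⟨lev_shift h.lev t, h.jlt, Or.inr ?_⟩
      exact hcon
    have hnull := null_of_cls l d hrep' h htor hnn
    rw [hd4, hd3] at hnull
    refine ⟨hnull, ?_⟩
    have hpos : (∃ N, ∀ t, N ≤ t → 0 < seq l (d.m + d.q * t)) ∨ DCData l := by
      rcases Nat.eq_zero_or_pos d.J with hJ0 | hJ1
      · refine Or.inl (pos_of_growth Pool.Agent.TH286.GT.growth l d hrep' h hJ0 ?_ ?_ htor hnn)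
        · intro i hi
          rw [hd2]
          exact halg i hi 0 (by omega)
        · exact fun i hi => alg_root l _ (hSr i hi).1
      · refine class_main Pool.Agent.TH286.GT.growth hrep' h hJ1 ?_ ?_ htor hnn ?_
        · intro i hi
          rw [hd2]
          exact halg i hi d.J h.jlt
        · exact fun i hi => alg_root l _ (hSr i hi).1
        · intro z hz hle
          by_contra hcon
          rw [not_le] at hcon
          exact hne2 ((etr2 l _ _).2 (hB1 l d z hk hrep' h.lev h.jlt hJ1 h.rpos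
            (by rw [hd3]; exact hq2) hz hle hcon))
    rw [hd4, hd3] at hpos
    exact hpos
  refine ⟨BanachNull.of_classes q0 hq1 fun r _ => (cls r).1, ?_⟩
  by_cases hdc : DCData l
  · exact Or.inr hdc
  refine Or.inl ?_
  have hcls : ∀ r, ∃ N, ∀ t, N ≤ t → 0 < seq l (r + q0 * t) := fun r =>
    (cls r).2.resolve_right hdc
  choose B hB using hcls
  refine ⟨q0 * ∑ r ∈ Finset.range q0, B r, fun n hn => ?_⟩
  have h1 : n % q0 < q0 := Nat.mod_lt _ hq1
  have h2 : ∑ r ∈ Finset.range q0, B r ≤ n / q0 := (Nat.le_div_iff_mul_le hq1).2 (by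
    rw [mul_comm]; exact hn)
  have h3 : B (n % q0) ≤ ∑ r ∈ Finset.range q0, B r :=
    Finset.single_le_sum (fun _ _ => Nat.zero_le _) (Finset.mem_range.2 h1)
  have h4 := hB (n % q0) (n / q0) (h3.trans h2)
  rwa [Nat.mod_add_div] at h4

end Pool.Agent.J4H65.RO
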