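import Pool.Agent.J4H65.RO.Sub2
import Pool.Agent.J4H65.UP.Roots

/-!
# Critical recurrences of order at most seven
-/

set_option autoImplicit false

namespace Pool.Agent.J4H65.RO

open Polynomial Filter Topology Pool.Agent.H612.LR Pool.Agent.J4H65.UP

theorem sum_count_le (l : Rec) (hl : 1 ≤ l.length) (U : Finset ℂ) :
    ∑ u ∈ U, (croots l).count u ≤ l.length := by
  refine le_trans ?_ (card_croots l hl)
  rw [← Multiset.toFinset_sum_count_eq]
  refine Finset.sum_le_sum_of_ne_zero fun u _ hu => ?_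
  rw [Multiset.mem_toFinset]
  exact Multiset.count_ne_zero.1 hu

/-- The characteristic roots of a critical recurrence of order at most seven. -/
theorem roots_seven (l : Rec) (hl : 1 ≤ l.length) (h7 : l.length ≤ 7) (hcr : Critical l) :
    ∃ w : ℂ, (∀ k : ℕ, 1 ≤ k → w ^ k ≠ (starRingEnd ℂ w) ^ k) ∧
      ∀ y ∈ croots l, (starRingEnd ℂ) y ≠ y → y = w ∨ y = (starRingEnd ℂ) w := by
  obtain ⟨z, w, hz, hw, -, ⟨k, hk, hzk⟩, hwk⟩ := critical_roots l hl hcr
  have hne1 : z ≠ w := by
    rintro rfl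
    apply hwk k hk
    have := congrArg (starRingEnd ℂ) hzk
    rw [map_pow, map_pow, Complex.conj_ofReal] at this
    rw [hzk, this]
  have hne2 : z ≠ (starRingEnd ℂ) w := by
    intro heq
    have hw' : w = (starRingEnd ℂ) z := by rw [heq, Complex.conj_conj]
    apply hwk k hk
    have := congrArg (starRingEnd ℂ) hzk
    rw [map_pow, map_pow, Complex.conj_ofReal, ← hw'] at this
    rw [← heq, hzk, this]
  have hne3 : w ≠ (starRingEnd ℂ) w := by
    intro heq
    have := hwk 1 le_rfl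
    rw [pow_one, pow_one] at this
    exact this heq
  have hw2 : 2 ≤ (croots l).count ((starRingEnd ℂ) w) := by rw [count_conj]; exact hw
  have hz2 : 2 ≤ (croots l).count ((starRingEnd ℂ) z) := by rw [count_conj]; exact hz
  refine ⟨w, hwk, fun y hy hyr => ?_⟩
  by_contra hcon
  push Not at hcon
  obtain ⟨hy1, hy2⟩ := hcon
  have hy3 : (starRingEnd ℂ) y ≠ w := fun h => hy2 (by rw [← h, Complex.conj_conj])
  have hy4 : (starRingEnd ℂ) y ≠ (starRingEnd ℂ) w := fun h => hy1 ((starRingEnd ℂ).injective h)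
  -- the case where `z` is not real
  have hzr : (starRingEnd ℂ) z = z := by
    by_contra hzr
    have hz3 : (starRingEnd ℂ) z ≠ w := fun h => hne2 (by rw [← h, Complex.conj_conj])
    have hz4 : (starRingEnd ℂ) z ≠ (starRingEnd ℂ) w := fun h =>
      hne1 ((starRingEnd ℂ).injective h)
    have h1 := sum_count_le l hl {z, (starRingEnd ℂ) z, w, (starRingEnd ℂ) w}
    rw [Finset.sum_insert (by simp [hne1, hne2, Ne.symm hzr]),
      Finset.sum_insert (by simp [hz3, hz4]),
      Finset.sum_insert (by simpa using hne3), Finset.sum_singleton] at h1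
    omega
  have hyz : y ≠ z := by
    rintro rfl
    exact hyr hzr
  have hyz' : (starRingEnd ℂ) y ≠ z := by
    intro h
    apply hyz
    rw [← Complex.conj_conj y, h, hzr]
  have hy5 : 1 ≤ (croots l).count y := Multiset.one_le_count_iff_mem.2 hy
  have hy6 : 1 ≤ (croots l).count ((starRingEnd ℂ) y) := by rw [count_conj]; exact hy5
  have h1 := sum_count_le l hl {z, y, (starRingEnd ℂ) y, w, (starRingEnd ℂ) w}
  rw [Finset.sum_insert (by simp [hne1, hne2, Ne.symm hyz, Ne.symm hyz']),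
    Finset.sum_insert (by simp [hy1, hy2, Ne.symm hyr]),
    Finset.sum_insert (by simp [hy3, hy4]),
    Finset.sum_insert (by simpa using hne3), Finset.sum_singleton] at h1
  omega

theorem unit_sq {z : ℂ} (hz : z ≠ 0) (hr : (starRingEnd ℂ) z = z) :
    (z / (‖z‖ : ℂ)) ^ (2 : ℤ) = 1 := by
  have hn : (‖z‖ : ℂ) ≠ 0 := by
    exact_mod_cast norm_ne_zero_iff.2 hz
  have h1 : z * (starRingEnd ℂ) z = (‖z‖ : ℂ) ^ 2 := by
    rw [Complex.mul_conj, Complex.normSq_eq_norm_sq]
    push_cast
    rfl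
  rw [hr] at h1
  have h2 : (z / (‖z‖ : ℂ)) ^ 2 = 1 := by
    rw [div_pow, sq, h1, div_self (pow_ne_zero _ hn)]
  exact_mod_cast h2

/-- Critical recurrences of order at most seven have rank one. -/
theorem rankOne_of_order (l : Rec) (hl : 1 ≤ l.length) (h7 : l.length ≤ 7) (hcr : Critical l) :
    RankOne l := by
  obtain ⟨w, -, hw⟩ := roots_seven l hl h7 hcr
  intro v hv hv0 _ y hy y' hy' hn hn'
  have hy0 : y ≠ 0 := by
    rw [← norm_ne_zero_iff, hn]
    exact norm_ne_zero_iff.2 hv0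
  have hy0' : y' ≠ 0 := by
    rw [← norm_ne_zero_iff, hn']
    exact norm_ne_zero_iff.2 hv0
  have hc : (‖v‖ : ℂ) ≠ 0 := by exact_mod_cast norm_ne_zero_iff.2 hv0
  by_cases h1 : (starRingEnd ℂ) y = y
  · exact ⟨2, 0, Or.inl (by norm_num), by rw [zpow_zero, mul_one]; exact unit_sq hy0 h1⟩
  by_cases h2 : (starRingEnd ℂ) y' = y'
  · exact ⟨0, 2, Or.inr (by norm_num), by rw [zpow_zero, one_mul]; exact unit_sq hy0' h2⟩
  have h3 : y = y' ∨ y' = (starRingEnd ℂ) y := by
    rcases hw y hy h1 with h | h <;> rcases hw y' hy' h2 with h' | h'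
    · exact Or.inl (h.trans h'.symm)
    · exact Or.inr (by rw [h, h'])
    · exact Or.inr (by rw [h, h', Complex.conj_conj])
    · exact Or.inl (h.trans h'.symm)
  rcases h3 with h3 | h3
  · refine ⟨1, -1, Or.inl one_ne_zero, ?_⟩
    rw [← h3, zpow_one, zpow_neg, zpow_one]
    refine mul_inv_cancel₀ (div_ne_zero hy0 ?_)
    rw [hn]
    exact hc
  · refine ⟨1, 1, Or.inl one_ne_zero, ?_⟩
    rw [zpow_one, zpow_one, h3, RCLike.norm_conj, div_mul_div_comm, Complex.mul_conj,
      Complex.normSq_eq_norm_sq, hn]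
    push_cast
    rw [sq]
    exact div_self (mul_ne_zero hc hc)

end Pool.Agent.J4H65.RO
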