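import Pool.Agent.J4H65.RO.Cmp2
import Pool.Agent.TH286.GT.CLD

/-!
# Positivity of the terms of a class from the parts of the first and second order
-/

set_option autoImplicit false

namespace Pool.Agent.J4H65.RO

open Polynomial Filter Topology Pool.Agent.H612.LR Pool.Agent.J4H65.UP

/-- the part of the second order along the class -/
noncomputable def dpart2 (k : ℕ) (d : CD) (t : ℕ) : ℂ :=
  ∑ i ∈ d.S k 1, d.c i (d.J - 1) * (d.lam i / (d.ρ : ℂ)) ^ (d.m + d.q * t)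

section

variable {l : Rec} {d : CD}

theorem mem_S1 (hlev : d.Lev l) : ∀ i ∈ d.S l.length 1,
    i < l.length ∧ ‖d.lam i‖ = d.ρ ∧ IsRoot l (d.lam i) := by
  intro i hi
  unfold CD.S at hi
  rw [Finset.mem_filter, Finset.mem_range] at hi
  rcases hlev.flag i hi.1 with h | ⟨-, h⟩ | ⟨h, -⟩
  · omega
  · exact ⟨hi.1, h⟩
  · omega

theorem mem_S2 (hlev : d.Lev l) : ∀ i ∈ d.S l.length 2, ‖d.lam i‖ < d.ρ := by
  intro i hi
  unfold CD.S at hi
  rw [Finset.mem_filter, Finset.mem_range] at hi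
  rcases hlev.flag i hi.1 with h | ⟨h, -⟩ | ⟨-, h⟩
  · omega
  · omega
  · exact h

theorem unit_S1 (hlev : d.Lev l) (hρ : 0 < d.ρ) : ∀ i ∈ d.S l.length 1,
    ‖d.lam i / (d.ρ : ℂ)‖ = 1 := by
  intro i hi
  rw [norm_div, (mem_S1 hlev i hi).2.1, Complex.norm_real, Real.norm_of_nonneg hρ.le,
    div_self hρ.ne']

theorem le_idx (hlev : d.Lev l) (t : ℕ) : t ≤ d.m + d.q * t := by
  have : t ≤ d.q * t := Nat.le_mul_of_pos_left _ hlev.q1
  omega

/-- the terms of the class -/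
theorem seq_re (hrep : Rep l d.lam d.c) (hlev : d.Lev l) (hJ : d.J < l.length) (t : ℕ)
    (ht : l.length ≤ t) : (((seq l (d.m + d.q * t) : ℚ) : ℝ)) =
      (∑ i ∈ d.S l.length 1, ∑ j ∈ Finset.range (d.J + 1),
        d.c i j * ((d.m + d.q * t).choose j : ℂ) * d.lam i ^ (d.m + d.q * t) +
      ∑ i ∈ d.S l.length 2, ∑ j ∈ Finset.range l.length,
        d.c i j * ((d.m + d.q * t).choose j : ℂ) * d.lam i ^ (d.m + d.q * t)).re := by
  have h1 := le_idx hlev t
  have h2 := (hrep (d.m + d.q * t + 1)).2.2 (d.m + d.q * t) (by omega) (by omega)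
  rw [snd_split t_VAN l d hlev hJ t] at h2
  rw [← h2, ← Complex.ofReal_ratCast, Complex.ofReal_re]

/-- the top terms -/
theorem top_split (hρ : 0 < d.ρ) (k J n : ℕ) :
    ∑ i ∈ d.S k 1, ∑ j ∈ Finset.range (J + 1), d.c i j * (n.choose j : ℂ) * d.lam i ^ n =
      ∑ i ∈ d.S k 1, ∑ j ∈ Finset.range J, d.c i j * (n.choose j : ℂ) * d.lam i ^ n +
      (((n.choose J : ℝ) * d.ρ ^ n : ℝ) : ℂ) *
        ∑ i ∈ d.S k 1, d.c i J * (d.lam i / (d.ρ : ℂ)) ^ n := by
  have hρc : (d.ρ : ℂ) ≠ 0 := by exact_mod_cast hρ.ne'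
  rw [Finset.mul_sum, ← Finset.sum_add_distrib]
  refine Finset.sum_congr rfl fun i _ => ?_
  rw [Finset.sum_range_succ]
  congr 1
  rw [div_pow]
  push_cast
  field_simp

/-- the small terms -/
theorem wbound (hlev : d.Lev l) (hρ : 0 < d.ρ) : ∃ A μ : ℝ, 0 ≤ A ∧ 0 ≤ μ ∧ μ < d.ρ ∧ ∀ n : ℕ,
    ‖∑ i ∈ d.S l.length 2, ∑ j ∈ Finset.range l.length,
      d.c i j * (n.choose j : ℂ) * d.lam i ^ n‖ ≤ A * (((n : ℝ) + 1) ^ l.length * μ ^ n) := by
  classical
  set M : Finset ℝ := insert 0 ((d.S l.length 2).image fun i => ‖d.lam i‖) with hM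
  have hMne : M.Nonempty := ⟨0, Finset.mem_insert_self _ _⟩
  set μ : ℝ := M.max' hMne with hμ
  have hμ0 : 0 ≤ μ := Finset.le_max' _ _ (Finset.mem_insert_self _ _)
  have hμρ : μ < d.ρ := by
    have h1 := Finset.max'_mem M hMne
    rw [← hμ] at h1
    rcases Finset.mem_insert.1 h1 with h | h
    · rw [h]; exact hρ
    · obtain ⟨i, hi, hie⟩ := Finset.mem_image.1 h
      rw [← hie]
      exact mem_S2 hlev i hi
  have hle : ∀ i ∈ d.S l.length 2, ‖d.lam i‖ ≤ μ := fun i hi =>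
    Finset.le_max' M _ (Finset.mem_insert_of_mem (Finset.mem_image_of_mem _ hi))
  refine ⟨∑ i ∈ d.S l.length 2, ∑ j ∈ Finset.range l.length, ‖d.c i j‖, μ,
    Finset.sum_nonneg fun _ _ => Finset.sum_nonneg fun _ _ => norm_nonneg _, hμ0, hμρ,
    fun n => ?_⟩
  have hn1 : (1 : ℝ) ≤ (n : ℝ) + 1 := by
    have : (0 : ℝ) ≤ n := Nat.cast_nonneg n
    linarith
  refine (norm_sum_le _ _).trans ?_
  rw [Finset.sum_mul]
  refine Finset.sum_le_sum fun i hi => ?_
  refine (norm_sum_le _ _).trans ?_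
  rw [Finset.sum_mul]
  refine Finset.sum_le_sum fun j hj => ?_
  have hj' : j ≤ l.length := (Finset.mem_range.1 hj).le
  rw [norm_mul, norm_mul, norm_pow, Complex.norm_natCast, mul_assoc]
  have h1 := choose_le_pow' n j
  have h2 : ((n : ℝ) + 1) ^ j ≤ ((n : ℝ) + 1) ^ l.length := pow_le_pow_right₀ hn1 hj'
  have h3 : ‖d.lam i‖ ^ n ≤ μ ^ n := pow_le_pow_left₀ (norm_nonneg _) (hle i hi) n
  gcongr
  exact h1.trans h2

/-- Positivity by the first part where it is not small, and by the second part elsewhere. -/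
theorem pos_second (hrep : Rep l d.lam d.c) (h : Cls l d) (hJ0 : 0 < d.J)
    (hnn : ∀ t, 0 ≤ (dpart l.length d t).re) (ε : ℝ) (hε : 0 < ε)
    (hyp : ∃ N, ∀ t, N ≤ t → (dpart l.length d t).re < ε → ε ≤ (dpart2 l.length d t).re) :
    ∃ N, ∀ t, N ≤ t → 0 < seq l (d.m + d.q * t) := by
  obtain ⟨N0, hN0⟩ := hyp
  have hc := close l d hrep h.lev h.jlt h.rpos
  rw [Metric.tendsto_atTop] at hc
  obtain ⟨N1, hN1⟩ := hc ε hε
  obtain ⟨T, hT⟩ := asy_quant' l.length (d.S l.length 1) (d.S l.length 2) d.lam d.c d.ρ (ε / 2)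
    (ε / 2) (d.J - 1) h.rpos (by linarith) (by have := h.jlt; omega)
    (fun i hi => (mem_S1 h.lev i hi).2.1) (mem_S2 h.lev)
  refine ⟨N0 + N1 + T + l.length, fun t ht => ?_⟩
  by_cases hlt : (dpart l.length d t).re < ε
  · have h1 := hN0 t (by omega) hlt
    have h2 := le_idx h.lev t
    have h3 := hT (d.m + d.q * t) (by omega) (by
      have : ε / 2 + ε / 2 = ε := by ring
      rw [this]
      exact h1)
    rw [Nat.sub_add_cancel hJ0] at h3
    have h4 := seq_re hrep h.lev h.jlt t (by omega)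
    rw [top_split h.rpos l.length d.J (d.m + d.q * t), Complex.add_re, Complex.add_re,
      Complex.re_ofReal_mul] at h4
    rw [Complex.add_re] at h3
    have hρn : 0 < d.ρ ^ (d.m + d.q * t) := pow_pos h.rpos _
    have h5 : 0 ≤ ((d.m + d.q * t).choose d.J : ℝ) * d.ρ ^ (d.m + d.q * t) *
        (∑ i ∈ d.S l.length 1, d.c i d.J * (d.lam i / (d.ρ : ℂ)) ^ (d.m + d.q * t)).re :=
      mul_nonneg (by positivity) (hnn t)
    have h6 : 0 ≤ ε / 2 * ((d.m + d.q * t).choose (d.J - 1) : ℝ) * d.ρ ^ (d.m + d.q * t) := by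
      positivity
    have h7 : (0 : ℝ) < ((seq l (d.m + d.q * t) : ℚ) : ℝ) := by
      rw [h4]
      linarith
    exact_mod_cast h7
  · have h1 := hN1 t (by omega)
    rw [dist_zero_right] at h1
    have h2 := (Complex.abs_re_le_norm (((wn l d t : ℝ) : ℂ) - dpart l.length d t)).trans_lt h1
    rw [Complex.sub_re, Complex.ofReal_re] at h2
    have h3 := (abs_lt.1 h2).1
    have h4 : 0 < wn l d t := by
      have := not_lt.1 hlt
      linarith
    unfold wn at h4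
    by_contra hcon
    rw [not_lt] at hcon
    have h5 : ((seq l (d.m + d.q * t) : ℚ) : ℝ) ≤ 0 := by exact_mod_cast hcon
    have h6 : ((seq l (d.m + d.q * t) : ℚ) : ℝ) /
        (d.ρ ^ (d.m + d.q * t) * ((d.m + d.q * t).choose d.J : ℝ)) ≤ 0 := by
      refine div_nonpos_of_nonpos_of_nonneg h5 ?_
      have := h.rpos.le
      positivity
    linarith

/-- The growth theorem for the first part. -/
theorem growth_lower (hG : GrowthTheorem) (h : Cls l d)
    (him : ∀ t, (dpart l.length d t).im = 0)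
    (halg : ∀ i < l.length, IsAlgebraic ℚ (d.c i d.J))
    (hlalg : ∀ i ∈ d.S l.length 1, IsAlgebraic ℚ (d.lam i))
    (htor : ∀ i ∈ d.S l.length 1, ∀ i' ∈ d.S l.length 1, ∀ t : ℕ, 1 ≤ t →
      d.lam i ^ (d.q * t) = d.lam i' ^ (d.q * t) → d.lam i ^ d.q = d.lam i' ^ d.q)
    (hnn : ∀ t, 0 ≤ (dpart l.length d t).re) (μ : ℝ) (hμ0 : 0 ≤ μ) (hμρ : μ < d.ρ) :
    ∃ R : ℝ, μ ^ d.q < R ∧ ∃ N, ∀ t, N ≤ t →
      R ^ t < d.ρ ^ (d.m + d.q * t) * (dpart l.length d t).re := by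
  have hρ := h.rpos
  have hρc : (d.ρ : ℂ) ≠ 0 := by exact_mod_cast hρ.ne'
  have hq := h.lev.q1
  set S := d.S l.length 1 with hS
  have hSk : ∀ i ∈ S, i < l.length ∧ ‖d.lam i‖ = d.ρ := fun i hi =>
    ⟨(mem_S1 h.lev i hi).1, (mem_S1 h.lev i hi).2.1⟩
  have hκ : ∀ i ∈ S, d.lam (d.κ i) ^ d.q = d.lam i ^ d.q := fun i hi =>
    (h.lev.cls i (hSk i hi).1).2.symm
  set G : ℕ → ℂ := fun s => ∑ i ∈ S.filter (fun i => d.κ i = s), d.c i d.J * d.lam i ^ d.m
    with hGdef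
  set I : Finset ℕ := (S.image d.κ).filter (fun s => G s ≠ 0) with hI
  have hsum : ∀ t, (d.ρ : ℂ) ^ (d.m + d.q * t) * dpart l.length d t =
      ∑ s ∈ I, G s * (d.lam s ^ d.q) ^ t := by
    intro t
    unfold dpart
    rw [Finset.mul_sum, hI, Finset.sum_filter,
      ← Finset.sum_fiberwise_of_maps_to (fun i hi => Finset.mem_image_of_mem d.κ hi)]
    refine Finset.sum_congr rfl fun s _ => ?_
    have e1 : ∑ i ∈ S.filter (fun i => d.κ i = s), (d.ρ : ℂ) ^ (d.m + d.q * t) *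
        (d.c i d.J * (d.lam i / (d.ρ : ℂ)) ^ (d.m + d.q * t)) = G s * (d.lam s ^ d.q) ^ t := by
      simp only [hGdef]
      rw [Finset.sum_mul]
      refine Finset.sum_congr rfl fun i hi => ?_
      obtain ⟨hi1, hi2⟩ := Finset.mem_filter.1 hi
      rw [← hi2, hκ i hi1, div_pow, pow_add (d.lam i), pow_mul]
      field_simp
    rw [e1]
    split_ifs with hs
    · rfl
    · rw [not_not] at hs
      rw [hs, zero_mul]
  set R : ℝ := (μ ^ d.q + d.ρ ^ d.q) / 2 with hR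
  have hμR : μ ^ d.q < d.ρ ^ d.q := pow_lt_pow_left₀ hμρ hμ0 (by omega)
  have hR1 : μ ^ d.q < R := by rw [hR]; linarith
  have hR2 : R < d.ρ ^ d.q := by rw [hR]; linarith
  have hR0 : 0 < R := lt_of_le_of_lt (by positivity) hR1
  have hGalg : ∀ s, IsAlgebraic ℚ (G s) := by
    intro s
    have : ∀ A : Finset ℕ, (∀ i ∈ A, i ∈ S) →
        IsAlgebraic ℚ (∑ i ∈ A, d.c i d.J * d.lam i ^ d.m) := by
      intro A
      induction A using Finset.induction_on with
      | empty => intro _; simpa using (isAlgebraic_zero : IsAlgebraic ℚ (0 : ℂ))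
      | insert a A ha ih =>
        intro hA
        rw [Finset.sum_insert ha]
        have haA := hA a (Finset.mem_insert_self a A)
        exact ((halg a (hSk a haA).1).mul ((hlalg a haA).pow d.m)).add
          (ih fun i hi => hA i (Finset.mem_insert_of_mem hi))
    exact this _ fun i hi => (Finset.mem_filter.1 hi).1
  obtain ⟨s1, hs1⟩ := h.act
  have hs1I : s1 ∈ I := by
    rw [hI, Finset.mem_filter]
    refine ⟨?_, hs1⟩
    by_contra hcon
    apply hs1
    refine Finset.sum_eq_zero fun i hi => ?_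
    obtain ⟨hi1, hi2⟩ := Finset.mem_filter.1 hi
    exact absurd (Finset.mem_image.2 ⟨i, hi1, hi2⟩) hcon
  have hrepI : ∀ s ∈ I, ∃ i ∈ S, d.κ i = s := by
    intro s hs
    exact Finset.mem_image.1 (Finset.mem_filter.1 hs).1
  obtain ⟨N1, hN1⟩ := hG I (fun s => d.lam s ^ d.q) G (by
    intro s hs
    obtain ⟨i, hi, rfl⟩ := hrepI s hs
    refine ⟨?_, hGalg _, ?_, (Finset.mem_filter.1 hs).2⟩
    · show IsAlgebraic ℚ (d.lam (d.κ i) ^ d.q)
      rw [hκ i hi]
      exact (hlalg i hi).pow d.q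
    · show d.lam (d.κ i) ^ d.q ≠ 0
      rw [hκ i hi]
      refine pow_ne_zero _ ?_
      intro h0
      have := (hSk i hi).2
      rw [h0, norm_zero] at this
      exact hρ.ne this) (by
    intro s hs s' hs' hne t ht heq
    obtain ⟨i, hi, rfl⟩ := hrepI s hs
    obtain ⟨i', hi', rfl⟩ := hrepI s' hs'
    simp only [hκ i hi, hκ i' hi'] at heq
    rw [← pow_mul, ← pow_mul] at heq
    exact hne (h.sep i hi i' hi' (htor i hi i' hi' t ht heq))) R hR0.le ⟨s1, hs1I, by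
      obtain ⟨i, hi, rfl⟩ := hrepI s1 hs1I
      simp only [hκ i hi]
      rw [norm_pow, (hSk i hi).2]
      exact hR2⟩
  refine ⟨R, hR1, N1, fun t ht => ?_⟩
  have h2 := hN1 t ht
  have h5 : ∑ s ∈ I, G s * (d.lam s ^ d.q) ^ t =
      ((d.ρ ^ (d.m + d.q * t) * (dpart l.length d t).re : ℝ) : ℂ) := by
    rw [← hsum t]
    push_cast
    congr 1
    apply Complex.ext
    · simp
    · rw [him t]
      simp
  have h6 : 0 ≤ d.ρ ^ (d.m + d.q * t) * (dpart l.length d t).re := mul_nonneg (by positivity)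
    (hnn t)
  rw [h5, Complex.norm_real, Real.norm_eq_abs, abs_of_nonneg h6] at h2
  exact h2

/-- Positivity in the case of double dominant roots. -/
theorem pos_first (hG : GrowthTheorem) (hrep : Rep l d.lam d.c) (h : Cls l d) (hJ1 : d.J = 1)
    (halg : ∀ i < l.length, IsAlgebraic ℚ (d.c i d.J))
    (hlalg : ∀ i ∈ d.S l.length 1, IsAlgebraic ℚ (d.lam i))
    (htor : ∀ i ∈ d.S l.length 1, ∀ i' ∈ d.S l.length 1, ∀ t : ℕ, 1 ≤ t →
      d.lam i ^ (d.q * t) = d.lam i' ^ (d.q * t) → d.lam i ^ d.q = d.lam i' ^ d.q)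
    (hnn : ∀ t, 0 ≤ (dpart l.length d t).re) (C : ℝ)
    (hyp : ∃ N, ∀ t, N ≤ t → 0 ≤ (dpart2 l.length d t).re + C * (dpart l.length d t).re) :
    ∃ N, ∀ t, N ≤ t → 0 < seq l (d.m + d.q * t) := by
  obtain ⟨N0, hN0⟩ := hyp
  obtain ⟨A, μ, hA, hμ0, hμρ, hW⟩ := wbound h.lev h.rpos
  obtain ⟨R, hR, N1, hN1⟩ := growth_lower hG h (dpart_im l d hrep h.lev h.jlt h.rpos) halg hlalg
    htor hnn μ hμ0 hμρ
  obtain ⟨N2, hN2⟩ := Pool.Agent.TH286.GT.CLD.poly_exp l.length d.m d.q (A * μ ^ d.m)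
    (μ ^ d.q) R (by positivity) hR
  obtain ⟨M, hM⟩ := exists_nat_ge (C + 1)
  refine ⟨N0 + N1 + N2 + M + l.length, fun t ht => ?_⟩
  have h1 := hN0 t (by omega)
  have h2 := hN1 t (by omega)
  have h3 := hN2 t (by omega)
  have hidx := le_idx h.lev t
  have h4 := seq_re hrep h.lev h.jlt t (by omega)
  set n := d.m + d.q * t with hn
  rw [hJ1, top_split h.rpos l.length 1 n, show (1 : ℕ) = 0 + 1 from rfl,
    top_split h.rpos l.length 0 n] at h4
  have e1 : ∑ i ∈ d.S l.length 1, d.c i (0 + 1) * (d.lam i / (d.ρ : ℂ)) ^ n =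
      dpart l.length d t := by
    unfold dpart
    rw [hJ1]
  have e2 : ∑ i ∈ d.S l.length 1, d.c i 0 * (d.lam i / (d.ρ : ℂ)) ^ n =
      dpart2 l.length d t := by
    unfold dpart2
    rw [hJ1]
  rw [e1, e2, Complex.add_re, Complex.add_re, Complex.add_re, Complex.re_ofReal_mul,
    Complex.re_ofReal_mul, Nat.choose_zero_right, zero_add, Nat.choose_one_right] at h4
  have e3 : (∑ i ∈ d.S l.length 1, ∑ j ∈ Finset.range 0,
      d.c i j * (n.choose j : ℂ) * d.lam i ^ n).re = 0 := by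
    simp
  rw [e3] at h4
  have h5 := (Complex.abs_re_le_norm _).trans (hW n)
  have h6 : A * (((n : ℝ) + 1) ^ l.length * μ ^ n) < R ^ t := by
    refine lt_of_le_of_lt (le_of_eq ?_) h3
    rw [hn, pow_add, pow_mul]
    push_cast
    ring
  have h7 := (abs_le.1 h5).1
  have hρn : 0 < d.ρ ^ n := pow_pos h.rpos _
  have h8 : C + 1 ≤ (n : ℝ) := hM.trans (by exact_mod_cast (by omega : M ≤ n))
  have h9 : 0 ≤ d.ρ ^ n * ((dpart2 l.length d t).re + C * (dpart l.length d t).re) :=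
    mul_nonneg hρn.le h1
  have h10 : 0 ≤ ((n : ℝ) - (C + 1)) * (d.ρ ^ n * (dpart l.length d t).re) :=
    mul_nonneg (by linarith) (mul_nonneg hρn.le (hnn t))
  have h11 : (0 : ℝ) < ((seq l n : ℚ) : ℝ) := by
    rw [h4]
    push_cast
    nlinarith
  exact_mod_cast h11

end

end Pool.Agent.J4H65.RO
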