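import Pool.Agent.J4H65.RO.Torus
import Pool.Agent.J4H65.RO.Fm2
import Pool.Agent.H612.LR.Main
import Pool.Agent.H612.LR.T_RUN

/-!
# Certificates of the second order are sound in rank at most one
-/

set_option autoImplicit false

namespace Pool.Agent.J4H65.RO

open Polynomial Filter Topology Pool.Agent.H612.LR Pool.Agent.J4H65.UP

/-- On each circle around zero which contains a repeated characteristic root, the arguments of any
two characteristic roots are multiplicatively dependent. -/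
def RankOne (l : Rec) : Prop :=
  ∀ v ∈ croots l, v ≠ 0 → 2 ≤ (croots l).count v → ∀ z ∈ croots l, ∀ w ∈ croots l,
    ‖z‖ = ‖v‖ → ‖w‖ = ‖v‖ →
      ∃ a b : ℤ, (a ≠ 0 ∨ b ≠ 0) ∧ (z / (‖z‖ : ℂ)) ^ a * (w / (‖w‖ : ℂ)) ^ b = 1

/-- nonzero coefficients and multiplicities -/
theorem count_of_coef (l : Rec) (hl : 1 ≤ l.length) (lam : ℕ → ℂ) (c : ℕ → ℕ → ℂ)
    (hrep : Rep l lam c) (i j : ℕ) (hi : i < l.length) (hj : j < l.length) (hne : c i j ≠ 0) :
    j < (croots l).count (lam i) := by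
  classical
  obtain ⟨lam', c', hrep', hmul, -⟩ := t_RPE l hl
  set k := l.length with hk
  obtain ⟨hn0, hinj, -⟩ := hrep 0
  obtain ⟨hn0', hinj', -⟩ := hrep' 0
  set T : Finset ℂ := (Finset.range k).image lam ∪ (Finset.range k).image lam' with hT
  have hT0 : ∀ μ ∈ T, μ ≠ 0 := by
    intro μ hμ
    rw [hT, Finset.mem_union, Finset.mem_image, Finset.mem_image] at hμ
    rcases hμ with ⟨i, hi, rfl⟩ | ⟨i, hi, rfl⟩
    · exact hn0 i (Finset.mem_range.mp hi)
    · exact hn0' i (Finset.mem_range.mp hi)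
  have hs1 : (Finset.range k).image lam ⊆ T := Finset.subset_union_left
  have hs2 : (Finset.range k).image lam' ⊆ T := Finset.subset_union_right
  have hz : ∀ μ ∈ T, ∀ j < k, runC k lam c μ j - runC k lam' c' μ j = 0 := by
    refine run_indep T k k (fun μ j => runC k lam c μ j - runC k lam' c' μ j) hT0 ?_
    intro n hn
    have h1 := run_sum k lam c hinj T hs1 (fun μ j z => z * ((n.choose j : ℂ) * μ ^ n))
      (fun μ j => zero_mul _)
    have h2 := run_sum k lam' c' hinj' T hs2 (fun μ j z => z * ((n.choose j : ℂ) * μ ^ n))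
      (fun μ j => zero_mul _)
    have h3 := (hrep (n + 1)).2.2 n hn (by omega)
    have h4 := (hrep' (n + 1)).2.2 n hn (by omega)
    have h5 : expo k lam c n = expo k lam' c' n := h3.symm.trans h4
    simp only [sub_mul, Finset.sum_sub_distrib]
    rw [h1, h2, sub_eq_zero]
    unfold expo at h5
    simpa only [mul_assoc] using h5
  have h6 := hz (lam i) (hs1 (Finset.mem_image_of_mem lam (Finset.mem_range.2 hi))) j hj
  rw [runC_lam k lam c hinj i hi] at h6
  have h7 : runC k lam' c' (lam i) j ≠ 0 := by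
    intro h0
    rw [h0, sub_zero] at h6
    exact hne h6
  by_cases hmem : lam i ∈ (Finset.range k).image lam'
  · obtain ⟨i', hi', he⟩ := Finset.mem_image.1 hmem
    rw [← he, runC_lam k lam' c' hinj' i' (Finset.mem_range.1 hi')] at h7
    by_contra hcon
    refine h7 (hmul i' (Finset.mem_range.1 hi') j hj ?_)
    rw [he]
    exact not_lt.1 hcon
  · exact absurd (runC_zero k lam' c' (lam i) hmem j) h7

/-- the dominant part decides the sign, with a margin -/
theorem asy_quant (k : ℕ) (D W : Finset ℕ) (lam : ℕ → ℂ) (c : ℕ → ℕ → ℂ) (ρ δ η : ℝ) (J : ℕ)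
    (hρ : 0 < ρ) (hδ : 0 < δ) (hJ : J < k) (hD : ∀ i ∈ D, ‖lam i‖ = ρ)
    (hW : ∀ i ∈ W, ‖lam i‖ < ρ) :
    ∃ T : ℕ, ∀ n, T ≤ n → (∑ i ∈ D, c i J * (lam i / (ρ : ℂ)) ^ n).re ≤ -δ - η →
      (∑ i ∈ D, ∑ j ∈ Finset.range (J + 1), c i j * (n.choose j : ℂ) * lam i ^ n +
        ∑ i ∈ W, ∑ j ∈ Finset.range k, c i j * (n.choose j : ℂ) * lam i ^ n).re <
        -(η * (n.choose J : ℝ) * ρ ^ n) := by
  classical
  set p : ℕ := (D ∪ W).sup id + 1 with hp
  have hlt : ∀ i ∈ D ∪ W, i < p := fun i hi => by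
    have : id i ≤ (D ∪ W).sup id := Finset.le_sup hi
    simp only [id] at this
    omega
  have hpD : p ∉ D := fun h => absurd (hlt p (Finset.mem_union_left _ h)) (lt_irrefl _)
  have hpW : p ∉ W := fun h => absurd (hlt p (Finset.mem_union_right _ h)) (lt_irrefl _)
  set lam' : ℕ → ℂ := fun i => if i = p then (ρ : ℂ) else lam i with hlam'
  set c' : ℕ → ℕ → ℂ := fun i j => if i = p then (if j = J then (η : ℂ) else 0) else c i j
    with hc'
  have eD : ∀ i ∈ D, lam' i = lam i ∧ c' i = c i := by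
    intro i hi
    have : i ≠ p := fun h => hpD (h ▸ hi)
    simp only [hlam', hc']
    rw [if_neg this]
    refine ⟨rfl, ?_⟩
    funext j
    rw [if_neg this]
  have eW : ∀ i ∈ W, lam' i = lam i ∧ c' i = c i := by
    intro i hi
    have : i ≠ p := fun h => hpW (h ▸ hi)
    simp only [hlam', hc']
    rw [if_neg this]
    refine ⟨rfl, ?_⟩
    funext j
    rw [if_neg this]
  have ep : lam' p = (ρ : ℂ) ∧ ∀ j, c' p j = if j = J then (η : ℂ) else 0 := by
    simp only [hlam', hc']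
    simp
  obtain ⟨T, hT⟩ := t_ASY k (insert p D) W lam' c' ρ δ J hρ hδ hJ (by
    intro i hi
    rcases Finset.mem_insert.1 hi with rfl | hi
    · rw [ep.1, Complex.norm_real, Real.norm_of_nonneg hρ.le]
    · rw [(eD i hi).1]; exact hD i hi) (by
    intro i hi
    rw [(eW i hi).1]; exact hW i hi)
  refine ⟨T, fun n hn hle => ?_⟩
  have hρc : (ρ : ℂ) ≠ 0 := by exact_mod_cast hρ.ne'
  have h1 := hT n hn (by
    rw [Finset.sum_insert hpD, ep.1, ep.2, if_pos rfl, div_self hρc, one_pow, mul_one,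
      Complex.add_re, Complex.ofReal_re, Finset.sum_congr rfl fun i hi => by
        rw [(eD i hi).1, (eD i hi).2]]
    linarith)
  have e1 : ∑ i ∈ D, ∑ j ∈ Finset.range (J + 1), c' i j * (n.choose j : ℂ) * lam' i ^ n =
      ∑ i ∈ D, ∑ j ∈ Finset.range (J + 1), c i j * (n.choose j : ℂ) * lam i ^ n :=
    Finset.sum_congr rfl fun i hi => by rw [(eD i hi).1, (eD i hi).2]
  have e2 : ∑ i ∈ W, ∑ j ∈ Finset.range k, c' i j * (n.choose j : ℂ) * lam' i ^ n =
      ∑ i ∈ W, ∑ j ∈ Finset.range k, c i j * (n.choose j : ℂ) * lam i ^ n :=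
    Finset.sum_congr rfl fun i hi => by rw [(eW i hi).1, (eW i hi).2]
  rw [Finset.sum_insert hpD, e1, e2, ep.1] at h1
  have h2 : ∑ j ∈ Finset.range (J + 1), c' p j * (n.choose j : ℂ) * (ρ : ℂ) ^ n =
      ((η * (n.choose J : ℝ) * ρ ^ n : ℝ) : ℂ) := by
    rw [Finset.sum_eq_single J]
    · rw [ep.2, if_pos rfl]
      push_cast
      ring
    · intro j _ hj
      rw [ep.2, if_neg hj, zero_mul, zero_mul]
    · intro h
      exact absurd (Finset.mem_range.2 (Nat.lt_succ_self J)) h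
  rw [h2, add_assoc, Complex.add_re, Complex.ofReal_re] at h1
  linarith

/-- the lower bound -/
theorem asy_quant' (k : ℕ) (D W : Finset ℕ) (lam : ℕ → ℂ) (c : ℕ → ℕ → ℂ) (ρ δ η : ℝ) (J : ℕ)
    (hρ : 0 < ρ) (hδ : 0 < δ) (hJ : J < k) (hD : ∀ i ∈ D, ‖lam i‖ = ρ)
    (hW : ∀ i ∈ W, ‖lam i‖ < ρ) :
    ∃ T : ℕ, ∀ n, T ≤ n → δ + η ≤ (∑ i ∈ D, c i J * (lam i / (ρ : ℂ)) ^ n).re →
      η * (n.choose J : ℝ) * ρ ^ n <
      (∑ i ∈ D, ∑ j ∈ Finset.range (J + 1), c i j * (n.choose j : ℂ) * lam i ^ n +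
        ∑ i ∈ W, ∑ j ∈ Finset.range k, c i j * (n.choose j : ℂ) * lam i ^ n).re := by
  obtain ⟨T, hT⟩ := asy_quant k D W lam (fun i j => -c i j) ρ δ η J hρ hδ hJ hD hW
  refine ⟨T, fun n hn hle => ?_⟩
  have h1 := hT n hn (by
    simp only [neg_mul, Finset.sum_neg_distrib, Complex.neg_re]
    linarith)
  simp only [neg_mul, Finset.sum_neg_distrib, Complex.neg_re, Complex.add_re] at h1
  rw [Complex.add_re]
  linarith

/-- A nonnegative dominant part is small to the second order near its zeros. -/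
theorem second_order (S : Finset ℕ) (c z : ℕ → ℂ) (g : ℕ → ℂ) (hz : ∀ i ∈ S, ‖z i‖ = 1)
    (hg : ∀ i ∈ S, ‖g i‖ = 1) (h0 : (∑ i ∈ S, c i * z i).re ≤ 0)
    (h1 : 0 ≤ (∑ i ∈ S, c i * (z i ^ 2 * (starRingEnd ℂ) (g i))).re) :
    (∑ i ∈ S, c i * g i).re ≤ ∑ i ∈ S, ‖c i‖ * ‖g i - z i‖ ^ 2 := by
  have key : (∑ i ∈ S, c i * g i).re + (∑ i ∈ S, c i * (z i ^ 2 * (starRingEnd ℂ) (g i))).re ≤
      2 * (∑ i ∈ S, c i * z i).re + ∑ i ∈ S, ‖c i‖ * ‖g i - z i‖ ^ 2 := by
    rw [Complex.re_sum, Complex.re_sum, Complex.re_sum, Finset.mul_sum, ← Finset.sum_add_distrib,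
      ← Finset.sum_add_distrib]
    refine Finset.sum_le_sum fun i hi => ?_
    have hzz : z i * (starRingEnd ℂ) (z i) = 1 := by
      rw [Complex.mul_conj, Complex.normSq_eq_norm_sq, hz i hi]
      norm_num
    have hgg : g i * (starRingEnd ℂ) (g i) = 1 := by
      rw [Complex.mul_conj, Complex.normSq_eq_norm_sq, hg i hi]
      norm_num
    -- `g + z² ḡ = z (2 - |g - z|²)`
    have e1 : g i + z i ^ 2 * (starRingEnd ℂ) (g i) =
        z i * ((2 - ‖g i - z i‖ ^ 2 : ℝ) : ℂ) := by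
      have e2 : ((‖g i - z i‖ ^ 2 : ℝ) : ℂ) =
          (g i - z i) * ((starRingEnd ℂ) (g i) - (starRingEnd ℂ) (z i)) := by
        rw [← map_sub, Complex.mul_conj, Complex.normSq_eq_norm_sq]
      push_cast at e2 ⊢
      rw [e2]
      linear_combination (z i) * hgg + (z i - g i) * hzz
    have e3 : (c i * g i).re + (c i * (z i ^ 2 * (starRingEnd ℂ) (g i))).re =
        (c i * z i).re * (2 - ‖g i - z i‖ ^ 2) := by
      rw [← Complex.add_re, ← mul_add, e1, ← mul_assoc, Complex.re_mul_ofReal]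
    rw [e3]
    have h2 : -(c i * z i).re ≤ ‖c i‖ := by
      have h3 := Complex.abs_re_le_norm (c i * z i)
      rw [norm_mul, hz i hi, mul_one] at h3
      exact (neg_le_abs _).trans h3
    nlinarith [sq_nonneg ‖g i - z i‖]
  linarith

end Pool.Agent.J4H65.RO
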