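import Pool.Agent.J4H65.RO.Snd2

/-!
# Certificates of the second order are sound: the main argument
-/

set_option autoImplicit false

namespace Pool.Agent.J4H65.RO

open Polynomial Filter Topology Pool.Agent.H612.LR Pool.Agent.J4H65.UP

/-- A point of the orbit closure at which the dominant part is at most zero and the second part is
negative. -/
theorem snd_main (l : Rec) (d : CD) (hl : 1 ≤ l.length) (hrep : Rep l d.lam d.c) (hlev : d.Lev l)
    (hJ : d.J < l.length) (hJ0 : 0 < d.J) (hρ : 0 < d.ρ) (z : ℕ → ℂ)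
    (hz : ∀ ε : ℝ, 0 < ε → ∀ T : ℕ, ∃ t, T ≤ t ∧ ∀ i ∈ d.S l.length 1,
      ‖(d.lam i / (d.ρ : ℂ)) ^ (d.m + d.q * t) - z i‖ < ε)
    (hle : (∑ i ∈ d.S l.length 1, d.c i d.J * z i).re ≤ 0)
    (hneg : (∑ i ∈ d.S l.length 1, d.c i (d.J - 1) * z i).re < 0)
    (hR : RankOne l) : ¬ UltPositive l := by
  classical
  rintro ⟨N1, hN1⟩
  set S := d.S l.length 1 with hS
  set γ : ℕ → ℂ := fun i => d.lam i / (d.ρ : ℂ) with hγdef
  have hρc : (d.ρ : ℂ) ≠ 0 := by exact_mod_cast hρ.ne'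
  have hSr : ∀ i ∈ S, i < l.length ∧ ‖d.lam i‖ = d.ρ ∧ IsRoot l (d.lam i) := by
    intro i hi
    rw [hS] at hi
    unfold CD.S at hi
    rw [Finset.mem_filter, Finset.mem_range] at hi
    rcases hlev.flag i hi.1 with h | ⟨-, h⟩ | ⟨h, -⟩
    · omega
    · exact ⟨hi.1, h⟩
    · omega
  have hS2 : ∀ i ∈ d.S l.length 2, ‖d.lam i‖ < d.ρ := by
    intro i hi
    unfold CD.S at hi
    rw [Finset.mem_filter, Finset.mem_range] at hi
    rcases hlev.flag i hi.1 with h | ⟨h, -⟩ | ⟨-, h⟩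
    · omega
    · omega
    · exact h
  have hγ : ∀ i ∈ S, ‖γ i‖ = 1 := by
    intro i hi
    simp only [hγdef]
    rw [norm_div, (hSr i hi).2.1, Complex.norm_real, Real.norm_of_nonneg hρ.le, div_self hρ.ne']
  have hγn : ∀ i ∈ S, ∀ n : ℕ, ‖γ i ^ n‖ = 1 := fun i hi n => by rw [norm_pow, hγ i hi, one_pow]
  have hz1 : ∀ i ∈ S, ‖z i‖ = 1 := by
    intro i hi
    by_contra hcon
    have h0 : 0 < |1 - ‖z i‖| := abs_pos.2 (fun h => hcon (by linarith))
    obtain ⟨t, -, ht⟩ := hz _ h0 0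
    have h1 := ht i hi
    have h2 := abs_norm_sub_norm_le (γ i ^ (d.m + d.q * t)) (z i)
    rw [hγn i hi] at h2
    linarith
  have hq1 := hlev.q1
  have hidx : ∀ t, t ≤ d.m + d.q * t := fun t => by
    have : t ≤ d.q * t := Nat.le_mul_of_pos_left _ hq1
    omega
  have hkey : ∀ t, l.length ≤ t → (((seq l (d.m + d.q * t) : ℚ) : ℝ)) =
      (∑ i ∈ S, ∑ j ∈ Finset.range (d.J + 1),
        d.c i j * ((d.m + d.q * t).choose j : ℂ) * d.lam i ^ (d.m + d.q * t) +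
      ∑ i ∈ d.S l.length 2, ∑ j ∈ Finset.range l.length,
        d.c i j * ((d.m + d.q * t).choose j : ℂ) * d.lam i ^ (d.m + d.q * t)).re := by
    intro t ht
    have h1 := hidx t
    have h2 := (hrep (d.m + d.q * t + 1)).2.2 (d.m + d.q * t) (by omega) (by omega)
    rw [snd_split t_VAN l d hlev hJ t] at h2
    rw [← h2]
    rw [← Complex.ofReal_ratCast, Complex.ofReal_re]
  -- the dominant part is almost nonnegative
  have hlow : ∀ δ : ℝ, 0 < δ → ∃ T, ∀ t, T ≤ t →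
      -δ < (∑ i ∈ S, d.c i d.J * γ i ^ (d.m + d.q * t)).re := by
    intro δ hδ
    obtain ⟨T, hT⟩ := t_ASY l.length S (d.S l.length 2) d.lam d.c d.ρ δ d.J hρ hδ hJ
      (fun i hi => (hSr i hi).2.1) hS2
    refine ⟨T + N1 + l.length, fun t ht => ?_⟩
    by_contra hcon
    have h1 := hidx t
    have h2 := hT (d.m + d.q * t) (by omega) (not_lt.1 hcon)
    rw [← hkey t (by omega)] at h2
    have h3 := hN1 (d.m + d.q * t) (by omega)
    have h4 : (0 : ℝ) < ((seq l (d.m + d.q * t) : ℚ) : ℝ) := by exact_mod_cast h3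
    linarith
  -- the reflected points
  have hrefl : ∀ t, 0 ≤ (∑ i ∈ S, d.c i d.J *
      (z i ^ 2 * (starRingEnd ℂ) (γ i ^ (d.m + d.q * t)))).re := by
    intro t
    by_contra hcon
    rw [not_le] at hcon
    set R := (∑ i ∈ S, d.c i d.J * (z i ^ 2 * (starRingEnd ℂ) (γ i ^ (d.m + d.q * t)))).re with hRd
    obtain ⟨T, hT⟩ := hlow (-R / 2) (by linarith)
    have hsum : 0 ≤ ∑ i ∈ S, ‖d.c i d.J‖ := Finset.sum_nonneg fun i _ => norm_nonneg _
    have hden : 0 < 1 + ∑ i ∈ S, ‖d.c i d.J‖ := by linarith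
    obtain ⟨s, hs, hs2⟩ := hz (-R / 4 / (1 + ∑ i ∈ S, ‖d.c i d.J‖))
      (div_pos (by linarith) hden) (T + t)
    have h1 := hT (2 * s - t) (by omega)
    have h2 : ‖∑ i ∈ S, d.c i d.J * γ i ^ (d.m + d.q * (2 * s - t)) -
        ∑ i ∈ S, d.c i d.J * (z i ^ 2 * (starRingEnd ℂ) (γ i ^ (d.m + d.q * t)))‖ ≤ -R / 2 := by
      rw [← Finset.sum_sub_distrib]
      calc ‖∑ i ∈ S, (d.c i d.J * γ i ^ (d.m + d.q * (2 * s - t)) -
            d.c i d.J * (z i ^ 2 * (starRingEnd ℂ) (γ i ^ (d.m + d.q * t))))‖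
          ≤ ∑ i ∈ S, ‖d.c i d.J * γ i ^ (d.m + d.q * (2 * s - t)) -
            d.c i d.J * (z i ^ 2 * (starRingEnd ℂ) (γ i ^ (d.m + d.q * t)))‖ := norm_sum_le _ _
        _ ≤ ∑ i ∈ S, ‖d.c i d.J‖ * (2 * (-R / 4 / (1 + ∑ i ∈ S, ‖d.c i d.J‖))) := by
            refine Finset.sum_le_sum fun i hi => ?_
            have e1 : γ i ^ (d.m + d.q * (2 * s - t)) =
                (γ i ^ (d.m + d.q * s)) ^ 2 * (starRingEnd ℂ) (γ i ^ (d.m + d.q * t)) := by
              have e2 : γ i ^ (d.m + d.q * (2 * s - t)) * γ i ^ (d.m + d.q * t) =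
                  (γ i ^ (d.m + d.q * s)) ^ 2 := by
                rw [← pow_add, ← pow_mul]
                congr 1
                have : t ≤ 2 * s := by omega
                zify [this]
                ring
              have e3 : γ i ^ (d.m + d.q * t) * (starRingEnd ℂ) (γ i ^ (d.m + d.q * t)) = 1 := by
                rw [Complex.mul_conj, Complex.normSq_eq_norm_sq, hγn i hi]
                norm_num
              rw [← e2, mul_assoc, e3, mul_one]
            rw [e1, ← mul_sub, ← sub_mul, norm_mul, norm_mul, RCLike.norm_conj, hγn i hi, mul_one]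
            refine mul_le_mul_of_nonneg_left ?_ (norm_nonneg _)
            have e4 : (γ i ^ (d.m + d.q * s)) ^ 2 - z i ^ 2 =
                (γ i ^ (d.m + d.q * s) + z i) * (γ i ^ (d.m + d.q * s) - z i) := by ring
            rw [e4, norm_mul]
            have e5 : ‖γ i ^ (d.m + d.q * s) + z i‖ ≤ 2 := by
              refine (norm_add_le _ _).trans ?_
              rw [hγn i hi, hz1 i hi]
              norm_num
            exact mul_le_mul e5 (hs2 i hi).le (norm_nonneg _) (by norm_num)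
        _ = (∑ i ∈ S, ‖d.c i d.J‖) * (-R / 2 / (1 + ∑ i ∈ S, ‖d.c i d.J‖)) := by
            rw [← Finset.sum_mul]
            ring
        _ ≤ -R / 2 := by
            rw [mul_div_assoc', div_le_iff₀ hden]
            nlinarith
    have h3 := (Complex.abs_re_le_norm _).trans h2
    rw [Complex.sub_re] at h3
    have h4 := (abs_le.1 h3).2
    rw [← hRd] at h4
    linarith
  have hup : ∀ t, (∑ i ∈ S, d.c i d.J * γ i ^ (d.m + d.q * t)).re ≤
      ∑ i ∈ S, ‖d.c i d.J‖ * ‖γ i ^ (d.m + d.q * t) - z i‖ ^ 2 := fun t =>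
    second_order S (fun i => d.c i d.J) z (fun i => γ i ^ (d.m + d.q * t)) hz1
      (fun i hi => hγn i hi _) hle (hrefl t)
  -- the constants
  set P := (∑ i ∈ S, d.c i (d.J - 1) * z i).re with hP
  set δ : ℝ := -P / 4 with hδ
  have hδ0 : 0 < δ := by rw [hδ]; linarith
  have hsum1 : 0 ≤ ∑ i ∈ S, ‖d.c i (d.J - 1)‖ := Finset.sum_nonneg fun i _ => norm_nonneg _
  set ε0 : ℝ := 2 * δ / (1 + ∑ i ∈ S, ‖d.c i (d.J - 1)‖) with hε0
  have hε0p : 0 < ε0 := by
    rw [hε0]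
    exact div_pos (by linarith) (by linarith)
  -- good indices
  have hgood : ∃ C : ℝ, 0 ≤ C ∧ ∀ T : ℕ, ∃ t, T ≤ t ∧ 1 ≤ t ∧
      (∑ i ∈ S, ‖d.c i d.J‖ * ‖γ i ^ (d.m + d.q * t) - z i‖ ^ 2) * (t : ℝ) ^ 2 ≤ C ∧
      ∀ i ∈ S, ‖γ i ^ (d.m + d.q * t) - z i‖ < ε0 := by
    by_cases hall : ∀ i ∈ S, d.c i d.J = 0
    · refine ⟨0, le_rfl, fun T => ?_⟩
      obtain ⟨t, ht, ht2⟩ := hz ε0 hε0p (T + 1)
      refine ⟨t, by omega, by omega, ?_, ht2⟩
      rw [Finset.sum_eq_zero fun i hi => by rw [hall i hi, norm_zero, zero_mul], zero_mul]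
    · push Not at hall
      obtain ⟨i1, hi1, hne⟩ := hall
      have hcnt := count_of_coef l hl d.lam d.c hrep i1 d.J (hSr i1 hi1).1 hJ hne
      have hdep : ∀ i ∈ S, ∀ i' ∈ S, ∃ a b : ℤ, (a ≠ 0 ∨ b ≠ 0) ∧ γ i ^ a * γ i' ^ b = 1 := by
        intro i hi i' hi'
        obtain ⟨-, n1, r1⟩ := hSr i hi
        obtain ⟨-, n2, r2⟩ := hSr i' hi'
        obtain ⟨-, n3, r3⟩ := hSr i1 hi1
        obtain ⟨a, b, hab, h⟩ := hR (d.lam i1) ((t_ROOT l _ hl).1 r3) (by
          intro h0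
          rw [h0, norm_zero] at n3
          exact hρ.ne n3) (by omega) (d.lam i) ((t_ROOT l _ hl).1 r1) (d.lam i')
          ((t_ROOT l _ hl).1 r2) (by rw [n1, n3]) (by rw [n2, n3])
        rw [n1, n2] at h
        exact ⟨a, b, hab, h⟩
      obtain ⟨C, hC0, hC⟩ := approx_torus S γ z d.m d.q hγ hdep hz
      obtain ⟨M, hM⟩ := exists_nat_gt (C / ε0)
      have hsumc : 0 ≤ ∑ i ∈ S, ‖d.c i d.J‖ := Finset.sum_nonneg fun i _ => norm_nonneg _
      refine ⟨(∑ i ∈ S, ‖d.c i d.J‖) * C ^ 2, by positivity, fun T => ?_⟩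
      obtain ⟨t, ht, ht1, ht2⟩ := hC (T + M)
      have htp : (0 : ℝ) < t := by exact_mod_cast ht1
      refine ⟨t, by omega, ht1, ?_, fun i hi => ?_⟩
      · rw [Finset.sum_mul, Finset.sum_mul]
        refine Finset.sum_le_sum fun i hi => ?_
        have h1 := ht2 i hi
        calc ‖d.c i d.J‖ * ‖γ i ^ (d.m + d.q * t) - z i‖ ^ 2 * (t : ℝ) ^ 2
            = ‖d.c i d.J‖ * (‖γ i ^ (d.m + d.q * t) - z i‖ * t) ^ 2 := by ring
          _ ≤ ‖d.c i d.J‖ * C ^ 2 := by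
            refine mul_le_mul_of_nonneg_left ?_ (norm_nonneg _)
            exact pow_le_pow_left₀ (by positivity) h1 2
      · have h1 := ht2 i hi
        have h2 : C < ε0 * t := by
          have h3 : (M : ℝ) ≤ t := by exact_mod_cast (by omega : M ≤ t)
          rw [div_lt_iff₀ hε0p] at hM
          nlinarith
        by_contra hcon
        have h4 := mul_le_mul_of_nonneg_right (not_lt.1 hcon) htp.le
        linarith
  obtain ⟨C, hC0, hC⟩ := hgood
  obtain ⟨T3, hT3⟩ := asy_quant l.length S (d.S l.length 2) d.lam d.c d.ρ δ δ (d.J - 1) hρ hδ0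
    (by omega) (fun i hi => (hSr i hi).2.1) hS2
  obtain ⟨M, hM⟩ := exists_nat_gt (((d.m + d.q : ℕ) : ℝ) * C / δ)
  obtain ⟨t, ht, ht1, ht2, ht3⟩ := hC (T3 + N1 + l.length + M)
  set n := d.m + d.q * t with hn
  have hnt := hidx t
  have htp : (0 : ℝ) < t := by exact_mod_cast ht1
  -- the second part
  have hψ : (∑ i ∈ S, d.c i (d.J - 1) * (d.lam i / (d.ρ : ℂ)) ^ n).re ≤ -δ - δ := by
    have h1 : ‖∑ i ∈ S, d.c i (d.J - 1) * γ i ^ n - ∑ i ∈ S, d.c i (d.J - 1) * z i‖ ≤ 2 * δ := by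
      rw [← Finset.sum_sub_distrib]
      calc ‖∑ i ∈ S, (d.c i (d.J - 1) * γ i ^ n - d.c i (d.J - 1) * z i)‖
          ≤ ∑ i ∈ S, ‖d.c i (d.J - 1) * γ i ^ n - d.c i (d.J - 1) * z i‖ := norm_sum_le _ _
        _ ≤ ∑ i ∈ S, ‖d.c i (d.J - 1)‖ * ε0 := by
            refine Finset.sum_le_sum fun i hi => ?_
            rw [← mul_sub, norm_mul]
            exact mul_le_mul_of_nonneg_left (ht3 i hi).le (norm_nonneg _)
        _ = (∑ i ∈ S, ‖d.c i (d.J - 1)‖) * ε0 := by rw [Finset.sum_mul]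
        _ ≤ 2 * δ := by
            rw [hε0, mul_div_assoc', div_le_iff₀ (by linarith)]
            nlinarith
    have h2 := (Complex.abs_re_le_norm _).trans h1
    rw [Complex.sub_re] at h2
    have h3 := (abs_le.1 h2).2
    rw [← hP] at h3
    have h4 : P = -(4 * δ) := by rw [hδ]; ring
    linarith
  have h5 := hT3 n (by omega) hψ
  rw [Nat.sub_add_cancel hJ0] at h5
  have h6 := hN1 n (by omega)
  have h7 : (0 : ℝ) < ((seq l n : ℚ) : ℝ) := by exact_mod_cast h6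
  rw [hn, hkey t (by omega), ← hn] at h7
  have h8 : ∑ i ∈ S, ∑ j ∈ Finset.range (d.J + 1), d.c i j * (n.choose j : ℂ) * d.lam i ^ n =
      ∑ i ∈ S, ∑ j ∈ Finset.range d.J, d.c i j * (n.choose j : ℂ) * d.lam i ^ n +
      (((n.choose d.J : ℝ) * d.ρ ^ n : ℝ) : ℂ) * ∑ i ∈ S, d.c i d.J * γ i ^ n := by
    rw [Finset.mul_sum, ← Finset.sum_add_distrib]
    refine Finset.sum_congr rfl fun i _ => ?_
    rw [Finset.sum_range_succ]
    congr 1
    simp only [hγdef]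
    rw [div_pow]
    push_cast
    field_simp
  rw [h8, Complex.add_re, Complex.add_re, Complex.re_ofReal_mul] at h7
  rw [Complex.add_re] at h5
  have h9 := hup t
  rw [← hn] at h9
  -- the binomial coefficients
  have h10 : (n.choose d.J : ℝ) ≤ (n.choose (d.J - 1) : ℝ) * n := by
    have h11 := Nat.choose_succ_right_eq n (d.J - 1)
    rw [Nat.sub_add_cancel hJ0] at h11
    have h12 : n.choose d.J ≤ n.choose (d.J - 1) * n := by
      calc n.choose d.J ≤ n.choose d.J * d.J := Nat.le_mul_of_pos_right _ hJ0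
        _ = n.choose (d.J - 1) * (n - (d.J - 1)) := h11
        _ ≤ n.choose (d.J - 1) * n := Nat.mul_le_mul_left _ (Nat.sub_le _ _)
    exact_mod_cast h12
  have h13 : (n : ℝ) ≤ ((d.m + d.q : ℕ) : ℝ) * t := by
    have : n ≤ (d.m + d.q) * t := by
      rw [hn]
      nlinarith
    exact_mod_cast this
  have h14 : (∑ i ∈ S, d.c i d.J * γ i ^ n).re ≤ C / (t : ℝ) ^ 2 := by
    rw [le_div_iff₀ (by positivity)]
    exact (mul_le_mul_of_nonneg_right h9 (by positivity)).trans ht2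
  have h15 : (n.choose d.J : ℝ) * (∑ i ∈ S, d.c i d.J * γ i ^ n).re ≤
      δ * (n.choose (d.J - 1) : ℝ) := by
    have h16 : (0 : ℝ) ≤ (n.choose d.J : ℝ) := Nat.cast_nonneg _
    have h17 : (0 : ℝ) ≤ (n.choose (d.J - 1) : ℝ) := Nat.cast_nonneg _
    have hCt : 0 ≤ C / (t : ℝ) ^ 2 := by positivity
    have h18 : ((d.m + d.q : ℕ) : ℝ) * C / t ≤ δ := by
      rw [div_le_iff₀ htp]
      rw [div_lt_iff₀ hδ0] at hM
      have h19 : (M : ℝ) ≤ t := by exact_mod_cast (by omega : M ≤ t)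
      nlinarith
    calc (n.choose d.J : ℝ) * (∑ i ∈ S, d.c i d.J * γ i ^ n).re
        ≤ (n.choose d.J : ℝ) * (C / (t : ℝ) ^ 2) := mul_le_mul_of_nonneg_left h14 h16
      _ ≤ ((n.choose (d.J - 1) : ℝ) * (((d.m + d.q : ℕ) : ℝ) * t)) * (C / (t : ℝ) ^ 2) := by
          refine mul_le_mul_of_nonneg_right (h10.trans ?_) hCt
          exact mul_le_mul_of_nonneg_left h13 h17
      _ = (n.choose (d.J - 1) : ℝ) * (((d.m + d.q : ℕ) : ℝ) * C / t) := by
          field_simp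
      _ ≤ (n.choose (d.J - 1) : ℝ) * δ := mul_le_mul_of_nonneg_left h18 h17
      _ = _ := by ring
  have hρn : 0 < d.ρ ^ n := by positivity
  have h20 : (n.choose d.J : ℝ) * d.ρ ^ n * (∑ i ∈ S, d.c i d.J * γ i ^ n).re ≤
      δ * (n.choose (d.J - 1) : ℝ) * d.ρ ^ n := by
    calc _ = (n.choose d.J : ℝ) * (∑ i ∈ S, d.c i d.J * γ i ^ n).re * d.ρ ^ n := by ring
      _ ≤ _ := mul_le_mul_of_nonneg_right h15 hρn.le
  linarith

/-- Certificates of the second order are sound in rank at most one. -/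
theorem snd2 : ∃ A0 : ℕ, ∀ (l : Rec) (Nb : ℕ), 1 ≤ l.length → RankOne l →
    Cert2 l Nb (A0 * Pool.Agent.H612.LR.sz l ^ A0) → ¬ UltPositive l := by
  obtain ⟨A0, hA0⟩ := dens
  refine ⟨A0, fun l Nb hl hR ⟨d, hd⟩ => ?_⟩
  refine snd_main l d hl (t_RPU l d.lam d.c hl hd.rep) hd.lev hd.jlt hd.jpos hd.rpos
    (d.z l.length) ?_ hd.le hd.neg hR
  refine hA0 l d hl hd.rpos hd.lev.q1 ?_ hd.chain hd.xc
  intro i hi
  unfold CD.S at hi
  rw [Finset.mem_filter, Finset.mem_range] at hi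
  rcases hd.lev.flag i hi.1 with h | ⟨-, h⟩ | ⟨h, -⟩
  · omega
  · exact ⟨h.2, h.1⟩
  · omega

end Pool.Agent.J4H65.RO
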