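import Pool.Agent.J4H65.RO.Snd3
import Pool.Agent.J4H65.RO.Crc

/-!
# Certificates of the second order are sound for the recurrences which are not critical
-/

set_option autoImplicit false

namespace Pool.Agent.J4H65.RO

open Polynomial Filter Topology Pool.Agent.H612.LR Pool.Agent.J4H65.UP

/-- The dominant part of an ultimately positive recurrence is almost nonnegative. -/
theorem snd_low (l : Rec) (d : CD) (hrep : Rep l d.lam d.c) (hlev : d.Lev l)
    (hJ : d.J < l.length) (hρ : 0 < d.ρ) (hup : UltPositive l) : ∀ δ : ℝ, 0 < δ → ∃ T, ∀ t, T ≤ t →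
      -δ < (∑ i ∈ d.S l.length 1, d.c i d.J *
        (d.lam i / (d.ρ : ℂ)) ^ (d.m + d.q * t)).re := by
  classical
  obtain ⟨N1, hN1⟩ := hup
  set S := d.S l.length 1 with hS
  set γ : ℕ → ℂ := fun i => d.lam i / (d.ρ : ℂ) with hγdef
  have hρc : (d.ρ : ℂ) ≠ 0 := by exact_mod_cast hρ.ne'
  have hSr : ∀ i ∈ S, i < l.length ∧ ‖d.lam i‖ = d.ρ ∧ IsRoot l (d.lam i) := by
    intro i hi
    rw [hS] at hi
    unfold CD.S at hi
    rw [Finset.mem_filter, Finset.mem_range] at hi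
    rcases hlev.flag i hi.1 with h | ⟨-, h⟩ | ⟨h, -⟩
    · omega
    · exact ⟨hi.1, h⟩
    · omega
  have hS2 : ∀ i ∈ d.S l.length 2, ‖d.lam i‖ < d.ρ := by
    intro i hi
    unfold CD.S at hi
    rw [Finset.mem_filter, Finset.mem_range] at hi
    rcases hlev.flag i hi.1 with h | ⟨h, -⟩ | ⟨-, h⟩
    · omega
    · omega
    · exact h
  have hγ : ∀ i ∈ S, ‖γ i‖ = 1 := by
    intro i hi
    simp only [hγdef]
    rw [norm_div, (hSr i hi).2.1, Complex.norm_real, Real.norm_of_nonneg hρ.le, div_self hρ.ne']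
  have hγn : ∀ i ∈ S, ∀ n : ℕ, ‖γ i ^ n‖ = 1 := fun i hi n => by rw [norm_pow, hγ i hi, one_pow]
  have hq1 := hlev.q1
  have hidx : ∀ t, t ≤ d.m + d.q * t := fun t => by
    have : t ≤ d.q * t := Nat.le_mul_of_pos_left _ hq1
    omega
  have hkey : ∀ t, l.length ≤ t → (((seq l (d.m + d.q * t) : ℚ) : ℝ)) =
      (∑ i ∈ S, ∑ j ∈ Finset.range (d.J + 1),
        d.c i j * ((d.m + d.q * t).choose j : ℂ) * d.lam i ^ (d.m + d.q * t) +
      ∑ i ∈ d.S l.length 2, ∑ j ∈ Finset.range l.length,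
        d.c i j * ((d.m + d.q * t).choose j : ℂ) * d.lam i ^ (d.m + d.q * t)).re := by
    intro t ht
    have h1 := hidx t
    have h2 := (hrep (d.m + d.q * t + 1)).2.2 (d.m + d.q * t) (by omega) (by omega)
    rw [snd_split t_VAN l d hlev hJ t] at h2
    rw [← h2]
    rw [← Complex.ofReal_ratCast, Complex.ofReal_re]
  intro δ hδ
  obtain ⟨T, hT⟩ := t_ASY l.length S (d.S l.length 2) d.lam d.c d.ρ δ d.J hρ hδ hJ
    (fun i hi => (hSr i hi).2.1) hS2
  refine ⟨T + N1 + l.length, fun t ht => ?_⟩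
  by_contra hcon
  have h1 := hidx t
  have h2 := hT (d.m + d.q * t) (by omega) (not_lt.1 hcon)
  rw [← hkey t (by omega)] at h2
  have h3 := hN1 (d.m + d.q * t) (by omega)
  have h4 : (0 : ℝ) < ((seq l (d.m + d.q * t) : ℚ) : ℝ) := by exact_mod_cast h3
  linarith

/-- Good indices show that the recurrence is not ultimately positive. -/
theorem snd_core (l : Rec) (d : CD) (hrep : Rep l d.lam d.c) (hlev : d.Lev l)
    (hJ : d.J < l.length) (hJ0 : 0 < d.J) (hρ : 0 < d.ρ) (z : ℕ → ℂ)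
    (hneg : (∑ i ∈ d.S l.length 1, d.c i (d.J - 1) * z i).re < 0)
    (hgood : ∃ C : ℝ, 0 ≤ C ∧ ∀ ε : ℝ, 0 < ε → ∀ T : ℕ, ∃ t, T ≤ t ∧ 1 ≤ t ∧
      (∑ i ∈ d.S l.length 1, d.c i d.J *
        (d.lam i / (d.ρ : ℂ)) ^ (d.m + d.q * t)).re * (t : ℝ) ^ 2 ≤ C ∧
      ∀ i ∈ d.S l.length 1, ‖(d.lam i / (d.ρ : ℂ)) ^ (d.m + d.q * t) - z i‖ < ε) :
    ¬ UltPositive l := by
  classical
  rintro ⟨N1, hN1⟩
  set S := d.S l.length 1 with hS
  set γ : ℕ → ℂ := fun i => d.lam i / (d.ρ : ℂ) with hγdef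
  have hρc : (d.ρ : ℂ) ≠ 0 := by exact_mod_cast hρ.ne'
  have hSr : ∀ i ∈ S, i < l.length ∧ ‖d.lam i‖ = d.ρ ∧ IsRoot l (d.lam i) := by
    intro i hi
    rw [hS] at hi
    unfold CD.S at hi
    rw [Finset.mem_filter, Finset.mem_range] at hi
    rcases hlev.flag i hi.1 with h | ⟨-, h⟩ | ⟨h, -⟩
    · omega
    · exact ⟨hi.1, h⟩
    · omega
  have hS2 : ∀ i ∈ d.S l.length 2, ‖d.lam i‖ < d.ρ := by
    intro i hi
    unfold CD.S at hi
    rw [Finset.mem_filter, Finset.mem_range] at hi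
    rcases hlev.flag i hi.1 with h | ⟨h, -⟩ | ⟨-, h⟩
    · omega
    · omega
    · exact h
  have hγ : ∀ i ∈ S, ‖γ i‖ = 1 := by
    intro i hi
    simp only [hγdef]
    rw [norm_div, (hSr i hi).2.1, Complex.norm_real, Real.norm_of_nonneg hρ.le, div_self hρ.ne']
  have hγn : ∀ i ∈ S, ∀ n : ℕ, ‖γ i ^ n‖ = 1 := fun i hi n => by rw [norm_pow, hγ i hi, one_pow]
  have hq1 := hlev.q1
  have hidx : ∀ t, t ≤ d.m + d.q * t := fun t => by
    have : t ≤ d.q * t := Nat.le_mul_of_pos_left _ hq1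
    omega
  have hkey : ∀ t, l.length ≤ t → (((seq l (d.m + d.q * t) : ℚ) : ℝ)) =
      (∑ i ∈ S, ∑ j ∈ Finset.range (d.J + 1),
        d.c i j * ((d.m + d.q * t).choose j : ℂ) * d.lam i ^ (d.m + d.q * t) +
      ∑ i ∈ d.S l.length 2, ∑ j ∈ Finset.range l.length,
        d.c i j * ((d.m + d.q * t).choose j : ℂ) * d.lam i ^ (d.m + d.q * t)).re := by
    intro t ht
    have h1 := hidx t
    have h2 := (hrep (d.m + d.q * t + 1)).2.2 (d.m + d.q * t) (by omega) (by omega)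
    rw [snd_split t_VAN l d hlev hJ t] at h2
    rw [← h2]
    rw [← Complex.ofReal_ratCast, Complex.ofReal_re]
  -- the constants
  set P := (∑ i ∈ S, d.c i (d.J - 1) * z i).re with hP
  set δ : ℝ := -P / 4 with hδ
  have hδ0 : 0 < δ := by rw [hδ]; linarith
  have hsum1 : 0 ≤ ∑ i ∈ S, ‖d.c i (d.J - 1)‖ := Finset.sum_nonneg fun i _ => norm_nonneg _
  set ε0 : ℝ := 2 * δ / (1 + ∑ i ∈ S, ‖d.c i (d.J - 1)‖) with hε0
  have hε0p : 0 < ε0 := by
    rw [hε0]
    exact div_pos (by linarith) (by linarith)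
  obtain ⟨C, hC0, hCg⟩ := hgood
  have hC := hCg ε0 hε0p
  obtain ⟨T3, hT3⟩ := asy_quant l.length S (d.S l.length 2) d.lam d.c d.ρ δ δ (d.J - 1) hρ hδ0
    (by omega) (fun i hi => (hSr i hi).2.1) hS2
  obtain ⟨M, hM⟩ := exists_nat_gt (((d.m + d.q : ℕ) : ℝ) * C / δ)
  obtain ⟨t, ht, ht1, ht2, ht3⟩ := hC (T3 + N1 + l.length + M)
  set n := d.m + d.q * t with hn
  have hnt := hidx t
  have htp : (0 : ℝ) < t := by exact_mod_cast ht1
  -- the second part
  have hψ : (∑ i ∈ S, d.c i (d.J - 1) * (d.lam i / (d.ρ : ℂ)) ^ n).re ≤ -δ - δ := by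
    have h1 : ‖∑ i ∈ S, d.c i (d.J - 1) * γ i ^ n - ∑ i ∈ S, d.c i (d.J - 1) * z i‖ ≤ 2 * δ := by
      rw [← Finset.sum_sub_distrib]
      calc ‖∑ i ∈ S, (d.c i (d.J - 1) * γ i ^ n - d.c i (d.J - 1) * z i)‖
          ≤ ∑ i ∈ S, ‖d.c i (d.J - 1) * γ i ^ n - d.c i (d.J - 1) * z i‖ := norm_sum_le _ _
        _ ≤ ∑ i ∈ S, ‖d.c i (d.J - 1)‖ * ε0 := by
            refine Finset.sum_le_sum fun i hi => ?_
            rw [← mul_sub, norm_mul]
            exact mul_le_mul_of_nonneg_left (ht3 i hi).le (norm_nonneg _)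
        _ = (∑ i ∈ S, ‖d.c i (d.J - 1)‖) * ε0 := by rw [Finset.sum_mul]
        _ ≤ 2 * δ := by
            rw [hε0, mul_div_assoc', div_le_iff₀ (by linarith)]
            nlinarith
    have h2 := (Complex.abs_re_le_norm _).trans h1
    rw [Complex.sub_re] at h2
    have h3 := (abs_le.1 h2).2
    rw [← hP] at h3
    have h4 : P = -(4 * δ) := by rw [hδ]; ring
    linarith
  have h5 := hT3 n (by omega) hψ
  rw [Nat.sub_add_cancel hJ0] at h5
  have h6 := hN1 n (by omega)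
  have h7 : (0 : ℝ) < ((seq l n : ℚ) : ℝ) := by exact_mod_cast h6
  rw [hn, hkey t (by omega), ← hn] at h7
  have h8 : ∑ i ∈ S, ∑ j ∈ Finset.range (d.J + 1), d.c i j * (n.choose j : ℂ) * d.lam i ^ n =
      ∑ i ∈ S, ∑ j ∈ Finset.range d.J, d.c i j * (n.choose j : ℂ) * d.lam i ^ n +
      (((n.choose d.J : ℝ) * d.ρ ^ n : ℝ) : ℂ) * ∑ i ∈ S, d.c i d.J * γ i ^ n := by
    rw [Finset.mul_sum, ← Finset.sum_add_distrib]
    refine Finset.sum_congr rfl fun i _ => ?_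
    rw [Finset.sum_range_succ]
    congr 1
    simp only [hγdef]
    rw [div_pow]
    push_cast
    field_simp
  rw [h8, Complex.add_re, Complex.add_re, Complex.re_ofReal_mul] at h7
  rw [Complex.add_re] at h5
  -- the binomial coefficients
  have h10 : (n.choose d.J : ℝ) ≤ (n.choose (d.J - 1) : ℝ) * n := by
    have h11 := Nat.choose_succ_right_eq n (d.J - 1)
    rw [Nat.sub_add_cancel hJ0] at h11
    have h12 : n.choose d.J ≤ n.choose (d.J - 1) * n := by
      calc n.choose d.J ≤ n.choose d.J * d.J := Nat.le_mul_of_pos_right _ hJ0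
        _ = n.choose (d.J - 1) * (n - (d.J - 1)) := h11
        _ ≤ n.choose (d.J - 1) * n := Nat.mul_le_mul_left _ (Nat.sub_le _ _)
    exact_mod_cast h12
  have h13 : (n : ℝ) ≤ ((d.m + d.q : ℕ) : ℝ) * t := by
    have : n ≤ (d.m + d.q) * t := by
      rw [hn]
      nlinarith
    exact_mod_cast this
  have h14 : (∑ i ∈ S, d.c i d.J * γ i ^ n).re ≤ C / (t : ℝ) ^ 2 := by
    rw [le_div_iff₀ (by positivity)]
    exact ht2
  have h15 : (n.choose d.J : ℝ) * (∑ i ∈ S, d.c i d.J * γ i ^ n).re ≤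
      δ * (n.choose (d.J - 1) : ℝ) := by
    have h16 : (0 : ℝ) ≤ (n.choose d.J : ℝ) := Nat.cast_nonneg _
    have h17 : (0 : ℝ) ≤ (n.choose (d.J - 1) : ℝ) := Nat.cast_nonneg _
    have hCt : 0 ≤ C / (t : ℝ) ^ 2 := by positivity
    have h18 : ((d.m + d.q : ℕ) : ℝ) * C / t ≤ δ := by
      rw [div_le_iff₀ htp]
      rw [div_lt_iff₀ hδ0] at hM
      have h19 : (M : ℝ) ≤ t := by exact_mod_cast (by omega : M ≤ t)
      nlinarith
    calc (n.choose d.J : ℝ) * (∑ i ∈ S, d.c i d.J * γ i ^ n).re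
        ≤ (n.choose d.J : ℝ) * (C / (t : ℝ) ^ 2) := mul_le_mul_of_nonneg_left h14 h16
      _ ≤ ((n.choose (d.J - 1) : ℝ) * (((d.m + d.q : ℕ) : ℝ) * t)) * (C / (t : ℝ) ^ 2) := by
          refine mul_le_mul_of_nonneg_right (h10.trans ?_) hCt
          exact mul_le_mul_of_nonneg_left h13 h17
      _ = (n.choose (d.J - 1) : ℝ) * (((d.m + d.q : ℕ) : ℝ) * C / t) := by
          field_simp
      _ ≤ (n.choose (d.J - 1) : ℝ) * δ := mul_le_mul_of_nonneg_left h18 h17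
      _ = _ := by ring
  have hρn : 0 < d.ρ ^ n := by positivity
  have h20 : (n.choose d.J : ℝ) * d.ρ ^ n * (∑ i ∈ S, d.c i d.J * γ i ^ n).re ≤
      δ * (n.choose (d.J - 1) : ℝ) * d.ρ ^ n := by
    calc _ = (n.choose d.J : ℝ) * (∑ i ∈ S, d.c i d.J * γ i ^ n).re * d.ρ ^ n := by ring
      _ ≤ _ := mul_le_mul_of_nonneg_right h15 hρn.le
  linarith


/-- A certificate of the second order for an ultimately positive recurrence shows that the
recurrence is critical. -/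
theorem cert_crit (l : Rec) (d : CD) (hrep : Rep l d.lam d.c) (hlev : d.Lev l)
    (hJ : d.J < l.length) (hJ0 : 0 < d.J) (hρ : 0 < d.ρ) (z : ℕ → ℂ)
    (hz : ∀ ε : ℝ, 0 < ε → ∀ T : ℕ, ∃ t, T ≤ t ∧ ∀ i ∈ d.S l.length 1,
      ‖(d.lam i / (d.ρ : ℂ)) ^ (d.m + d.q * t) - z i‖ < ε)
    (hle : (∑ i ∈ d.S l.length 1, d.c i d.J * z i).re ≤ 0)
    (hneg : (∑ i ∈ d.S l.length 1, d.c i (d.J - 1) * z i).re < 0)
    (hup : UltPositive l) : Critical l := by
  classical
  set S := d.S l.length 1 with hS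
  set γ : ℕ → ℂ := fun i => d.lam i / (d.ρ : ℂ) with hγdef
  have hlow := snd_low l d hrep hlev hJ hρ hup
  have hq1 := hlev.q1
  have hγ : ∀ i ∈ S, ‖γ i‖ = 1 := fun i hi => unit_S1 hlev hρ i hi
  refine ⟨d.ρ, d.J, hρ, hJ0, fun q hq => ?_⟩
  set F : ℕ → ℝ := fun t => ∑ i ∈ S, ‖γ i ^ (d.m + d.q * t) - z i‖ with hF
  have hsm : ∀ ε : ℝ, 0 < ε → ∀ T : ℕ, ∃ t, T ≤ t ∧ F t < ε := by
    intro ε hε T
    have hc : (0 : ℝ) < S.card + 1 := by positivity
    obtain ⟨t, ht, h⟩ := hz (ε / (S.card + 1)) (by positivity) T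
    refine ⟨t, ht, ?_⟩
    calc F t ≤ ∑ _i ∈ S, ε / (S.card + 1) := Finset.sum_le_sum fun i hi => (h i hi).le
      _ = S.card * (ε / (S.card + 1)) := by rw [Finset.sum_const, nsmul_eq_mul]
      _ < ε := by
        rw [mul_div_assoc', div_lt_iff₀ hc]
        nlinarith
  obtain ⟨a', -, hsm'⟩ := pigeon_small F hsm q hq
  have hle' : ∀ t, t ≤ a' + q * t := fun t => by
    have : t ≤ q * t := Nat.le_mul_of_pos_left _ hq
    omega
  have hpt : ∀ t, ∀ i ∈ S, ‖γ i ^ (d.m + d.q * t) - z i‖ ≤ F t := fun t i hi =>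
    Finset.single_le_sum (f := fun i => ‖γ i ^ (d.m + d.q * t) - z i‖)
      (fun i _ => norm_nonneg _) hi
  have hquo : quo l (d.m + d.q * a') (d.q * q) d.J d.ρ =
      fun t => quo l d.m d.q d.J d.ρ (a' + q * t) :=
    funext fun t => quo_sub l d.m d.q d.J d.ρ a' q t
  have hidx2 : ∀ t, d.m + d.q * a' + d.q * q * t = d.m + d.q * (a' + q * t) := fun t => by ring
  have htrig : Trig fun t => (dpart l.length d (a' + q * t)).re := by
    have h1 := trig_of S (fun i => d.c i d.J) γ (d.m + d.q * a') (d.q * q) hγ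
    have e : (fun t => (∑ i ∈ S, d.c i d.J * γ i ^ (d.m + d.q * a' + d.q * q * t)).re) =
        fun t => (dpart l.length d (a' + q * t)).re := by
      funext t
      rw [hidx2]
      rfl
    rwa [e] at h1
  obtain ⟨C, -, hC⟩ := trig_bdd htrig
  refine ⟨d.m + d.q * a', d.q * q, Nat.mul_pos hq1 hq, Dvd.intro_left _ rfl,
    crit_cond l d.ρ d.J (d.m + d.q * a') (d.q * q) (fun t => (dpart l.length d (a' + q * t)).re)
      (Nat.mul_pos hq1 hq) C hC ?_ ?_ ?_ ?_⟩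
  · intro ε hε
    obtain ⟨N, hN⟩ := (Metric.tendsto_atTop.1 (close l d hrep hlev hJ hρ)) ε hε
    refine ⟨N + d.J, fun t ht => ?_⟩
    have hlt := hle' t
    have hn : a' + q * t ≤ d.m + d.q * (a' + q * t) := by
      have : a' + q * t ≤ d.q * (a' + q * t) := Nat.le_mul_of_pos_left _ hq1
      omega
    have h1 := hN (a' + q * t) (by omega)
    rw [dist_zero_right] at h1
    have h2 := (Complex.abs_re_le_norm _).trans_lt h1
    rw [Complex.sub_re, Complex.ofReal_re] at h2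
    rw [hquo]
    show |quo l d.m d.q d.J d.ρ (a' + q * t) - _| < ε
    rw [hidx2, quo_eq l d hρ (a' + q * t) (by omega)]
    set κ : ℝ := ((d.m + d.q * (a' + q * t)).choose d.J : ℝ) /
      (((d.m + d.q * (a' + q * t) : ℕ) : ℝ) + 1) ^ d.J with hκ
    have hκ0 : 0 ≤ κ := by positivity
    have hκ1 : κ ≤ 1 := by
      rw [hκ, div_le_one (by positivity)]
      exact choose_le_pow' _ _
    have e : wn l d (a' + q * t) * κ - κ * (dpart l.length d (a' + q * t)).re =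
        κ * (wn l d (a' + q * t) - (dpart l.length d (a' + q * t)).re) := by ring
    rw [e, abs_mul, abs_of_nonneg hκ0]
    nlinarith [abs_nonneg (wn l d (a' + q * t) - (dpart l.length d (a' + q * t)).re)]
  · intro ε hε
    obtain ⟨T, hT⟩ := hlow ε hε
    exact ⟨T, fun t ht => hT (a' + q * t) (ht.trans (hle' t))⟩
  · intro ε hε N
    have hs : 0 ≤ ∑ i ∈ S, ‖d.c i d.J‖ := Finset.sum_nonneg fun i _ => norm_nonneg _
    have hden : 0 < 1 + ∑ i ∈ S, ‖d.c i d.J‖ := by linarith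
    obtain ⟨t, ht, h1⟩ := hsm' (ε / (1 + ∑ i ∈ S, ‖d.c i d.J‖)) (by positivity) N
    refine ⟨t, ht, ?_⟩
    have h2 : ‖dpart l.length d (a' + q * t) - ∑ i ∈ S, d.c i d.J * z i‖ ≤
        (∑ i ∈ S, ‖d.c i d.J‖) * (ε / (1 + ∑ i ∈ S, ‖d.c i d.J‖)) := by
      unfold dpart
      rw [← Finset.sum_sub_distrib]
      refine (norm_sum_le _ _).trans ?_
      rw [Finset.sum_mul]
      refine Finset.sum_le_sum fun i hi => ?_
      rw [← mul_sub, norm_mul]
      exact mul_le_mul_of_nonneg_left ((hpt _ i hi).trans h1.le) (norm_nonneg _)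
    have h3 := (Complex.abs_re_le_norm _).trans h2
    rw [Complex.sub_re] at h3
    have h4 := (abs_le.1 h3).2
    have h5 : (∑ i ∈ S, ‖d.c i d.J‖) * (ε / (1 + ∑ i ∈ S, ‖d.c i d.J‖)) < ε := by
      rw [mul_div_assoc', div_lt_iff₀ hden]
      nlinarith
    show (dpart l.length d (a' + q * t)).re < ε
    linarith
  · by_cases h0 : ∃ t, (dpart l.length d (a' + q * t)).re ≠ 0
    · obtain ⟨t0, ht0⟩ := h0
      exact trig_return htrig t0 ht0
    · exfalso
      push Not at h0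
      refine snd_core l d hrep hlev hJ hJ0 hρ z hneg ⟨0, le_rfl, fun ε hε T => ?_⟩ hup
      obtain ⟨t, ht, h1⟩ := hsm' ε hε (T + 1)
      have hlt := hle' t
      refine ⟨a' + q * t, by omega, by omega, ?_, fun i hi => (hpt _ i hi).trans_lt h1⟩
      have h2 := h0 t
      unfold dpart at h2
      rw [h2, zero_mul]

/-- Certificates of the second order are sound in rank at most one and for the recurrences which
are not critical. -/
theorem snd2' : ∃ A0 : ℕ, ∀ (l : Rec) (Nb : ℕ), 1 ≤ l.length → (RankOne l ∨ ¬ Critical l) →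
    Cert2 l Nb (A0 * Pool.Agent.H612.LR.sz l ^ A0) → ¬ UltPositive l := by
  obtain ⟨A0, hA0⟩ := dens
  refine ⟨A0, fun l Nb hl hR ⟨d, hd⟩ => ?_⟩
  have hrep := t_RPU l d.lam d.c hl hd.rep
  have hz := hA0 l d hl hd.rpos hd.lev.q1 (by
    intro i hi
    unfold CD.S at hi
    rw [Finset.mem_filter, Finset.mem_range] at hi
    rcases hd.lev.flag i hi.1 with h | ⟨-, h⟩ | ⟨h, -⟩
    · omega
    · exact ⟨h.2, h.1⟩
    · omega) hd.chain hd.xc
  rcases hR with hR | hR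
  · exact snd_main l d hl hrep hd.lev hd.jlt hd.jpos hd.rpos (d.z l.length) hz hd.le hd.neg hR
  · exact fun hup => hR (cert_crit l d hrep hd.lev hd.jlt hd.jpos hd.rpos (d.z l.length) hz hd.le
      hd.neg hup)

end Pool.Agent.J4H65.RO
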