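import Pool.Agent.J4H65.RO.Approx

/-!
# Approximation of the points of a one-dimensional orbit closure
-/

set_option autoImplicit false

namespace Pool.Agent.J4H65.RO

open Filter Topology Pool.Agent.H612.LR Pool.Agent.J4H65.UP

theorem ne_zero_of_unit {z : ℂ} (h : ‖z‖ = 1) : z ≠ 0 := by
  intro h0
  rw [h0, norm_zero] at h
  exact zero_ne_one h

/-- unimodular numbers which are pairwise multiplicatively dependent -/
theorem rank_struct (R : Finset ℕ) (γ : ℕ → ℂ) (hγ : ∀ i ∈ R, ‖γ i‖ = 1)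
    (hdep : ∀ i ∈ R, ∀ i' ∈ R, ∃ a b : ℤ, (a ≠ 0 ∨ b ≠ 0) ∧ γ i ^ a * γ i' ^ b = 1) :
    ∃ (D : ℕ) (ω : ℂ) (k : ℕ → ℤ), 1 ≤ D ∧ ‖ω‖ = 1 ∧ ∀ i ∈ R, γ i ^ D = ω ^ k i := by
  classical
  by_cases hall : ∀ i ∈ R, ∃ n : ℕ, 1 ≤ n ∧ γ i ^ n = 1
  · choose! n hn1 hn using hall
    refine ⟨∏ i ∈ R, n i, 1, fun _ => 0, ?_, norm_one, fun i hi => ?_⟩
    · exact Nat.one_le_iff_ne_zero.2 (Finset.prod_ne_zero_iff.2 fun i hi => by
        have := hn1 i hi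
        omega)
    · obtain ⟨c, hc⟩ := Finset.dvd_prod_of_mem n hi
      rw [hc, pow_mul, hn i hi, one_pow, zpow_zero]
  · push Not at hall
    obtain ⟨i0, hi0, hne⟩ := hall
    have h0 := ne_zero_of_unit (hγ i0 hi0)
    have hdep' : ∀ i ∈ R, ∃ a b : ℤ, a ≠ 0 ∧ γ i ^ a = γ i0 ^ b := by
      intro i hi
      obtain ⟨a, b, hab, h⟩ := hdep i hi i0 hi0
      have ha : a ≠ 0 := by
        intro ha
        rw [ha, zpow_zero, one_mul] at h
        have hb : b ≠ 0 := by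
          rcases hab with h1 | h1
          · exact absurd ha h1
          · exact h1
        refine hne b.natAbs (by omega) ?_
        rcases Int.natAbs_eq b with h2 | h2
        · rw [h2, zpow_natCast] at h
          exact h
        · rw [h2, zpow_neg, zpow_natCast, inv_eq_one] at h
          exact h
      refine ⟨a, -b, ha, ?_⟩
      rw [zpow_neg]
      exact eq_inv_of_mul_eq_one_left h
    choose! a b ha hab using hdep'
    refine ⟨∏ i ∈ R, (a i).natAbs, γ i0, fun i => b i *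
      (((∏ i ∈ R, (a i).natAbs : ℕ) : ℤ) / a i), ?_, hγ i0 hi0, fun i hi => ?_⟩
    · exact Nat.one_le_iff_ne_zero.2 (Finset.prod_ne_zero_iff.2 fun i hi => by
        have := ha i hi
        omega)
    · have hdvd : a i ∣ ((∏ i ∈ R, (a i).natAbs : ℕ) : ℤ) :=
        Int.natAbs_dvd.1 (Int.natCast_dvd_natCast.2 (Finset.dvd_prod_of_mem
          (fun i => (a i).natAbs) hi))
      have e : ((∏ i ∈ R, (a i).natAbs : ℕ) : ℤ) =
          a i * (((∏ i ∈ R, (a i).natAbs : ℕ) : ℤ) / a i) := (Int.mul_ediv_cancel' hdvd).symm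
      rw [← zpow_natCast, zpow_mul, ← hab i hi, ← zpow_mul, ← e]

theorem zpow_lip {x w : ℂ} (hx : ‖x‖ = 1) (hw : ‖w‖ = 1) (k : ℤ) :
    ‖x ^ k - w ^ k‖ ≤ (|k| : ℤ) * ‖x - w‖ := by
  have hw0 := ne_zero_of_unit hw
  have h1 : x ^ k - w ^ k = w ^ k * ((x / w) ^ k - 1) := by
    rw [div_zpow, mul_sub, mul_one, mul_div_cancel₀]
    exact zpow_ne_zero _ hw0
  have h2 : x - w = w * (x / w - 1) := by
    field_simp
  rw [h1, h2, norm_mul, norm_mul, norm_zpow, hw, one_zpow, one_mul, one_mul]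
  refine CoreAux.zpow_sub_one_le ?_ k
  rw [norm_div, hx, hw, div_one]

/-- Points of the orbit closure in the case of rank at most one are approximated with the error
`C / t`. -/
theorem approx_torus (R : Finset ℕ) (γ z : ℕ → ℂ) (m q : ℕ)
    (hγ : ∀ i ∈ R, ‖γ i‖ = 1)
    (hdep : ∀ i ∈ R, ∀ i' ∈ R, ∃ a b : ℤ, (a ≠ 0 ∨ b ≠ 0) ∧ γ i ^ a * γ i' ^ b = 1)
    (hz : ∀ ε : ℝ, 0 < ε → ∀ T : ℕ, ∃ t, T ≤ t ∧ ∀ i ∈ R, ‖γ i ^ (m + q * t) - z i‖ < ε) :
    ∃ C : ℝ, 0 ≤ C ∧ ∀ T : ℕ, ∃ t, T ≤ t ∧ 1 ≤ t ∧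
      ∀ i ∈ R, ‖γ i ^ (m + q * t) - z i‖ * t ≤ C := by
  classical
  obtain ⟨D, ω, k, hD, hω, hk⟩ := rank_struct R γ hγ hdep
  set F : ℕ → ℝ := fun t => ∑ i ∈ R, ‖γ i ^ (m + q * t) - z i‖ with hF
  have hsm : ∀ ε : ℝ, 0 < ε → ∀ T : ℕ, ∃ t, T ≤ t ∧ F t < ε := by
    intro ε hε T
    have hc : (0 : ℝ) < R.card + 1 := by positivity
    obtain ⟨t, ht, h⟩ := hz (ε / (R.card + 1)) (by positivity) T
    refine ⟨t, ht, ?_⟩
    calc F t ≤ ∑ _i ∈ R, ε / (R.card + 1) := Finset.sum_le_sum fun i hi => (h i hi).le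
      _ = R.card * (ε / (R.card + 1)) := by rw [Finset.sum_const, nsmul_eq_mul]
      _ < ε := by
        rw [mul_div_assoc', div_lt_iff₀ hc]
        nlinarith
  obtain ⟨r, hr, hsm'⟩ := pigeon_small F hsm D hD
  have hseq : ∀ n : ℕ, ∃ s : ℕ, n ≤ s ∧ F (r + D * s) < 1 / ((n : ℝ) + 1) := fun n => by
    obtain ⟨s, h1, h2⟩ := hsm' (1 / ((n : ℝ) + 1)) (by positivity) n
    exact ⟨s, h1, h2⟩
  choose s hs1 hs2 using hseq
  set ω' : ℂ := ω ^ q with hω'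
  have hω'1 : ‖ω'‖ = 1 := by rw [hω', norm_pow, hω, one_pow]
  have hmem : ∀ n, ω' ^ s n ∈ Metric.sphere (0 : ℂ) 1 := fun n => by
    rw [mem_sphere_zero_iff_norm, norm_pow, hω'1, one_pow]
  obtain ⟨w, hw, θ, hθ, hlim⟩ := (isCompact_sphere (0 : ℂ) 1).tendsto_subseq hmem
  have hw1 : ‖w‖ = 1 := mem_sphere_zero_iff_norm.1 hw
  -- the powers in the subclass
  have hpow : ∀ i ∈ R, ∀ t : ℕ, γ i ^ (m + q * (r + D * t)) =
      γ i ^ (m + q * r) * (ω' ^ t) ^ k i := by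
    intro i hi t
    have e1 : m + q * (r + D * t) = (m + q * r) + D * (q * t) := by ring
    rw [e1, pow_add, pow_mul (γ i) D, hk i hi, hω', ← pow_mul ω q t]
    congr 1
    rw [← zpow_natCast, ← zpow_mul, ← zpow_natCast, ← zpow_mul, mul_comm]
  have hz' : ∀ i ∈ R, z i = γ i ^ (m + q * r) * w ^ k i := by
    intro i hi
    have h1 : Tendsto (fun n => γ i ^ (m + q * (r + D * s (θ n)))) atTop
        (𝓝 (γ i ^ (m + q * r) * w ^ k i)) := by
      have h2 : Tendsto (fun n => (ω' ^ s (θ n)) ^ k i) atTop (𝓝 (w ^ k i)) :=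
        ((continuousAt_zpow₀ w (k i) (Or.inl (ne_zero_of_unit hw1))).tendsto).comp hlim
      refine (h2.const_mul _).congr fun n => ?_
      rw [hpow i hi]
    have h3 : Tendsto (fun n => γ i ^ (m + q * (r + D * s (θ n)))) atTop (𝓝 (z i)) := by
      rw [tendsto_iff_norm_sub_tendsto_zero]
      refine squeeze_zero (fun n => norm_nonneg _) (fun n => ?_)
        ((tendsto_one_div_add_atTop_nhds_zero_nat (𝕜 := ℝ)).comp hθ.tendsto_atTop)
      refine le_trans ?_ (hs2 (θ n)).le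
      exact Finset.single_le_sum (f := fun i => ‖γ i ^ (m + q * (r + D * s (θ n))) - z i‖)
        (fun i _ => norm_nonneg _) hi
    exact tendsto_nhds_unique h3 h1
  have hnear : ∀ ε : ℝ, 0 < ε → ∀ T : ℕ, ∃ t, T ≤ t ∧ ‖ω' ^ t - w‖ < ε := by
    intro ε hε T
    obtain ⟨N, hN⟩ := (Metric.tendsto_atTop.1 hlim) ε hε
    refine ⟨s (θ (max N T)), ?_, ?_⟩
    · have h1 : max N T ≤ θ (max N T) := hθ.id_le _
      have h2 := hs1 (θ (max N T))
      have h3 := le_max_right N T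
      omega
    · have := hN (max N T) (le_max_left _ _)
      rwa [dist_eq_norm] at this
  obtain ⟨C, hC0, hC⟩ := approx_one ω' w hω'1 hw1 hnear
  refine ⟨2 * D * C * ∑ i ∈ R, ((|k i| : ℤ) : ℝ), ?_, fun T => ?_⟩
  · have : 0 ≤ ∑ i ∈ R, ((|k i| : ℤ) : ℝ) := Finset.sum_nonneg fun i _ => by
      exact_mod_cast abs_nonneg (k i)
    positivity
  obtain ⟨t, ht1, ht2, ht3⟩ := hC T
  have hle : t ≤ r + D * t := by
    have : t ≤ D * t := Nat.le_mul_of_pos_left _ hD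
    omega
  refine ⟨r + D * t, by omega, by omega, fun i hi => ?_⟩
  have h1 : ‖γ i ^ (m + q * (r + D * t)) - z i‖ ≤ (|k i| : ℤ) * ‖ω' ^ t - w‖ := by
    rw [hpow i hi, hz' i hi, ← mul_sub, norm_mul, norm_pow, hγ i hi, one_pow, one_mul]
    exact zpow_lip (by rw [norm_pow, hω'1, one_pow]) hw1 (k i)
  have h2 : ((r + D * t : ℕ) : ℝ) ≤ 2 * D * t := by
    have : r + D * t ≤ 2 * D * t := by
      have : D ≤ D * t := Nat.le_mul_of_pos_right _ ht2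
      nlinarith
    exact_mod_cast this
  have hk0 : (0 : ℝ) ≤ ((|k i| : ℤ) : ℝ) := by exact_mod_cast abs_nonneg (k i)
  have h3 : ((|k i| : ℤ) : ℝ) ≤ ∑ i ∈ R, ((|k i| : ℤ) : ℝ) :=
    Finset.single_le_sum (f := fun i => ((|k i| : ℤ) : ℝ))
      (fun i _ => by exact_mod_cast abs_nonneg (k i)) hi
  calc ‖γ i ^ (m + q * (r + D * t)) - z i‖ * ((r + D * t : ℕ) : ℝ)
      ≤ (((|k i| : ℤ) : ℝ) * ‖ω' ^ t - w‖) * (2 * D * t) :=
        mul_le_mul h1 h2 (Nat.cast_nonneg _) (by positivity)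
    _ = 2 * D * (‖ω' ^ t - w‖ * t) * ((|k i| : ℤ) : ℝ) := by ring
    _ ≤ 2 * D * C * ((|k i| : ℤ) : ℝ) := by gcongr
    _ ≤ _ := by gcongr

end Pool.Agent.J4H65.RO
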