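import Pool.Agent.J4H65.RO.Fm2
import Pool.Agent.H612.LR.T_VC1

/-!
# From values to certificates of the second order
-/

set_option autoImplicit false

namespace Pool.Agent.J4H65.RO

open Pool.Agent.NPC Pool.Agent.NPC.ER Pool.Agent.NPC.H612 Pool.Agent.H612.PG Pool.Agent.H612.LR

open Pool.Agent.H612.LR.VC1 in
/-- from values to certificates -/
theorem vc1 (l : Rec) (Nb N0 : ℕ) (v : V) (hv : VGood v l Nb N0) :
    Cert2 l Nb N0 := by
  obtain ⟨g, J, hJ, hc, hρ0, hJ0, hn⟩ := hv
  classical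
  have hκ0 : ∀ i, ∃ s, i < l.length → (s < l.length ∧
      (∀ s' < l.length, v.K i s' = if s' = s then 1 else 0) ∧ v.s16 i Nb = v.s16 s Nb) := by
    intro i
    by_cases hi : i < l.length
    · obtain ⟨s, h1, h2⟩ := g.a12 i hi
      exact ⟨s, fun _ => ⟨h1, h2⟩⟩
    · exact ⟨0, fun h => absurd h hi⟩
  choose κ hκ using hκ0
  have hq : numV Nb v.q = (hb v.q Nb : ℝ) := numV_eq _ _ fun t ht => (g.a8 t ht).1.1
  have hρ : v.ρ ≠ 0 := hρ0.ne'
  have hqb : ∀ t < Nb, IsBit (v.q t) := fun t ht => (g.a8 t ht).1.1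
  have hmb : ∀ t < Nb, IsBit (v.m t) := fun t ht => (g.a8 t ht).1.2
  have hPb : ∀ i < l.length, ∀ t < Nb, IsBit (v.P i t) := fun i hi t ht =>
    ((g.a8 t ht).2 i hi).1
  have hab : ∀ i < l.length, ∀ j < l.length, ∀ t < Nb, IsBit (v.a j i t) :=
    fun i hi j hj t ht => (((g.a8 t ht).2 i hi).2 j hj).1
  have hbb : ∀ i < l.length, ∀ j < l.length, ∀ t < Nb, IsBit (v.b j i t) :=
    fun i hi j hj t ht => (((g.a8 t ht).2 i hi).2 j hj).2
  have hF : ∀ i ∈ (Finset.range l.length).filter (fun i => flg v i = 1), i < l.length ∧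
      v.F i 1 ≠ 0 := by
    intro i hi
    rw [Finset.mem_filter, Finset.mem_range] at hi
    refine ⟨hi.1, ?_⟩
    rw [F_eq l Nb v g hi.1 1 (by norm_num), if_pos hi.2]
    exact one_ne_zero
  have h6 : ∀ i ∈ (Finset.range l.length).filter (fun i => flg v i = 1),
      v.lam i = (v.ρ : ℂ) * (v.s20 i Nb * v.h 0 i) ∧ v.h l.length i = 1 ∧
      (numV Nb v.q * 2 ^ N0 * ‖v.h 0 i - 1‖) ^ 2 ≤ 1 ∧
      ∀ j < l.length, v.h j i = v.s22 j i Nb * v.s23 j i Nb * v.h (j + 1) i ∧
        ((numV Nb (v.a j i) + numV Nb (v.b j i) + 1) * 2 ^ N0 * ‖v.ξ j - 1‖) ^ 2 ≤ 1 ∧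
        (2 ^ N0 * ‖v.h (j + 1) i - 1‖) ^ 2 ≤ ‖v.ξ j - 1‖ ^ 2 := by
    intro i hi
    rcases hn.b6 i (hF i hi).1 with h | h
    · exact absurd h (hF i hi).2
    · exact h
  have hρ' : (v.ρ : ℂ) ≠ 0 := by exact_mod_cast hρ
  have key : Chain l.length (hb v.q Nb) N0 ((Finset.range l.length).filter fun i => flg v i = 1)
      (fun i => v.lam i / (v.ρ : ℂ)) (fun i => hb (v.P i) Nb) (fun j i => hb (v.a j i) Nb)
      (fun j i => hb (v.b j i) Nb) v.ζ v.ξ v.h ∧
      (∀ j < l.length, ‖v.x j‖ = 1 ∧ (v.ξ j = 1 → v.x j = 1)) ∧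
      ∀ J' : ℕ, ∑ i ∈ Finset.range l.length, ((v.F i 1 : ℝ) : ℂ) * (v.c i J' * v.Z i l.length) =
        ∑ i ∈ (Finset.range l.length).filter (fun i => flg v i = 1), v.c i J' *
          ((v.ζ ^ hb v.m Nb) ^ hb (v.P i) Nb *
            ∏ j ∈ Finset.range l.length, pw (v.x j) (hb (v.a j i) Nb) (hb (v.b j i) Nb)) := by
    refine ⟨?_, ?_, ?_⟩
    · constructor
      · have h1 := powV_eq hn.b1.1 hqb Nb le_rfl
        rw [hn.b4] at h1
        exact h1.symm
      · intro j hj
        exact (hn.b5 j hj).1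
      · intro i hi
        have h1 := (h6 i hi).1
        rw [powV_eq (hn.b2 i (hF i hi).1).1 (hPb i (hF i hi).1) Nb le_rfl] at h1
        show v.lam i / (v.ρ : ℂ) = _
        rw [h1]
        field_simp
      · intro i hi j hj
        have h1 := ((h6 i hi).2.2.2 j hj).1
        have h2 := (hn.b3 i (hF i hi).1 j hj).1
        rw [powV_eq h2.1 (hab i (hF i hi).1 j hj) Nb le_rfl,
          powV_eq h2.2 (hbb i (hF i hi).1 j hj) Nb le_rfl] at h1
        exact h1
      · intro i hi
        exact (h6 i hi).2.1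
      · intro i hi
        have h1 := (h6 i hi).2.2.1
        rw [hq] at h1
        exact le_one_of_sq h1
      · intro i hi j hj
        have h1 := ((h6 i hi).2.2.2 j hj).2.1
        rw [numV_eq _ _ (hab i (hF i hi).1 j hj), numV_eq _ _ (hbb i (hF i hi).1 j hj)] at h1
        push_cast
        exact le_one_of_sq h1
      · intro i hi j hj
        have h1 := ((h6 i hi).2.2.2 j hj).2.2
        exact le_of_sq_le_sq h1 (norm_nonneg _)
    · intro j hj
      obtain ⟨h1, h2, h3⟩ := hn.b5 j hj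
      refine ⟨h2, fun h => ?_⟩
      rcases h3 with h3 | h3
      · exact absurd h h3
      · exact h3
    · have hZ : ∀ i < l.length, ∀ t ≤ l.length, v.Z i t = (v.ζ ^ hb v.m Nb) ^ hb (v.P i) Nb *
          ∏ j ∈ Finset.range t, pw (v.x j) (hb (v.a j i) Nb) (hb (v.b j i) Nb) := by
        intro i hi t
        induction t with
        | zero =>
          intro _
          rw [(hn.b7 i hi).1, powV_eq (hn.b2 i hi).2 (hPb i hi) Nb le_rfl,
            powV_eq hn.b1.2 hmb Nb le_rfl]
          simp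
        | succ t ih =>
          intro ht
          have h2 := (hn.b3 i hi t (by omega)).2
          rw [(hn.b7 i hi).2 t (by omega), ih (by omega), Finset.prod_range_succ,
            powV_eq h2.1 (hab i hi t (by omega)) Nb le_rfl,
            powV_eq h2.2 (hbb i hi t (by omega)) Nb le_rfl]
          unfold pw
          ring
      intro J'
      rw [Finset.sum_filter]
      apply Finset.sum_congr rfl
      intro i hi
      have hi' := Finset.mem_range.1 hi
      rw [F_eq l Nb v g hi' 1 (by norm_num), hZ i hi' _ le_rfl]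
      by_cases h1 : flg v i = 1
      · simp [h1]
      · simp [h1]
  refine ⟨⟨v.lam, v.c, v.ρ, J, hb v.m Nb, hb v.q Nb, fun i => hb (v.P i) Nb,
    fun j i => hb (v.a j i) Nb, fun j i => hb (v.b j i) Nb, v.ζ, v.ξ, v.x, v.h, flg v, κ⟩, ?_⟩
  constructor
  · -- rep
    refine ⟨fun i hi => (g.a6 i hi).1, fun i hi i' hi' h => ?_, ?_⟩
    · rcases (g.a6 i hi).2 i' hi' with h1 | h1
      · exact h1
      · exact absurd h h1
    · intro n hn1 hn2
      obtain ⟨n', rfl⟩ : ∃ n', n = n' + l.length := ⟨n - l.length, by omega⟩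
      have h1 := g.a7 n' (by omega)
      rw [U_eq l Nb v g _ hn2] at h1
      have h2 : (((seq l (n' + l.length) : ℚ) : ℝ) : ℂ) = ((seq l (n' + l.length) : ℚ) : ℂ) := by
        push_cast
        rfl
      rw [← h2, h1]
      unfold expo
      apply Finset.sum_congr rfl
      intro i hi
      apply Finset.sum_congr rfl
      intro j hj
      rw [B_eq l Nb v g _ (by omega) j (Finset.mem_range.1 hj).le,
        W_eq l Nb v g (Finset.mem_range.1 hi) _ (by omega)]
      push_cast
      rfl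
  · exact hJ
  · exact hJ0
  · exact hb_lt _ _
  · exact hb_lt _ _
  · intro i _
    exact hb_lt _ _
  · intro j _ i _
    exact hb_lt _ _
  · intro j _ i _
    exact hb_lt _ _
  · -- lev
    constructor
    · exact g.a10.1
    · have h1 := g.a10.2
      rw [hq] at h1
      exact_mod_cast h1
    · intro i hi
      rcases g.a11 i hi with h | ⟨h, h1, h2⟩ | ⟨h, h1⟩
      · left
        exact flg_eq v i 0 (by norm_num) h
      · right
        left
        refine ⟨flg_eq v i 1 (by norm_num) h, ?_, ?_⟩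
        · exact (sq_eq_sq₀ (norm_nonneg _) g.a10.1).1 h1
        · unfold V.Root at h2
          rw [W_eq l Nb v g hi _ (by nlinarith)] at h2
          show v.lam i ^ l.length = _
          rw [h2]
          apply Finset.sum_congr rfl
          intro j hj
          have hj' := Finset.mem_range.1 hj
          rw [W_eq l Nb v g hi _ (by omega), g.a1 j hj']
          push_cast
          rfl
      · right
        right
        refine ⟨flg_eq v i 2 (by norm_num) h, ?_⟩
        exact lt_of_pow_lt_pow_left₀ 2 g.a10.1 h1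
    · intro i hi
      obtain ⟨h1, h2, h3⟩ := hκ i hi
      refine ⟨h1, ?_⟩
      rw [powV_eq (g.a9 i hi).1 (fun t ht => (g.a8 t ht).1.1) Nb le_rfl,
        powV_eq (g.a9 _ h1).1 (fun t ht => (g.a8 t ht).1.1) Nb le_rfl] at h3
      exact h3
    · intro s hs j hj
      exact can_eq g (fun i hi s hs => (hκ i hi).2.1 s hs) (by norm_num) hs (g.a13 s hs j hj)
    · intro s hs j hj hJj
      exact can_eq g (fun i hi s hs => (hκ i hi).2.1 s hs) (by norm_num) hs (hc s hs j hj hJj)
  · exact hρ0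
  · exact key.1
  · exact key.2.1
  · have h8 := hn.b8
    rw [key.2.2] at h8
    exact h8
  · have h9 := hn.b9
    rw [key.2.2] at h9
    exact h9

end Pool.Agent.J4H65.RO
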