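import Pool.Agent.J4H65.RO.Main2

/-!
# The remaining instances of order at most seven
-/

set_option autoImplicit false

namespace Pool.Agent.J4H65.RO

open Polynomial Filter Topology Pool.Agent.H612.LR Pool.Agent.J4H65.UP

/-- Along an arithmetic progression of indices `n`, up to an error `O(1/(n+1))`,
`u_n / ρ^n = a n (1 - cos (nθ+β)) + r sin (nθ+β) + s (1 - cos (nθ+β))`, where `a > 0`, `r ≠ 0` and
`θ/π` is irrational. -/
def WaveType (l : Rec) : Prop := ∃ (ρ a r s θ β C : ℝ) (A B : ℕ), 0 < ρ ∧ 0 < a ∧ r ≠ 0 ∧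
  Irrational (θ / Real.pi) ∧ 1 ≤ B ∧ ∀ t n : ℕ, n = A + B * t →
    |(seq l n : ℝ) / ρ ^ n - (a * n * (1 - Real.cos (n * θ + β)) + r * Real.sin (n * θ + β) +
      s * (1 - Real.cos (n * θ + β)))| ≤ C / (n + 1)

section

variable {l : Rec} {d : CD}

/-- the real part of a layer -/
theorem layer_form (hl : 1 ≤ l.length) (hlev : d.Lev l) (hρ : 0 < d.ρ) (w : ℂ)
    (hw : ∀ y ∈ croots l, (starRingEnd ℂ) y ≠ y → y = w ∨ y = (starRingEnd ℂ) w)
    (h2 : 2 ∣ d.q) (j : ℕ) : ∃ (c0 : ℝ) (g : ℂ),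
    (∀ t : ℕ, (∑ i ∈ d.S l.length 1, d.c i j * (d.lam i / (d.ρ : ℂ)) ^ (d.m + d.q * t)).re =
      c0 + (g * (w / (d.ρ : ℂ)) ^ (d.m + d.q * t)).re) ∧
    (c0 ≠ 0 → ∃ i ∈ d.S l.length 1, d.c i j ≠ 0 ∧ (starRingEnd ℂ) (d.lam i) = d.lam i) ∧
    (g ≠ 0 → ∃ i ∈ d.S l.length 1, d.c i j ≠ 0 ∧ (starRingEnd ℂ) (d.lam i) ≠ d.lam i ∧
      (d.lam i = w ∨ d.lam i = (starRingEnd ℂ) w)) := by
  classical
  set S := d.S l.length 1 with hS
  have hroot : ∀ i ∈ S, ‖d.lam i‖ = d.ρ ∧ d.lam i ∈ croots l := by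
    intro i hi
    obtain ⟨-, h3, h4⟩ := mem_S1 hlev i hi
    exact ⟨h3, (t_ROOT l _ hl).1 h4⟩
  set R : ℕ → ℝ := fun i => if (starRingEnd ℂ) (d.lam i) = d.lam i then
    (d.c i j * (d.lam i / (d.ρ : ℂ)) ^ d.m).re else 0 with hR
  set G : ℕ → ℂ := fun i => if (starRingEnd ℂ) (d.lam i) = d.lam i then 0 else
    if d.lam i = w then d.c i j else (starRingEnd ℂ) (d.c i j) with hG
  refine ⟨∑ i ∈ S, R i, ∑ i ∈ S, G i, fun t => ?_, fun h0 => ?_, fun h0 => ?_⟩
  · rw [Complex.re_sum, Finset.sum_mul, Complex.re_sum, ← Finset.sum_add_distrib]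
    refine Finset.sum_congr rfl fun i hi => ?_
    obtain ⟨h3, h4⟩ := hroot i hi
    by_cases hr : (starRingEnd ℂ) (d.lam i) = d.lam i
    · simp only [hR, hG, hr, if_true, zero_mul, Complex.zero_re, add_zero]
      congr 2
      obtain ⟨e, he⟩ := h2
      have h5 : (d.lam i / (d.ρ : ℂ)) ^ 2 = 1 := by
        have h0 : d.lam i ≠ 0 := by
          rw [← norm_ne_zero_iff, h3]
          exact hρ.ne'
        have h6 := unit_sq h0 hr
        rw [h3] at h6
        exact_mod_cast h6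
      rw [pow_add, he, mul_assoc, pow_mul _ 2, h5, one_pow, mul_one]
    · simp only [hR, hG, hr, if_false, zero_add]
      by_cases hiw : d.lam i = w
      · rw [if_pos hiw, hiw]
      · rw [if_neg hiw]
        have h5 : d.lam i = (starRingEnd ℂ) w := (hw _ h4 hr).resolve_left hiw
        rw [h5, ← Complex.conj_re ((starRingEnd ℂ) (d.c i j) * (w / (d.ρ : ℂ)) ^ (d.m + d.q * t)),
          map_mul, Complex.conj_conj, map_pow, map_div₀, Complex.conj_ofReal]
  · obtain ⟨i, hi, hne⟩ := Finset.exists_ne_zero_of_sum_ne_zero h0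
    refine ⟨i, hi, fun h1 => hne ?_, ?_⟩
    · simp only [hR, h1, zero_mul, Complex.zero_re, ite_self]
    · by_contra hr
      exact hne (by simp only [hR, hr, if_false])
  · obtain ⟨i, hi, hne⟩ := Finset.exists_ne_zero_of_sum_ne_zero h0
    have hr : (starRingEnd ℂ) (d.lam i) ≠ d.lam i := fun hr => hne (by simp only [hG, hr, if_true])
    refine ⟨i, hi, fun h1 => hne ?_, hr, hw _ (hroot i hi).2 hr⟩
    simp only [hG, h1, map_zero, ite_self]

/-- A double zero of a trigonometric polynomial of degree one. -/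
theorem double_zero (c0 : ℝ) (g x z : ℂ) (m q : ℕ) (hq : 1 ≤ q) (hx : ‖x‖ = 1)
    (hxr : ∀ k : ℕ, 1 ≤ k → x ^ k ≠ 1) (hz : ‖z‖ = 1)
    (hnn : ∀ t : ℕ, 0 ≤ c0 + (g * x ^ (m + q * t)).re)
    (hlim : ∀ ε : ℝ, 0 < ε → ∀ T : ℕ, ∃ t, T ≤ t ∧ ‖x ^ (m + q * t) - z‖ < ε)
    (h0 : c0 + (g * z).re = 0) : (g * z).im = 0 ∧ 0 ≤ c0 := by
  have hxn : ∀ n : ℕ, ‖x ^ n‖ = 1 := fun n => by rw [norm_pow, hx, one_pow]
  have hzz : z * (starRingEnd ℂ) z = 1 := by
    rw [Complex.mul_conj, Complex.normSq_eq_norm_sq, hz]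
    norm_num
  -- the reflected points
  have hrefl : ∀ t : ℕ, 0 ≤ c0 + (g * (z ^ 2 * (starRingEnd ℂ) (x ^ (m + q * t)))).re := by
    intro t
    by_contra hcon
    rw [not_le] at hcon
    set E := c0 + (g * (z ^ 2 * (starRingEnd ℂ) (x ^ (m + q * t)))).re with hE
    obtain ⟨s, hs, hs2⟩ := hlim (-E / (2 * (‖g‖ + 1))) (div_pos (by linarith)
      (by have := norm_nonneg g; linarith)) t
    have e2 : x ^ (m + q * (2 * s - t)) * x ^ (m + q * t) = (x ^ (m + q * s)) ^ 2 := by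
      rw [← pow_add, ← pow_mul]
      congr 1
      have : t ≤ 2 * s := by omega
      zify [this]
      ring
    have e3 : x ^ (m + q * t) * (starRingEnd ℂ) (x ^ (m + q * t)) = 1 := by
      rw [Complex.mul_conj, Complex.normSq_eq_norm_sq, hxn]
      norm_num
    have e1 : x ^ (m + q * (2 * s - t)) =
        (x ^ (m + q * s)) ^ 2 * (starRingEnd ℂ) (x ^ (m + q * t)) := by
      rw [← e2, mul_assoc, e3, mul_one]
    have h1 : ‖g * x ^ (m + q * (2 * s - t)) -
        g * (z ^ 2 * (starRingEnd ℂ) (x ^ (m + q * t)))‖ ≤ ‖g‖ * (2 * (-E / (2 * (‖g‖ + 1)))) := by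
      rw [e1, ← mul_sub, ← sub_mul, norm_mul, norm_mul, RCLike.norm_conj, hxn, mul_one]
      refine mul_le_mul_of_nonneg_left ?_ (norm_nonneg _)
      have e4 : (x ^ (m + q * s)) ^ 2 - z ^ 2 = (x ^ (m + q * s) + z) * (x ^ (m + q * s) - z) := by
        ring
      rw [e4, norm_mul]
      have e5 : ‖x ^ (m + q * s) + z‖ ≤ 2 := by
        refine (norm_add_le _ _).trans ?_
        rw [hxn, hz]
        norm_num
      exact mul_le_mul e5 hs2.le (norm_nonneg _) (by norm_num)
    have h2 := (Complex.abs_re_le_norm _).trans h1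
    rw [Complex.sub_re] at h2
    have h3 := (abs_le.1 h2).2
    have h4 := hnn (2 * s - t)
    have h5 : ‖g‖ * (2 * (-E / (2 * (‖g‖ + 1)))) < -E := by
      have h6 : 0 < ‖g‖ + 1 := by have := norm_nonneg g; linarith
      have e6 : ‖g‖ * (2 * (-E / (2 * (‖g‖ + 1)))) = ‖g‖ * (-E) / (‖g‖ + 1) := by
        field_simp
      rw [e6, div_lt_iff₀ h6]
      nlinarith
    linarith
  -- coordinates
  set G := g * z with hG
  have hu : ∀ t : ℕ, |G.im * (x ^ (m + q * t) * (starRingEnd ℂ) z).im| ≤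
      c0 * (1 - (x ^ (m + q * t) * (starRingEnd ℂ) z).re) := by
    intro t
    set u := x ^ (m + q * t) * (starRingEnd ℂ) z with hu
    have e1 : g * x ^ (m + q * t) = G * u := by
      rw [hG, hu]
      linear_combination (-(g * x ^ (m + q * t))) * hzz
    have e2 : g * (z ^ 2 * (starRingEnd ℂ) (x ^ (m + q * t))) = G * (starRingEnd ℂ) u := by
      rw [hG, hu, map_mul, Complex.conj_conj]
      ring
    have h1 := hnn t
    have h2 := hrefl t
    rw [e1, Complex.mul_re] at h1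
    rw [e2, Complex.mul_re, Complex.conj_re, Complex.conj_im] at h2
    have h3 : G.re = -c0 := by linarith
    rw [h3] at h1 h2
    rw [abs_le]
    constructor <;> nlinarith
  have hun : ∀ t : ℕ, (x ^ (m + q * t) * (starRingEnd ℂ) z).re ^ 2 +
      (x ^ (m + q * t) * (starRingEnd ℂ) z).im ^ 2 = 1 := by
    intro t
    have h1 : Complex.normSq (x ^ (m + q * t) * (starRingEnd ℂ) z) = 1 := by
      rw [Complex.normSq_eq_norm_sq, norm_mul, RCLike.norm_conj, hxn, hz]
      norm_num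
    rw [Complex.normSq_apply] at h1
    nlinarith
  -- infinitely many points different from `z`
  have hne : ∀ ε : ℝ, 0 < ε → ∃ t : ℕ, ‖x ^ (m + q * t) - z‖ < ε ∧ x ^ (m + q * t) ≠ z := by
    intro ε hε
    obtain ⟨t1, -, h1⟩ := hlim ε hε 0
    obtain ⟨t2, ht2, h2⟩ := hlim ε hε (t1 + 1)
    by_cases e1 : x ^ (m + q * t1) = z
    · refine ⟨t2, h2, fun e2 => ?_⟩
      rw [← e1] at e2
      have e3 : m + q * t2 = (m + q * t1) + q * (t2 - t1) := by
        have : t1 ≤ t2 := by omega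
        zify [this]
        ring
      rw [e3, pow_add] at e2
      have h0 : x ^ (m + q * t1) ≠ 0 := by
        rw [← norm_ne_zero_iff, hxn]
        exact one_ne_zero
      have e4 : x ^ (q * (t2 - t1)) = 1 := by
        have := mul_left_cancel₀ h0 (e2.trans (mul_one _).symm)
        exact this
      exact hxr _ (Nat.mul_pos hq (by omega)) e4
    · exact ⟨t1, h1, e1⟩
  have hpq : ∀ ε : ℝ, 0 < ε → ε ≤ 1 → ∃ p r : ℝ, p ^ 2 + r ^ 2 = 1 ∧ 0 ≤ p ∧ r ≠ 0 ∧ |r| < ε ∧
      |G.im * r| ≤ c0 * (1 - p) := by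
    intro ε hε hε1
    obtain ⟨t, h1, h2⟩ := hne ε hε
    set u := x ^ (m + q * t) * (starRingEnd ℂ) z with hudef
    have h3 : ‖u - 1‖ < ε := by
      have e : u - 1 = (x ^ (m + q * t) - z) * (starRingEnd ℂ) z := by
        rw [hudef, sub_mul, hzz]
      rw [e, norm_mul, RCLike.norm_conj, hz, mul_one]
      exact h1
    have h4 : |u.re - 1| < ε := by
      have := (Complex.abs_re_le_norm (u - 1)).trans_lt h3
      rwa [Complex.sub_re, Complex.one_re] at this
    have h5 : |u.im| < ε := by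
      have := (Complex.abs_im_le_norm (u - 1)).trans_lt h3
      rwa [Complex.sub_im, Complex.one_im, sub_zero] at this
    have h6 := hun t
    rw [← hudef] at h6
    have h7 : 0 ≤ u.re := by
      have := (abs_lt.1 h4).1
      linarith
    refine ⟨u.re, u.im, h6, h7, fun h8 => h2 ?_, h5, hu t⟩
    rw [h8] at h6
    have h9 : u.re = 1 := by nlinarith
    have h10 : u = 1 := Complex.ext (by rw [h9, Complex.one_re]) (by rw [h8, Complex.one_im])
    have e : x ^ (m + q * t) = u * z := by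
      rw [hudef, mul_assoc, mul_comm ((starRingEnd ℂ) z) z, hzz, mul_one]
    rw [e, h10, one_mul]
  have hc0 : 0 ≤ c0 := by
    obtain ⟨p, r, h1, h2, h3, h4, h5⟩ := hpq 1 one_pos le_rfl
    have h6 : 0 < r ^ 2 := by positivity
    have h7 : 0 < 1 - p := by nlinarith
    by_contra hcon
    rw [not_le] at hcon
    have := abs_nonneg (G.im * r)
    nlinarith
  refine ⟨?_, hc0⟩
  by_contra him
  have h0 : 0 < |G.im| := abs_pos.2 him
  obtain ⟨p, r, h1, h2, h3, h4, h5⟩ := hpq (min 1 (|G.im| / (c0 + 1)))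
    (lt_min one_pos (by positivity)) (min_le_left _ _)
  have h6 : 0 < |r| := abs_pos.2 h3
  have h7 : 1 - p ≤ |r| ^ 2 := by
    rw [sq_abs]
    nlinarith
  rw [abs_mul] at h5
  have h8 : |G.im| * |r| ≤ c0 * |r| ^ 2 := h5.trans (mul_le_mul_of_nonneg_left h7 hc0)
  have h9 : |G.im| ≤ c0 * |r| := by
    have : |G.im| * |r| ≤ (c0 * |r|) * |r| := by
      calc _ ≤ c0 * |r| ^ 2 := h8
        _ = _ := by ring
    exact le_of_mul_le_mul_right this h6
  have h10 : |r| < |G.im| / (c0 + 1) := lt_of_lt_of_le h4 (min_le_right _ _)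
  rw [lt_div_iff₀ (by linarith)] at h10
  nlinarith

/-- The remaining instances of order at most seven. -/
theorem wave_of_data (l : Rec) (hl : 1 ≤ l.length) (h7 : l.length ≤ 7) (h : DCData l) :
    WaveType l := by
  classical
  obtain ⟨w, hwk, hw⟩ := roots_seven l hl h7 (critical_of_doubly l (doubly_of_data h))
  obtain ⟨ρ, m, h⟩ := h
  obtain ⟨d, hq1, h2, hρ', hJ', hrep, hcls, hD⟩ := h 2 (by norm_num)
  subst hρ'
  subst hJ'
  have hρ := hD.rpos
  have hρc : (d.ρ : ℂ) ≠ 0 := by exact_mod_cast hρ.ne'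
  obtain ⟨c0, g, hφ, hc0, hg⟩ := layer_form hl hcls.lev hρ w hw h2 d.J
  obtain ⟨e0, f, hψ, -, -⟩ := layer_form hl hcls.lev hρ w hw h2 (d.J - 1)
  have hφ' : ∀ t, (dpart l.length d t).re = c0 + (g * (w / (d.ρ : ℂ)) ^ (d.m + d.q * t)).re := hφ
  have hψ' : ∀ t, (dpart2 l.length d t).re = e0 + (f * (w / (d.ρ : ℂ)) ^ (d.m + d.q * t)).re :=
    hψ
  set x : ℂ := w / (d.ρ : ℂ) with hx
  have hnn : ∀ t, 0 ≤ c0 + (g * x ^ (d.m + d.q * t)).re := fun t => by
    rw [← hφ' t]
    exact hD.nonneg t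
  have hg0 : g ≠ 0 := by
    intro h0
    have h1 : ∀ t, (dpart l.length d t).re = c0 := fun t => by
      rw [hφ' t, h0, zero_mul, Complex.zero_re, add_zero]
    have h3 : 0 ≤ c0 := by
      have := hnn 0
      rw [h0, zero_mul, Complex.zero_re, add_zero] at this
      exact this
    rcases h3.eq_or_lt with h4 | h4
    · obtain ⟨t, ht⟩ := hD.nonzero
      exact ht (by show (dpart l.length d t).re = 0; rw [h1 t, ← h4])
    · obtain ⟨t, -, ht, -⟩ := hD.small c0 h4 0
      have : (dpart l.length d t).re < c0 := ht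
      rw [h1 t] at this
      exact lt_irrefl _ this
  obtain ⟨i1, hi1, hne1, hr1, hw1⟩ := hg hg0
  obtain ⟨hi1k, hn1, -⟩ := mem_S1 hcls.lev i1 hi1
  have hwn : ‖w‖ = d.ρ := by
    rcases hw1 with h1 | h1
    · rw [← h1]; exact hn1
    · rw [← hn1, h1, RCLike.norm_conj]
  have hx1 : ‖x‖ = 1 := by
    rw [hx, norm_div, hwn, Complex.norm_real, Real.norm_of_nonneg hρ.le, div_self hρ.ne']
  have hxr : ∀ k : ℕ, 1 ≤ k → x ^ k ≠ 1 := by
    intro k hk h1
    rw [hx, div_pow, div_eq_one_iff_eq (pow_ne_zero _ hρc)] at h1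
    apply hwk k hk
    have h3 := congrArg (starRingEnd ℂ) h1
    rw [map_pow, map_pow, Complex.conj_ofReal] at h3
    rw [h1, h3]
  -- the limit point
  choose u hu1 hu2 hu3 using fun n : ℕ => hD.small (1 / ((n : ℝ) + 1)) (by positivity) n
  have hmem : ∀ n, x ^ (d.m + d.q * u n) ∈ Metric.sphere (0 : ℂ) 1 := fun n => by
    rw [mem_sphere_zero_iff_norm, norm_pow, hx1, one_pow]
  obtain ⟨z, hz, θ', hθ', hlim⟩ := (isCompact_sphere (0 : ℂ) 1).tendsto_subseq hmem
  have hz1 : ‖z‖ = 1 := mem_sphere_zero_iff_norm.1 hz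
  have hnear : ∀ ε : ℝ, 0 < ε → ∀ T : ℕ, ∃ t, T ≤ t ∧ ‖x ^ (d.m + d.q * t) - z‖ < ε := by
    intro ε hε T
    obtain ⟨N, hN⟩ := (Metric.tendsto_atTop.1 hlim) ε hε
    refine ⟨u (θ' (max N T)), ?_, ?_⟩
    · have h1 : max N T ≤ θ' (max N T) := hθ'.id_le _
      have h3 := hu1 (θ' (max N T))
      have h4 := le_max_right N T
      omega
    · have := hN (max N T) (le_max_left _ _)
      rwa [dist_eq_norm] at this
  have hinv := (tendsto_one_div_add_atTop_nhds_zero_nat (𝕜 := ℝ)).comp hθ'.tendsto_atTop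
  have h0 : c0 + (g * z).re = 0 := by
    have h1 : Tendsto (fun n => c0 + (g * x ^ (d.m + d.q * u (θ' n))).re) atTop
        (𝓝 (c0 + (g * z).re)) :=
      ((Complex.continuous_re.tendsto _).comp (hlim.const_mul g)).const_add c0
    refine tendsto_nhds_unique h1 (squeeze_zero (fun n => hnn _) (fun n => ?_) hinv)
    have : (dpart l.length d (u (θ' n))).re < 1 / ((θ' n : ℕ) + 1) := hu2 (θ' n)
    rw [hφ'] at this
    exact this.le
  have h0' : e0 + (f * z).re = 0 := by
    have h1 : Tendsto (fun n => e0 + (f * x ^ (d.m + d.q * u (θ' n))).re) atTop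
        (𝓝 (e0 + (f * z).re)) :=
      ((Complex.continuous_re.tendsto _).comp (hlim.const_mul f)).const_add e0
    refine tendsto_nhds_unique h1 (squeeze_zero_norm (fun n => ?_) hinv)
    have : |(dpart2 l.length d (u (θ' n))).re| < 1 / ((θ' n : ℕ) + 1) := hu3 (θ' n)
    rw [hψ'] at this
    exact this.le
  obtain ⟨him, hc00⟩ := double_zero c0 g x z d.m d.q hq1 hx1 hxr hz1 hnn hnear h0
  have hG : g * z = ((-c0 : ℝ) : ℂ) := Complex.ext (by rw [Complex.ofReal_re]; linarith)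
    (by rw [Complex.ofReal_im]; exact him)
  have hz0 : z ≠ 0 := ne_zero_of_unit hz1
  have hc0' : c0 ≠ 0 := by
    intro h1
    rw [h1, neg_zero, Complex.ofReal_zero] at hG
    exact mul_ne_zero hg0 hz0 hG
  have hc0p : 0 < c0 := lt_of_le_of_ne hc00 (Ne.symm hc0')
  -- the degree
  obtain ⟨i0, hi0, hne0, hr0⟩ := hc0 hc0'
  obtain ⟨hi0k, hn0, -⟩ := mem_S1 hcls.lev i0 hi0
  have hcnt0 := count_of_coef l hl d.lam d.c hrep i0 d.J hi0k hcls.jlt hne0
  have hcnt1 := count_of_coef l hl d.lam d.c hrep i1 d.J hi1k hcls.jlt hne1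
  have hcw : d.J < (croots l).count w := by
    rcases hw1 with h1 | h1
    · rw [← h1]; exact hcnt1
    · rw [h1, count_conj] at hcnt1
      exact hcnt1
  have hcw' : d.J < (croots l).count ((starRingEnd ℂ) w) := by rw [count_conj]; exact hcw
  have hwr : (starRingEnd ℂ) w ≠ w := fun h1 => hwk 1 le_rfl (by rw [h1])
  have hJ : d.J = 1 := by
    have h1 := sum_count_le l hl {d.lam i0, w, (starRingEnd ℂ) w}
    have hA : d.lam i0 ≠ w := fun h3 => hwr (by rw [← h3]; exact hr0)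
    have hB : d.lam i0 ≠ (starRingEnd ℂ) w := by
      intro h3
      rw [h3, Complex.conj_conj] at hr0
      exact hwr hr0.symm
    rw [Finset.sum_insert (by simp [hA, hB]), Finset.sum_insert (by simpa using Ne.symm hwr),
      Finset.sum_singleton] at h1
    have := hD.mpos
    omega
  -- the angles
  have hzz : z * (starRingEnd ℂ) z = 1 := by
    rw [Complex.mul_conj, Complex.normSq_eq_norm_sq, hz1]
    norm_num
  set θ : ℝ := x.arg with hθ
  set β : ℝ := ((starRingEnd ℂ) z).arg with hβ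
  have hxe : x = Complex.exp ((θ : ℂ) * Complex.I) := by
    have := Complex.norm_mul_exp_arg_mul_I x
    rw [hx1, Complex.ofReal_one, one_mul] at this
    exact this.symm
  have hze : (starRingEnd ℂ) z = Complex.exp ((β : ℂ) * Complex.I) := by
    have := Complex.norm_mul_exp_arg_mul_I ((starRingEnd ℂ) z)
    rw [RCLike.norm_conj, hz1, Complex.ofReal_one, one_mul] at this
    exact this.symm
  have hux : ∀ n : ℕ, x ^ n * (starRingEnd ℂ) z =
      Complex.exp (((n * θ + β : ℝ) : ℂ) * Complex.I) := by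
    intro n
    rw [hze, hxe, ← Complex.exp_nat_mul, ← Complex.exp_add]
    congr 1
    push_cast
    ring
  have hre : ∀ n : ℕ, (x ^ n * (starRingEnd ℂ) z).re = Real.cos (n * θ + β) := fun n => by
    rw [hux, Complex.exp_ofReal_mul_I_re]
  have hime : ∀ n : ℕ, (x ^ n * (starRingEnd ℂ) z).im = Real.sin (n * θ + β) := fun n => by
    rw [hux, Complex.exp_ofReal_mul_I_im]
  have hirr : Irrational (θ / Real.pi) := by
    rintro ⟨p, hp⟩
    have hpi := Real.pi_ne_zero
    have h1 : θ = (p : ℝ) * Real.pi := by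
      rw [hp]
      field_simp
    refine hxr (2 * p.den) (Nat.mul_pos two_pos p.den_pos) ?_
    rw [hxe, ← Complex.exp_nat_mul, h1]
    have e : ((2 * p.den : ℕ) : ℂ) * ((((p : ℝ) * Real.pi : ℝ) : ℂ) * Complex.I) =
        (p.num : ℂ) * (2 * Real.pi * Complex.I) := by
      have h3 : (p : ℂ) * (p.den : ℂ) = (p.num : ℂ) := by
        exact_mod_cast Rat.mul_den_eq_num p
      push_cast
      linear_combination (2 * (Real.pi : ℂ) * Complex.I) * h3
    rw [e]
    exact Complex.exp_int_mul_two_pi_mul_I p.num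
  have hφe : ∀ t, (dpart l.length d t).re =
      c0 * (1 - Real.cos ((d.m + d.q * t : ℕ) * θ + β)) := by
    intro t
    have e : g * x ^ (d.m + d.q * t) =
        ((-c0 : ℝ) : ℂ) * (x ^ (d.m + d.q * t) * (starRingEnd ℂ) z) := by
      rw [← hG]
      linear_combination (-(g * x ^ (d.m + d.q * t))) * hzz
    rw [hφ', e, Complex.re_ofReal_mul, hre]
    ring
  have hψe : ∀ t, (dpart2 l.length d t).re =
      -(f * z).im * Real.sin ((d.m + d.q * t : ℕ) * θ + β) +
      e0 * (1 - Real.cos ((d.m + d.q * t : ℕ) * θ + β)) := by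
    intro t
    have e : f * x ^ (d.m + d.q * t) =
        (f * z) * (x ^ (d.m + d.q * t) * (starRingEnd ℂ) z) := by
      linear_combination (-(f * x ^ (d.m + d.q * t))) * hzz
    have h1 : (f * z).re = -e0 := by linarith
    rw [hψ', e, Complex.mul_re, hre, hime, h1]
    ring
  have hr : -(f * z).im ≠ 0 := by
    intro hr
    obtain ⟨t, -, ht⟩ := hD.neg hJ (|e0| / c0) 0
    have h1 : (dpart2 l.length d t).re + |e0| / c0 * (dpart l.length d t).re < 0 := ht
    rw [hφe, hψe, hr] at h1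
    have h3 : 0 ≤ 1 - Real.cos ((d.m + d.q * t : ℕ) * θ + β) := by
      have := Real.cos_le_one ((d.m + d.q * t : ℕ) * θ + β)
      linarith
    have h4 : |e0| / c0 * (c0 * (1 - Real.cos ((d.m + d.q * t : ℕ) * θ + β))) =
        |e0| * (1 - Real.cos ((d.m + d.q * t : ℕ) * θ + β)) := by
      field_simp
    rw [h4] at h1
    have h5 := neg_abs_le e0
    nlinarith
  obtain ⟨C, N, hC⟩ := hD.asym
  refine ⟨d.ρ, c0, -(f * z).im, e0, θ, β, C, d.m + d.q * N, d.q, hρ, hc0p, hr, hirr, hq1,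
    fun t n hn => ?_⟩
  have hn' : n = d.m + d.q * (N + t) := by rw [hn]; ring
  have h1 := hC (N + t) (by omega)
  rw [hφe, hψe, hJ, ← hn', Nat.choose_one_right, Nat.sub_self, Nat.choose_zero_right, Nat.cast_one,
    one_mul] at h1
  have hρn : 0 < d.ρ ^ n := pow_pos hρ n
  have hn0 : (0 : ℝ) < (n : ℝ) + 1 := by positivity
  have e3 : (seq l n : ℝ) / d.ρ ^ n - (c0 * n * (1 - Real.cos (n * θ + β)) +
      -(f * z).im * Real.sin (n * θ + β) + e0 * (1 - Real.cos (n * θ + β))) =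
      ((seq l n : ℝ) - d.ρ ^ n * ((n : ℝ) * (c0 * (1 - Real.cos (n * θ + β))) +
        (-(f * z).im * Real.sin (n * θ + β) + e0 * (1 - Real.cos (n * θ + β))))) /
          d.ρ ^ n := by
    field_simp
    ring
  rw [e3, abs_div, abs_of_pos hρn, div_le_iff₀ hρn]
  refine h1.trans (le_of_eq ?_)
  rw [pow_one]
  field_simp

end

end Pool.Agent.J4H65.RO
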